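import Mathlib.Analysis.SpecialFunctions.Pow.Real
import Mathlib.Algebra.Order.BigOperators.Group.Finset
import Mathlib.Algebra.BigOperators.Intervals
import Mathlib.Tactic

/-!
GLow: a local bound for renewal laws whose potential decays like `n ^ (-1/4)`.
`u` is the potential, `lam` the law of the steps, `al k = u (k-1) - u k`.
-/

set_option autoImplicit false

namespace HexObs

open Finset

namespace GLow

namespace Lam

/-- sum of the powers -3/4 -/
lemma sum_quarter (S : ℕ) : ∑ l ∈ range S, ((l : ℝ) + 1) ^ (-(3 / 4) : ℝ) ≤ 4 * (S : ℝ) ^ (1 / 4 : ℝ) := by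
  induction S with
  | zero =>
      simp
  | succ S ih =>
      rw [sum_range_succ]
      have h1 : (0 : ℝ) < (S : ℝ) + 1 := by positivity
      have h0 : (0 : ℝ) ≤ (S : ℝ) := Nat.cast_nonneg _
      set a : ℝ := ((S : ℝ) + 1) ^ (1 / 4 : ℝ) with ha
      set b : ℝ := (S : ℝ) ^ (1 / 4 : ℝ) with hb
      have ha0 : 0 < a := Real.rpow_pos_of_pos h1 _
      have hb0 : 0 ≤ b := Real.rpow_nonneg h0 _
      have hba : b ≤ a := Real.rpow_le_rpow h0 (by linarith) (by norm_num)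
      have ha4 : a ^ 4 = (S : ℝ) + 1 := by
        rw [ha, ← Real.rpow_natCast, ← Real.rpow_mul h1.le]
        norm_num
      have hb4 : b ^ 4 = (S : ℝ) := by
        rw [hb, ← Real.rpow_natCast, ← Real.rpow_mul h0]
        norm_num
      have hm : ((S : ℝ) + 1) ^ (-(3 / 4) : ℝ) = 1 / a ^ 3 := by
        rw [ha, ← Real.rpow_natCast, ← Real.rpow_mul h1.le, Real.rpow_neg h1.le, one_div]
        norm_num
      have hkey : 1 / a ^ 3 ≤ 4 * (a - b) := by
        rw [div_le_iff₀ (by positivity)]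
        have h2 : b * a ^ 2 ≤ a ^ 3 := by nlinarith [sq_nonneg a]
        have h3 : b ^ 2 * a ≤ a ^ 3 := by nlinarith [mul_nonneg hb0 (sub_nonneg.2 hba), sq_nonneg a, mul_nonneg (mul_nonneg hb0 ha0.le) (sub_nonneg.2 hba)]
        have h4 : b ^ 3 ≤ a ^ 3 := pow_le_pow_left₀ hb0 hba 3
        have h5 : (a - b) * (a ^ 3 + a ^ 2 * b + a * b ^ 2 + b ^ 3) = 1 := by
          have : (a - b) * (a ^ 3 + a ^ 2 * b + a * b ^ 2 + b ^ 3) = a ^ 4 - b ^ 4 := by ring
          rw [this, ha4, hb4]; ring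
        have h6 : a ^ 3 + a ^ 2 * b + a * b ^ 2 + b ^ 3 ≤ 4 * a ^ 3 := by nlinarith
        calc (1 : ℝ) = (a - b) * (a ^ 3 + a ^ 2 * b + a * b ^ 2 + b ^ 3) := h5.symm
          _ ≤ (a - b) * (4 * a ^ 3) := mul_le_mul_of_nonneg_left h6 (by linarith)
          _ = 4 * (a - b) * a ^ 3 := by ring
      push_cast
      rw [hm]
      have : ((S : ℝ) + 1) ^ (1 / 4 : ℝ) = a := rfl
      linarith

variable {u lam al l : ℕ → ℝ}

/-- Abel summation of the differences of the potential -/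
lemma abel (u : ℕ → ℝ) (J : ℕ) : ∑ j ∈ Ico 1 (J + 1), (j : ℝ) * (u (j - 1) - u j) = ∑ j ∈ range J, u j - J * u J := by
  induction J with
  | zero => simp
  | succ J ih =>
      rw [sum_Ico_succ_top (by omega), ih, sum_range_succ]
      have : J + 1 - 1 = J := by omega
      rw [this]
      push_cast
      ring

lemma tele (u : ℕ → ℝ) (J : ℕ) : ∑ j ∈ Ico 1 (J + 1), (u (j - 1) - u j) = u 0 - u J := by
  induction J with
  | zero => simp
  | succ J ih =>
      rw [sum_Ico_succ_top (by omega), ih]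
      have : J + 1 - 1 = J := by omega
      rw [this]
      ring

/-- first moments of the steps -/
lemma first_moment {C : ℝ} (hC : 0 ≤ C)
    (ht : ∀ n m : ℕ, 1 ≤ n → ∑ k ∈ Ico n m, lam k ≤ C * (n : ℝ) ^ (-(3 / 4) : ℝ)) (S : ℕ) :
    ∑ i ∈ Ico 1 S, (i : ℝ) * lam i ≤ 4 * C * (S : ℝ) ^ (1 / 4 : ℝ) := by
  have h1 : ∑ i ∈ Ico 1 S, (i : ℝ) * lam i = ∑ r ∈ range S, ∑ i ∈ Ico (r + 1) S, lam i := by
    induction S with
    | zero => simp
    | succ S ih =>
        rcases Nat.eq_zero_or_pos S with rfl | hS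
        · simp
        · rw [sum_Ico_succ_top (by omega), ih, sum_range_succ]
          have h2 : ∑ r ∈ range S, ∑ i ∈ Ico (r + 1) (S + 1), lam i =
              ∑ r ∈ range S, (∑ i ∈ Ico (r + 1) S, lam i + lam S) := by
            refine sum_congr rfl fun r hr => ?_
            rw [sum_Ico_succ_top]
            have := mem_range.1 hr
            omega
          rw [h2, sum_add_distrib, sum_const, card_range]
          simp
  rw [h1]
  calc ∑ r ∈ range S, ∑ i ∈ Ico (r + 1) S, lam i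
      ≤ ∑ r ∈ range S, C * ((r : ℝ) + 1) ^ (-(3 / 4) : ℝ) := by
        refine sum_le_sum fun r _ => ?_
        have := ht (r + 1) S (by omega)
        push_cast at this
        exact this
    _ = C * ∑ r ∈ range S, ((r : ℝ) + 1) ^ (-(3 / 4) : ℝ) := by rw [mul_sum]
    _ ≤ C * (4 * (S : ℝ) ^ (1 / 4 : ℝ)) := mul_le_mul_of_nonneg_left (sum_quarter S) hC
    _ = _ := by ring

/-- the second part of the renewal equation on a window -/
lemma far_part {C M : ℝ} (hC : 0 ≤ C) (hM : 0 ≤ M) (hl : ∀ k, 0 ≤ lam k) (ha : ∀ k, 0 ≤ al k)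
    (ht : ∀ n m : ℕ, 1 ≤ n → ∑ k ∈ Ico n m, lam k ≤ C * (n : ℝ) ^ (-(3 / 4) : ℝ))
    (h1 : ∀ m : ℕ, ∑ k ∈ Ico 1 m, lam k ≤ 1)
    {x S J : ℕ} (hS : 1 ≤ S) (hx : 2 * S + 2 * J + 2 ≤ x)
    (hb : ∀ k : ℕ, J < k → k < x + S → al k ≤ M) :
    ∑ k ∈ Ico x (x + S), ∑ j ∈ Ico (J + 1) k, al j * lam (k - j) - ∑ k ∈ Ico x (x + S), al k ≤
      5 * C * M * (S : ℝ) ^ (1 / 4 : ℝ) := by
  -- substitute i = k - j
  have e1 : ∀ k ∈ Ico x (x + S), ∑ j ∈ Ico (J + 1) k, al j * lam (k - j) =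
      ∑ i ∈ Ico 1 S, lam i * al (k - i) + ∑ i ∈ Ico S (k - J), lam i * al (k - i) := by
    intro k hk
    rw [mem_Ico] at hk
    rw [sum_Ico_consecutive _ (by omega) (by omega)]
    refine sum_nbij' (fun j => k - j) (fun i => k - i) ?_ ?_ ?_ ?_ ?_
    · intro j hj
      rw [mem_Ico] at hj ⊢
      omega
    · intro i hi
      rw [mem_Ico] at hi ⊢
      omega
    · intro j hj
      rw [mem_Ico] at hj
      show k - (k - j) = j
      omega
    · intro i hi
      rw [mem_Ico] at hi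
      show k - (k - i) = i
      omega
    · intro j hj
      rw [mem_Ico] at hj
      have : k - (k - j) = j := by omega
      rw [this]; ring
  rw [sum_congr rfl e1, sum_add_distrib]
  have hSr : (1 : ℝ) ≤ S := by exact_mod_cast hS
  have hS0 : (0 : ℝ) < S := by linarith
  -- the far steps
  have e2 : ∑ k ∈ Ico x (x + S), ∑ i ∈ Ico S (k - J), lam i * al (k - i) ≤ C * M * (S : ℝ) ^ (1 / 4 : ℝ) := by
    calc ∑ k ∈ Ico x (x + S), ∑ i ∈ Ico S (k - J), lam i * al (k - i)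
        ≤ ∑ k ∈ Ico x (x + S), M * (C * (S : ℝ) ^ (-(3 / 4) : ℝ)) := by
          refine sum_le_sum fun k hk => ?_
          rw [mem_Ico] at hk
          calc ∑ i ∈ Ico S (k - J), lam i * al (k - i) ≤ ∑ i ∈ Ico S (k - J), M * lam i := by
                refine sum_le_sum fun i hi => ?_
                rw [mem_Ico] at hi
                have := hb (k - i) (by omega) (by omega)
                have := hl i
                nlinarith
            _ = M * ∑ i ∈ Ico S (k - J), lam i := by rw [mul_sum]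
            _ ≤ _ := mul_le_mul_of_nonneg_left (ht S _ hS) hM
      _ = (S : ℝ) * (M * (C * (S : ℝ) ^ (-(3 / 4) : ℝ))) := by
          rw [sum_const, Nat.card_Ico]
          simp
      _ = C * M * ((S : ℝ) ^ (1 : ℝ) * (S : ℝ) ^ (-(3 / 4) : ℝ)) := by rw [Real.rpow_one]; ring
      _ = _ := by
          rw [← Real.rpow_add hS0]
          norm_num
  -- the near steps
  have e3 : ∑ k ∈ Ico x (x + S), ∑ i ∈ Ico 1 S, lam i * al (k - i) =
      ∑ i ∈ Ico 1 S, lam i * ∑ k ∈ Ico x (x + S), al (k - i) := by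
    rw [sum_comm]
    exact sum_congr rfl fun i _ => by rw [mul_sum]
  have hA0 : 0 ≤ ∑ k ∈ Ico x (x + S), al k := sum_nonneg fun k _ => ha k
  have e4 : ∀ i ∈ Ico 1 S, ∑ k ∈ Ico x (x + S), al (k - i) ≤ (i : ℝ) * M + ∑ k ∈ Ico x (x + S), al k := by
    intro i hi
    rw [mem_Ico] at hi
    have h2 : ∑ k ∈ Ico x (x + S), al (k - i) = ∑ k ∈ Ico (x - i) (x + S - i), al k := by
      refine sum_nbij' (fun k => k - i) (fun k => k + i) ?_ ?_ ?_ ?_ ?_
      · intro j hj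
        rw [mem_Ico] at hj ⊢
        omega
      · intro j hj
        rw [mem_Ico] at hj ⊢
        omega
      · intro j hj
        rw [mem_Ico] at hj
        show j - i + i = j
        omega
      · intro j hj
        show j + i - i = j
        omega
      · intro j _
        rfl
    have h3 : ∑ k ∈ Ico (x - i) (x + S - i), al k ≤ ∑ k ∈ Ico (x - i) (x + S), al k :=
      sum_le_sum_of_subset_of_nonneg (Ico_subset_Ico le_rfl (by omega)) fun k _ _ => ha k
    have h4 : ∑ k ∈ Ico (x - i) (x + S), al k = ∑ k ∈ Ico (x - i) x, al k + ∑ k ∈ Ico x (x + S), al k :=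
      (sum_Ico_consecutive _ (by omega) (by omega)).symm
    have h5 : ∑ k ∈ Ico (x - i) x, al k ≤ (i : ℝ) * M := by
      calc ∑ k ∈ Ico (x - i) x, al k ≤ ∑ _k ∈ Ico (x - i) x, M := by
            refine sum_le_sum fun k hk => ?_
            rw [mem_Ico] at hk
            exact hb k (by omega) (by omega)
        _ = (i : ℝ) * M := by
            rw [sum_const, Nat.card_Ico]
            have : x - (x - i) = i := by omega
            rw [this]
            simp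
    rw [h2]
    linarith
  have e5 : ∑ i ∈ Ico 1 S, lam i * ∑ k ∈ Ico x (x + S), al (k - i) ≤
      M * ∑ i ∈ Ico 1 S, (i : ℝ) * lam i + (∑ i ∈ Ico 1 S, lam i) * ∑ k ∈ Ico x (x + S), al k := by
    rw [mul_sum, sum_mul, ← sum_add_distrib]
    refine sum_le_sum fun i hi => ?_
    have := mul_le_mul_of_nonneg_left (e4 i hi) (hl i)
    linarith
  have e6 := first_moment hC ht S
  have e7 : (∑ i ∈ Ico 1 S, lam i) * ∑ k ∈ Ico x (x + S), al k ≤ 1 * ∑ k ∈ Ico x (x + S), al k :=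
    mul_le_mul_of_nonneg_right (h1 S) hA0
  have e8 := mul_le_mul_of_nonneg_left e6 hM
  rw [e3]
  have : M * (4 * C * (S : ℝ) ^ (1 / 4 : ℝ)) + C * M * (S : ℝ) ^ (1 / 4 : ℝ) = 5 * C * M * (S : ℝ) ^ (1 / 4 : ℝ) := by ring
  linarith

/-- LOCAL BOUND: windows of the law of the steps -/
theorem window {u lam al l : ℕ → ℝ} {c0 C1 C2 C3 : ℝ} (hc0 : 0 < c0) (_hC1 : 0 < C1) (hC2 : 0 < C2) (hC3 : 0 < C3)
    (u0 : u 0 = 1) (un : ∀ n, 0 ≤ u n)
    (hal : ∀ k, 1 ≤ k → al k = u (k - 1) - u k) (ha : ∀ k, 0 ≤ al k)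
    (hlow : ∀ J : ℕ, 1 ≤ J → c0 * (J : ℝ) ^ (-(1 / 4) : ℝ) ≤ u J)
    (hup : ∀ J : ℕ, 1 ≤ J → ∑ j ∈ range J, u j ≤ C1 * (J : ℝ) ^ (3 / 4 : ℝ))
    (hl : ∀ k, 0 ≤ lam k)
    (ht : ∀ n m : ℕ, 1 ≤ n → ∑ k ∈ Ico n m, lam k ≤ C2 * (n : ℝ) ^ (-(3 / 4) : ℝ))
    (h1 : ∀ m : ℕ, ∑ k ∈ Ico 1 m, lam k ≤ 1)
    (l1 : ∀ n, 1 ≤ l n) (lm : ∀ m n, m ≤ n → l m ≤ l n)
    (hb : ∀ k : ℕ, 1 ≤ k → al k ≤ C3 * l k * (k : ℝ) ^ (-(5 / 4) : ℝ))
    (hren : ∀ k : ℕ, 2 ≤ k → lam k + al k = ∑ j ∈ Ico 1 k, al j * lam (k - j)) :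
    ∃ A : ℝ, 0 < A ∧ ∀ x S : ℕ, 1 ≤ S → S ≤ x →
      ∑ k ∈ Ico x (x + S), lam k ≤ A * l (2 * x) * ((S : ℝ) ^ (1 / 4 : ℝ) / x) := by
  obtain ⟨N, hN⟩ : ∃ N : ℕ, max 16 (4 * C1 / c0) ≤ N := exists_nat_ge _
  have hN16 : 16 ≤ N := by exact_mod_cast (le_max_left _ _).trans hN
  have hNr : (16 : ℝ) ≤ N := by exact_mod_cast hN16
  have hNc : 4 * C1 ≤ c0 * N := by
    have := (le_max_right (16 : ℝ) _).trans hN
    rw [div_le_iff₀ hc0] at this
    linarith
  set K : ℝ := 5 * C2 * (C3 * (2 * N) ^ (5 / 4 : ℝ)) with hK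
  have hK0 : 0 < K := by positivity
  set A : ℝ := max N (max (2 * C2) (K / c0)) with hA
  have hAN : (N : ℝ) ≤ A := le_max_left _ _
  have hA2 : 2 * C2 ≤ A := (le_max_left _ _).trans (le_max_right _ _)
  have hAK : K ≤ A * c0 := by
    have := (le_max_right (2 * C2) (K / c0)).trans (le_max_right (N : ℝ) _)
    rw [div_le_iff₀ hc0] at this
    exact this
  have hA0 : 0 < A := by linarith
  refine ⟨A, hA0, fun x => ?_⟩
  induction x using Nat.strong_induction_on with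
  | _ x ih =>
  intro S hS hSx
  have hS1 : (1 : ℝ) ≤ S := by exact_mod_cast hS
  have hx1 : 1 ≤ x := hS.trans hSx
  have hxr : (1 : ℝ) ≤ x := by exact_mod_cast hx1
  have hx0 : (0 : ℝ) < x := by linarith
  have hl2 := l1 (2 * x)
  have hs4 : 1 ≤ (S : ℝ) ^ (1 / 4 : ℝ) := Real.one_le_rpow hS1 (by norm_num)
  by_cases hz : x < N
  · -- small x
    have h2 : ∑ k ∈ Ico x (x + S), lam k ≤ 1 :=
      (sum_le_sum_of_subset_of_nonneg (Ico_subset_Ico (by omega) le_rfl) fun k _ _ => hl k).trans (h1 (x + S))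
    have hzr : (x : ℝ) ≤ N := by exact_mod_cast hz.le
    refine h2.trans ?_
    rw [← mul_div_assoc, le_div_iff₀ hx0, one_mul]
    calc (x : ℝ) ≤ A := hzr.trans hAN
      _ = A * 1 * 1 := by ring
      _ ≤ A * l (2 * x) * (S : ℝ) ^ (1 / 4 : ℝ) :=
          mul_le_mul (mul_le_mul_of_nonneg_left hl2 hA0.le) hs4 zero_le_one (by positivity)
  rw [not_lt] at hz
  by_cases hy : x < 16 * S
  · -- wide windows
    refine (ht x (x + S) hx1).trans ?_
    have hyr : (x : ℝ) ≤ 16 * S := by exact_mod_cast hy.le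
    have h2 : (x : ℝ) ^ (1 / 4 : ℝ) ≤ 2 * (S : ℝ) ^ (1 / 4 : ℝ) := by
      calc (x : ℝ) ^ (1 / 4 : ℝ) ≤ (16 * S) ^ (1 / 4 : ℝ) := Real.rpow_le_rpow hx0.le hyr (by norm_num)
        _ = 2 * (S : ℝ) ^ (1 / 4 : ℝ) := by
            rw [Real.mul_rpow (by norm_num) (by linarith)]
            have : (16 : ℝ) ^ (1 / 4 : ℝ) = 2 := by
              rw [show (16 : ℝ) = 2 ^ (4 : ℝ) by norm_num, ← Real.rpow_mul (by norm_num)]
              norm_num
            rw [this]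
    have h3 : (x : ℝ) ^ (-(3 / 4) : ℝ) = (x : ℝ) ^ (1 / 4 : ℝ) / x := by
      rw [eq_div_iff hx0.ne']
      nth_rewrite 2 [← Real.rpow_one (x : ℝ)]
      rw [← Real.rpow_add hx0]
      norm_num
    rw [h3]
    calc C2 * ((x : ℝ) ^ (1 / 4 : ℝ) / x) ≤ C2 * ((2 * (S : ℝ) ^ (1 / 4 : ℝ)) / x) :=
          mul_le_mul_of_nonneg_left (div_le_div_of_nonneg_right h2 hx0.le) hC2.le
      _ = (2 * C2) * 1 * ((S : ℝ) ^ (1 / 4 : ℝ) / x) := by ring
      _ ≤ A * l (2 * x) * ((S : ℝ) ^ (1 / 4 : ℝ) / x) :=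
          mul_le_mul_of_nonneg_right (mul_le_mul hA2 hl2 zero_le_one hA0.le) (by positivity)
  rw [not_lt] at hy
  -- the main case
  obtain ⟨J, hJ⟩ : ∃ J, J = x / N := ⟨_, rfl⟩
  have hJx : J * N ≤ x := by rw [hJ]; exact Nat.div_mul_le_self x N
  have hJ1 : 1 ≤ J := by
    rw [hJ]
    exact (Nat.one_le_div_iff (by omega)).2 hz
  have hJlow : x ≤ 2 * (J * N) := by
    have := Nat.lt_div_mul_add (a := x) (b := N) (by omega)
    rw [← hJ] at this
    nlinarith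
  have hJ16 : 16 * J ≤ x := by nlinarith
  have hJr : (1 : ℝ) ≤ J := by exact_mod_cast hJ1
  have hJ0 : (0 : ℝ) < J := by linarith
  have hJxr : (J : ℝ) * N ≤ x := by exact_mod_cast hJx
  have hJlr : (x : ℝ) ≤ 2 * (J * N) := by exact_mod_cast hJlow
  have hx2 : 2 * S + 2 * J + 2 ≤ x := by omega
  -- the second part
  set M : ℝ := C3 * l (2 * x) * (J : ℝ) ^ (-(5 / 4) : ℝ) with hM
  have hM0 : 0 ≤ M := by positivity
  have hbM : ∀ k : ℕ, J < k → k < x + S → al k ≤ M := by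
    intro k hk hk2
    refine (hb k (by omega)).trans ?_
    have h2 : l k ≤ l (2 * x) := lm _ _ (by omega)
    have h3 : (k : ℝ) ^ (-(5 / 4) : ℝ) ≤ (J : ℝ) ^ (-(5 / 4) : ℝ) :=
      Real.rpow_le_rpow_of_nonpos hJ0 (by exact_mod_cast hk.le) (by norm_num)
    exact mul_le_mul (mul_le_mul_of_nonneg_left h2 hC3.le) h3 (Real.rpow_nonneg (Nat.cast_nonneg _) _) (by positivity)
  have hfar := far_part hC2.le hM0 hl ha ht h1 hS hx2 hbM
  have hMx : M ≤ (C3 * (2 * N) ^ (5 / 4 : ℝ)) * l (2 * x) * (x : ℝ) ^ (-(5 / 4) : ℝ) := by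
    have h2 : (J : ℝ) ^ (-(5 / 4) : ℝ) ≤ (x / (2 * N)) ^ (-(5 / 4) : ℝ) := by
      refine Real.rpow_le_rpow_of_nonpos (by positivity) ?_ (by norm_num)
      rw [div_le_iff₀ (by positivity)]
      linarith
    have h3 : (x / (2 * N) : ℝ) ^ (-(5 / 4) : ℝ) = (x : ℝ) ^ (-(5 / 4) : ℝ) * (2 * N) ^ (5 / 4 : ℝ) := by
      rw [Real.div_rpow hx0.le (by positivity), Real.rpow_neg (by positivity : (0 : ℝ) ≤ 2 * N)]
      field_simp
    rw [h3] at h2
    calc M ≤ C3 * l (2 * x) * ((x : ℝ) ^ (-(5 / 4) : ℝ) * (2 * N) ^ (5 / 4 : ℝ)) :=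
          mul_le_mul_of_nonneg_left h2 (by positivity)
      _ = _ := by ring
  have hsec : 5 * C2 * M * (S : ℝ) ^ (1 / 4 : ℝ) ≤
      K * l (2 * x) * (x : ℝ) ^ (-(1 / 4) : ℝ) * ((S : ℝ) ^ (1 / 4 : ℝ) / x) := by
    have h3 : (x : ℝ) ^ (-(5 / 4) : ℝ) = (x : ℝ) ^ (-(1 / 4) : ℝ) / x := by
      rw [eq_div_iff hx0.ne']
      nth_rewrite 2 [← Real.rpow_one (x : ℝ)]
      rw [← Real.rpow_add hx0]
      norm_num
    rw [h3] at hMx
    calc 5 * C2 * M * (S : ℝ) ^ (1 / 4 : ℝ)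
        ≤ 5 * C2 * ((C3 * (2 * N) ^ (5 / 4 : ℝ)) * l (2 * x) * ((x : ℝ) ^ (-(1 / 4) : ℝ) / x)) * (S : ℝ) ^ (1 / 4 : ℝ) := by
          refine mul_le_mul_of_nonneg_right (mul_le_mul_of_nonneg_left hMx (by positivity)) (by positivity)
      _ = _ := by rw [hK]; ring
  -- the first part
  have hfirst : ∑ k ∈ Ico x (x + S), ∑ j ∈ Ico 1 (J + 1), al j * lam (k - j) ≤
      A * l (2 * x) * ((S : ℝ) ^ (1 / 4 : ℝ) / x) * (1 - c0 * (x : ℝ) ^ (-(1 / 4) : ℝ)) := by
    have e1 : ∑ k ∈ Ico x (x + S), ∑ j ∈ Ico 1 (J + 1), al j * lam (k - j) =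
        ∑ j ∈ Ico 1 (J + 1), al j * ∑ k ∈ Ico x (x + S), lam (k - j) := by
      rw [sum_comm]
      exact sum_congr rfl fun i _ => by rw [mul_sum]
    have e2 : ∀ j ∈ Ico 1 (J + 1), al j * ∑ k ∈ Ico x (x + S), lam (k - j) ≤
        A * l (2 * x) * ((S : ℝ) ^ (1 / 4 : ℝ) / x) * ((u (j - 1) - u j) + 2 / x * ((j : ℝ) * (u (j - 1) - u j))) := by
      intro j hj
      rw [mem_Ico] at hj
      have h2 : ∑ k ∈ Ico x (x + S), lam (k - j) = ∑ k ∈ Ico (x - j) (x - j + S), lam k := by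
        refine sum_nbij' (fun k => k - j) (fun k => k + j) ?_ ?_ ?_ ?_ ?_
        · intro i hi
          rw [mem_Ico] at hi ⊢
          omega
        · intro i hi
          rw [mem_Ico] at hi ⊢
          omega
        · intro i hi
          rw [mem_Ico] at hi
          show i - j + j = i
          omega
        · intro i hi
          show i + j - j = i
          omega
        · intro i _
          rfl
      have h3 := ih (x - j) (by omega) S hS (by omega)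
      have hjx : (j : ℝ) ≤ x / 2 := by
        have : 2 * j ≤ x := by omega
        have : (2 : ℝ) * j ≤ x := by exact_mod_cast this
        linarith
      have hj0 : (0 : ℝ) ≤ j := Nat.cast_nonneg _
      have h4 : ((x - j : ℕ) : ℝ) = (x : ℝ) - j := by
        rw [Nat.cast_sub (by omega)]
      have h5 : (S : ℝ) ^ (1 / 4 : ℝ) / ((x - j : ℕ) : ℝ) ≤ ((S : ℝ) ^ (1 / 4 : ℝ) / x) * (1 + 2 / x * j) := by
        rw [h4, div_le_iff₀ (by linarith)]
        have h6 : 1 ≤ (1 / (x : ℝ)) * (1 + 2 / x * j) * (x - j) := by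
          have h7 : (1 / (x : ℝ)) * (1 + 2 / x * j) * (x - j) = 1 + j * (x - 2 * j) / x ^ 2 := by
            field_simp
            ring
          rw [h7]
          have : 0 ≤ j * (x - 2 * j) / (x : ℝ) ^ 2 := by
            have : 0 ≤ (x : ℝ) - 2 * j := by linarith
            positivity
          linarith
        calc (S : ℝ) ^ (1 / 4 : ℝ) = (S : ℝ) ^ (1 / 4 : ℝ) * 1 := by ring
          _ ≤ (S : ℝ) ^ (1 / 4 : ℝ) * ((1 / (x : ℝ)) * (1 + 2 / x * j) * (x - j)) :=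
              mul_le_mul_of_nonneg_left h6 (by positivity)
          _ = _ := by ring
      have h8 : l (2 * (x - j)) ≤ l (2 * x) := lm _ _ (by omega)
      have hl0 : 0 ≤ l (2 * (x - j)) := zero_le_one.trans (l1 _)
      have h9 : ∑ k ∈ Ico (x - j) (x - j + S), lam k ≤
          A * l (2 * x) * (((S : ℝ) ^ (1 / 4 : ℝ) / x) * (1 + 2 / x * j)) :=
        h3.trans (mul_le_mul (mul_le_mul_of_nonneg_left h8 hA0.le) h5 (by positivity) (by positivity))
      rw [h2]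
      calc al j * ∑ k ∈ Ico (x - j) (x - j + S), lam k
          ≤ al j * (A * l (2 * x) * (((S : ℝ) ^ (1 / 4 : ℝ) / x) * (1 + 2 / x * j))) :=
            mul_le_mul_of_nonneg_left h9 (ha j)
        _ = _ := by rw [hal j hj.1]; ring
    rw [e1]
    refine (sum_le_sum e2).trans ?_
    rw [← mul_sum, sum_add_distrib, ← mul_sum, tele, abel, u0]
    refine mul_le_mul_of_nonneg_left ?_ (by positivity)
    have h2 := hlow J hJ1
    have h3 := hup J hJ1
    have h4 : 0 ≤ (J : ℝ) * u J := mul_nonneg hJ0.le (un J)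
    have h5 : 2 / (x : ℝ) * (∑ j ∈ range J, u j - J * u J) ≤ 2 / x * (C1 * (J : ℝ) ^ (3 / 4 : ℝ)) :=
      mul_le_mul_of_nonneg_left (by linarith) (by positivity)
    have h6 : (J : ℝ) ^ (3 / 4 : ℝ) = J * (J : ℝ) ^ (-(1 / 4) : ℝ) := by
      nth_rewrite 2 [← Real.rpow_one (J : ℝ)]
      rw [← Real.rpow_add hJ0]
      norm_num
    set p : ℝ := (J : ℝ) ^ (-(1 / 4) : ℝ) with hp
    have hp0 : 0 < p := Real.rpow_pos_of_pos hJ0 _
    have h7 : 2 / (x : ℝ) * (C1 * (J : ℝ) ^ (3 / 4 : ℝ)) ≤ c0 / 2 * p := by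
      rw [h6]
      have h8 : 2 / (x : ℝ) * (C1 * J) ≤ c0 / 2 := by
        rw [div_mul_eq_mul_div, div_le_iff₀ hx0]
        have : 4 * C1 * J ≤ c0 * (J * N) := by nlinarith
        nlinarith
      calc 2 / (x : ℝ) * (C1 * (J * p)) = (2 / (x : ℝ) * (C1 * J)) * p := by ring
        _ ≤ _ := mul_le_mul_of_nonneg_right h8 hp0.le
    have h9 : 2 * (x : ℝ) ^ (-(1 / 4) : ℝ) ≤ p := by
      have h10 : (16 : ℝ) * J ≤ x := by exact_mod_cast hJ16
      have h11 : (x : ℝ) ^ (-(1 / 4) : ℝ) ≤ (16 * J : ℝ) ^ (-(1 / 4) : ℝ) :=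
        Real.rpow_le_rpow_of_nonpos (by positivity) h10 (by norm_num)
      rw [Real.mul_rpow (by norm_num) hJ0.le] at h11
      have h12 : (16 : ℝ) ^ (-(1 / 4) : ℝ) = 1 / 2 := by
        rw [show (16 : ℝ) = 2 ^ (4 : ℝ) by norm_num, ← Real.rpow_mul (by norm_num)]
        rw [show (4 : ℝ) * -(1 / 4) = -1 by norm_num, Real.rpow_neg_one]
        norm_num
      rw [h12] at h11
      linarith
    nlinarith
  -- the renewal equation
  have hmain : ∑ k ∈ Ico x (x + S), lam k =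
      ∑ k ∈ Ico x (x + S), ∑ j ∈ Ico 1 (J + 1), al j * lam (k - j) +
      (∑ k ∈ Ico x (x + S), ∑ j ∈ Ico (J + 1) k, al j * lam (k - j) - ∑ k ∈ Ico x (x + S), al k) := by
    have e1 : ∀ k ∈ Ico x (x + S), lam k = ∑ j ∈ Ico 1 (J + 1), al j * lam (k - j) +
        ∑ j ∈ Ico (J + 1) k, al j * lam (k - j) - al k := by
      intro k hk
      rw [mem_Ico] at hk
      rw [sum_Ico_consecutive _ (by omega) (by omega), ← hren k (by omega)]
      ring
    rw [sum_congr rfl e1, sum_sub_distrib, sum_add_distrib]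
    ring
  rw [hmain]
  have hfin : A * l (2 * x) * ((S : ℝ) ^ (1 / 4 : ℝ) / x) * (1 - c0 * (x : ℝ) ^ (-(1 / 4) : ℝ)) +
      K * l (2 * x) * (x : ℝ) ^ (-(1 / 4) : ℝ) * ((S : ℝ) ^ (1 / 4 : ℝ) / x) ≤
      A * l (2 * x) * ((S : ℝ) ^ (1 / 4 : ℝ) / x) := by
    have h2 : 0 ≤ l (2 * x) * (x : ℝ) ^ (-(1 / 4) : ℝ) * ((S : ℝ) ^ (1 / 4 : ℝ) / x) := by positivity
    have h3 := mul_le_mul_of_nonneg_right hAK h2
    nlinarith
  linarith

end Lam

end GLow

end HexObs
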