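import Pool.Agent.HexStep.Main
import Pool.Agent.PHW.GG
import Pool.Agent.EXL.Final
import Pool.Agent.BAR.Upper
import Pool.Agent.GLow.Lam

/-!
GLow (GLINK, GLb): the differences of the bridge weights and the law of the heights of the irreducible bridges.

* `alpha_le`: `uu (k - 1) - uu k <= C k ^ (-5 / 4)` (no logarithm);
* `uu_up`, `uu_low`, `UU_up`, `UU_low`: two-sided bounds `k ^ (-1 / 4)` and `k ^ (3 / 4)`;
* `window_kk`: the irreducible bridges with heights in a window of length `S <= x` at `x` weigh at most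
  `A S ^ (1 / 4) / x`; `kk_pt`: `kk k <= A / k`.
-/

set_option autoImplicit false

namespace HexObs

namespace GLow

open Finset

/-- the pairs of the step domain are disjoint pairs of bridges -/
theorem PP_le_gg (T : ℕ) : SP.PP T 0 1 ≤ gg (T + 1) (T + 1) := by
  rw [← SP.ArcCut.PR_sum]
  unfold gg
  refine ENNReal.tsum_mono_subtype (fun p : List Bool × List Bool => wE p.1 * wE p.2) ?_
  rintro ⟨s, t⟩ ⟨h1, h2⟩
  have hs : s ∈ Br (St (T + 1)) ∅ (foot oo up 0) up := h1.1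
  have ht : t ∈ Br (St (T + 1)) (vis (foot oo up 0) up s) (foot oo up 1) up := h2.1
  rw [GGaux.br_foot] at hs
  rw [mem_br, GGaux.br_foot] at ht
  exact ⟨hs, ht.1, ht.2⟩

theorem gg_ne_top (a b : ℕ) : gg a b ≠ ⊤ :=
  ne_top_of_le_ne_top (ENNReal.mul_ne_top (CuLogAux.bt_ne_top a) (CuLogAux.bt_ne_top b)) (CuLogAux.gg_le_mul a b)

theorem uu_up : ∃ C : ℝ, 0 < C ∧ ∀ k : ℕ, 1 ≤ k → uu k ≤ C * (k : ℝ) ^ (-(1 / 4) : ℝ) := by
  obtain ⟨C, hC, h⟩ := Pool.Agent.EXL.bridge_exponent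
  exact ⟨C, hC, fun k hk => (h k hk).2⟩

theorem uu_low : ∃ c : ℝ, 0 < c ∧ ∀ k : ℕ, 1 ≤ k → c * (k : ℝ) ^ (-(1 / 4) : ℝ) ≤ uu k := by
  obtain ⟨C, hC, h⟩ := Pool.Agent.EXL.bridge_exponent
  refine ⟨1 / C, by positivity, fun k hk => ?_⟩
  have h1 := (h k hk).1
  rw [one_div, inv_mul_eq_div]
  exact h1

private theorem pow_split {k : ℕ} (hk : 1 ≤ k) : (k : ℝ) ^ (3 / 4 : ℝ) = k * (k : ℝ) ^ (-(1 / 4) : ℝ) := by
  have hk0 : (0 : ℝ) < k := by exact_mod_cast hk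
  nth_rewrite 2 [← Real.rpow_one (k : ℝ)]
  rw [← Real.rpow_add hk0]
  norm_num

theorem UU_low : ∃ c : ℝ, 0 < c ∧ ∀ k : ℕ, 1 ≤ k → c * (k : ℝ) ^ (3 / 4 : ℝ) ≤ UU k := by
  obtain ⟨c, hc, h⟩ := uu_low
  refine ⟨c, hc, fun k hk => ?_⟩
  have h1 := Num2Aux.mul_le_UU k
  have h2 := h k hk
  have hk0 : (0 : ℝ) < k := by exact_mod_cast hk
  calc c * (k : ℝ) ^ (3 / 4 : ℝ) = k * (c * (k : ℝ) ^ (-(1 / 4) : ℝ)) := by rw [pow_split hk]; ring
    _ ≤ k * uu k := mul_le_mul_of_nonneg_left h2 hk0.le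
    _ ≤ UU k := h1

theorem UU_up : ∃ C : ℝ, 0 < C ∧ ∀ k : ℕ, 1 ≤ k → UU k ≤ C * (k : ℝ) ^ (3 / 4 : ℝ) := by
  obtain ⟨C, hC, h⟩ := uu_up
  have hW : 0 < 6 + CW := by
    have := Num2Aux.CW_pos
    linarith
  refine ⟨(6 + CW) * C, by positivity, fun k hk => ?_⟩
  have h1 := UU_le_mul hk
  have h2 := h k hk
  have hk0 : (0 : ℝ) < k := by exact_mod_cast hk
  calc UU k ≤ (6 + CW) * (k * uu k) := h1
    _ ≤ (6 + CW) * (k * (C * (k : ℝ) ^ (-(1 / 4) : ℝ))) :=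
        mul_le_mul_of_nonneg_left (mul_le_mul_of_nonneg_left h2 hk0.le) hW.le
    _ = _ := by rw [pow_split hk]; ring

/-- **The differences of the bridge weights.** -/
theorem alpha_le : ∃ C : ℝ, 0 < C ∧ ∀ k : ℕ, 1 ≤ k → uu (k - 1) - uu k ≤ C * (k : ℝ) ^ (-(5 / 4) : ℝ) := by
  obtain ⟨C0, hC0, h0⟩ := uu_up
  obtain ⟨c1, hc1, h1⟩ := UU_low
  have hs2 : 0 < Real.sqrt 2 := by positivity
  set D : ℝ := Real.sqrt 2 * (2 * (1 + Real.sqrt 2) ^ 3) with hD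
  have hD0 : 0 < D := by positivity
  refine ⟨max 1 (D * (C0 ^ 2 / c1)), lt_of_lt_of_le one_pos (le_max_left _ _), fun k hk => ?_⟩
  rcases Nat.lt_or_ge 1 k with h | h
  · obtain ⟨T, rfl⟩ : ∃ T, k = T + 1 := ⟨k - 1, by omega⟩
    have hT : 1 ≤ T := by omega
    have e1 : uu (T + 1 - 1) = bT T := rfl
    have e2 : uu (T + 1) = bT (T + 1) := rfl
    have h2 := SP.Mn.loss2 hT
    have h3 : (SP.PP T 0 1).toReal ≤ (gg (T + 1) (T + 1)).toReal :=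
      ENNReal.toReal_mono (gg_ne_top _ _) (PP_le_gg T)
    have h4 := gg_top (T + 1) hk
    have h5 := h0 (T + 1) hk
    have h6 := h1 (T + 1) hk
    have hk0 : (0 : ℝ) < ((T + 1 : ℕ) : ℝ) := by exact_mod_cast hk
    have h7 : uu (T + 1) ^ 2 / UU (T + 1) ≤ C0 ^ 2 / c1 * ((T + 1 : ℕ) : ℝ) ^ (-(5 / 4) : ℝ) := by
      have hU : 0 < c1 * ((T + 1 : ℕ) : ℝ) ^ (3 / 4 : ℝ) := by positivity
      have h8 : uu (T + 1) ^ 2 ≤ (C0 * ((T + 1 : ℕ) : ℝ) ^ (-(1 / 4) : ℝ)) ^ 2 :=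
        pow_le_pow_left₀ (Num2Aux.nonneg _) h5 2
      calc uu (T + 1) ^ 2 / UU (T + 1)
          ≤ (C0 * ((T + 1 : ℕ) : ℝ) ^ (-(1 / 4) : ℝ)) ^ 2 / (c1 * ((T + 1 : ℕ) : ℝ) ^ (3 / 4 : ℝ)) :=
            div_le_div₀ (by positivity) h8 hU h6
        _ = C0 ^ 2 / c1 * ((T + 1 : ℕ) : ℝ) ^ (-(5 / 4) : ℝ) := by
            have e3 : ((T + 1 : ℕ) : ℝ) ^ (-(5 / 4) : ℝ) =
                (((T + 1 : ℕ) : ℝ) ^ (-(1 / 4) : ℝ)) ^ 2 / ((T + 1 : ℕ) : ℝ) ^ (3 / 4 : ℝ) := by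
              rw [← Real.rpow_natCast, ← Real.rpow_mul hk0.le, ← Real.rpow_sub hk0]
              norm_num
            rw [e3]
            field_simp
    rw [e1, e2]
    calc bT T - bT (T + 1) ≤ Real.sqrt 2 * (SP.PP T 0 1).toReal := h2
      _ ≤ Real.sqrt 2 * (2 * (1 + Real.sqrt 2) ^ 3 * (uu (T + 1) ^ 2 / UU (T + 1))) :=
          mul_le_mul_of_nonneg_left (h3.trans h4) hs2.le
      _ ≤ Real.sqrt 2 * (2 * (1 + Real.sqrt 2) ^ 3 * (C0 ^ 2 / c1 * ((T + 1 : ℕ) : ℝ) ^ (-(5 / 4) : ℝ))) := by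
          refine mul_le_mul_of_nonneg_left (mul_le_mul_of_nonneg_left h7 (by positivity)) hs2.le
      _ = D * (C0 ^ 2 / c1) * ((T + 1 : ℕ) : ℝ) ^ (-(5 / 4) : ℝ) := by rw [hD]; ring
      _ ≤ _ := mul_le_mul_of_nonneg_right (le_max_right _ _) (by positivity)
  · have hk1 : k = 1 := by omega
    subst hk1
    have h2 : uu 0 = 1 := Num2Aux.zero
    have h3 := Num2Aux.nonneg 1
    have h4 : (1 : ℝ) ≤ max 1 (D * (C0 ^ 2 / c1)) := le_max_left _ _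
    simp only [Nat.sub_self, Nat.cast_one, Real.one_rpow, mul_one]
    linarith

/-- the renewal equation for the differences -/
theorem alpha_renewal {k : ℕ} (hk : 2 ≤ k) :
    kk k + (uu (k - 1) - uu k) = ∑ j ∈ Ico 1 k, (uu (j - 1) - uu j) * kk (k - j) := by
  have h1 := renewal_real (T := k) (by omega)
  have h2 := renewal_real (T := k - 1) (by omega)
  have e1 : ∑ j ∈ Ico 1 k, uu (j - 1) * kk (k - j) = uu (k - 1) := by
    rw [h2]
    have := Finset.sum_Ico_reflect (fun r => kk r * uu (k - 1 - r)) 1 (m := k) (n := k) (by omega)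
    rw [show k + 1 - k = 1 by omega, show k + 1 - 1 = k by omega] at this
    rw [show Icc 1 (k - 1) = Ico 1 k by ext i; simp only [mem_Icc, mem_Ico]; omega, ← this]
    refine sum_congr rfl fun j hj => ?_
    rw [mem_Ico] at hj
    rw [show k - 1 - (k - j) = j - 1 by omega]
    ring
  have e2 : ∑ j ∈ Ico 1 k, uu j * kk (k - j) = uu k - kk k := by
    have h3 : Icc 1 k = Ico 1 (k + 1) := by ext i; simp only [mem_Icc, mem_Ico]; omega
    rw [h3, sum_Ico_succ_top (by omega)] at h1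
    have h4 : uu (k - k) = 1 := by rw [Nat.sub_self]; exact Num2Aux.zero
    rw [h4, mul_one] at h1
    have := Finset.sum_Ico_reflect (fun r => kk r * uu (k - r)) 1 (m := k) (n := k) (by omega)
    rw [show k + 1 - k = 1 by omega, show k + 1 - 1 = k by omega] at this
    rw [h1, add_sub_cancel_right, ← this]
    refine sum_congr rfl fun j hj => ?_
    rw [mem_Ico] at hj
    rw [show k - (k - j) = j by omega]
    ring
  have e3 : ∑ j ∈ Ico 1 k, (uu (j - 1) - uu j) * kk (k - j) =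
      ∑ j ∈ Ico 1 k, uu (j - 1) * kk (k - j) - ∑ j ∈ Ico 1 k, uu j * kk (k - j) := by
    rw [← sum_sub_distrib]
    exact sum_congr rfl fun j _ => by ring
  rw [e3, e1, e2]
  ring

/-- **Irreducible bridges with heights in a window.** -/
theorem window_kk : ∃ A : ℝ, 0 < A ∧ ∀ x S : ℕ, 1 ≤ S → S ≤ x →
    ∑ k ∈ Ico x (x + S), kk k ≤ A * ((S : ℝ) ^ (1 / 4 : ℝ) / x) := by
  obtain ⟨c0, hc0, h0⟩ := uu_low
  obtain ⟨C1, hC1, h1⟩ := UU_up
  obtain ⟨c2, hc2, h2⟩ := UU_low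
  obtain ⟨C3, hC3, h3⟩ := alpha_le
  have hk1 : ∀ m : ℕ, ∑ k ∈ Ico 1 m, kk k ≤ 1 := by
    intro m
    have h4 := KK_nonneg m
    unfold KK' at h4
    have h5 : ∑ k ∈ Ico 1 m, kk k ≤ ∑ k ∈ range m, kk k := by
      refine sum_le_sum_of_subset_of_nonneg ?_ fun i _ _ => kk_nonneg i
      intro i hi
      rw [mem_Ico] at hi
      rw [mem_range]
      omega
    linarith
  have g1 : ∀ J : ℕ, 1 ≤ J → ∑ j ∈ range J, uu j ≤ C1 * (J : ℝ) ^ (3 / 4 : ℝ) := by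
    intro J hJ
    have h4 : ∑ j ∈ range J, uu j ≤ UU J := by
      unfold UU
      exact sum_le_sum_of_subset_of_nonneg (range_subset_range.2 (by omega)) fun i _ _ => Num2Aux.nonneg i
    exact h4.trans (h1 J hJ)
  have g2 : ∀ n m : ℕ, 1 ≤ n → ∑ k ∈ Ico n m, kk k ≤ 2 / c2 * (n : ℝ) ^ (-(3 / 4) : ℝ) := by
    intro n m hn
    have h4 := BAR.tail_kk n m hn
    have h5 := h2 n hn
    have hn0 : (0 : ℝ) < n := by exact_mod_cast hn
    have h6 : 0 < c2 * (n : ℝ) ^ (3 / 4 : ℝ) := by positivity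
    calc ∑ k ∈ Ico n m, kk k ≤ 2 / UU n := h4
      _ ≤ 2 / (c2 * (n : ℝ) ^ (3 / 4 : ℝ)) := div_le_div_of_nonneg_left (by norm_num) h6 h5
      _ = 2 / c2 * (n : ℝ) ^ (-(3 / 4) : ℝ) := by
          rw [Real.rpow_neg hn0.le]
          field_simp
  have g3 : ∀ k : ℕ, 1 ≤ k → uu (k - 1) - uu k ≤ C3 * 1 * (k : ℝ) ^ (-(5 / 4) : ℝ) := by
    intro k hk
    rw [mul_one]
    exact h3 k hk
  have g4 : ∀ k : ℕ, 0 ≤ uu (k - 1) - uu k := by
    intro k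
    have := Num2Aux.anti (Nat.sub_le k 1)
    linarith
  obtain ⟨A, hA, h⟩ := Lam.window (u := uu) (lam := kk) (al := fun k => uu (k - 1) - uu k) (l := fun _ => 1)
    (c0 := c0) (C1 := C1) (C2 := 2 / c2) (C3 := C3) hc0 hC1 (by positivity) hC3 Num2Aux.zero Num2Aux.nonneg
    (fun k _ => rfl) g4 h0 g1 kk_nonneg g2 hk1 (fun _ => le_rfl) (fun _ _ _ => le_rfl) g3
    (fun k hk => alpha_renewal hk)
  refine ⟨A, hA, fun x S hS hx => ?_⟩
  have h4 := h x S hS hx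
  rwa [mul_one] at h4

/-- pointwise bound -/
theorem kk_pt : ∃ A : ℝ, 0 < A ∧ ∀ k : ℕ, 1 ≤ k → kk k ≤ A / k := by
  obtain ⟨A, hA, h⟩ := window_kk
  refine ⟨A, hA, fun k hk => ?_⟩
  have h1 := h k 1 le_rfl hk
  rw [Nat.Ico_succ_singleton, sum_singleton, Nat.cast_one, Real.one_rpow, mul_one_div] at h1
  exact h1

end GLow

end HexObs
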