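import Pool.Agent.BAR.WBd
import Pool.Agent.BAR.Front
import Pool.Agent.BAR.Dyadic

/-!
GLc: definitions for the walks with prescribed level of the end (board GLINK, block GLc).
-/

set_option autoImplicit false

namespace HexObs

open Complex Finset ENNReal

namespace BAR

/-- critical weight of the walks with an extent of at most m rows that end on the level c -/
noncomputable def TwoL (m : ℕ) (c : ℤ) : ℝ≥0∞ :=
  gf {t | (Saw Set.univ oo up t ∧ Ext m t) ∧ lev t t.length = c}

/-- critical weight of the half plane words of height at most m that end on the level e -/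
noncomputable def HHe (m : ℕ) (e : ℤ) : ℝ≥0∞ := gf {t | t ∈ SSt m ∧ lev t t.length = e}

/-- disjoint pairs of half plane words of height at most m from adjacent feet, difference of the end levels c -/
noncomputable def PPe (m : ℕ) (c : ℤ) : ℝ≥0∞ :=
  g2 (SSt m) (SSt m) fun s t => Dj s t ∧ lev t t.length = lev s s.length + c

/-- weight of the walks of the strip of height m that hang at the end of g and end on the level e below their start -/
noncomputable def GHe (m : ℕ) (e : ℤ) (g : List Bool) : ℝ≥0∞ :=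
  gf {t | (t ∈ SSt m ∧ lev t t.length = e) ∧ Hang g true t} + gf {t | (t ∈ SSt m ∧ lev t t.length = e) ∧ Hang g false t}

/-- Gh with the level of the end -/
noncomputable def Ghe (T : ℕ) (e : ℤ) (h : List Bool) : ℝ≥0∞ :=
  (if e = 0 then 1 else 0) + if T = 0 then 0 else GHe (T - 1) e h

/-- law of the level of the end (block G4): in a dyadic block [v, 2 v] of heights of the bridge the law of the depth
is dominated by one measure F -/
def LawW (C : ℝ) (d : ℕ) (B : ℝ≥0∞) (W : ℤ → ℕ → ℝ≥0∞) : Prop :=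
  ∀ v : ℕ, v ≤ d → ∃ F : ℤ → ℝ≥0∞, (∀ u, v ≤ u → u ≤ 2 * v → ∀ e, W e u ≤ F e) ∧
    ∑' e, F e ≤ ENNReal.ofReal (C * lg v ^ C * (uu v / UU v)) * B

lemma GHe_right (m : ℕ) (e : ℤ) (s t : List Bool) : GHe m e (s ++ t) ≤ GHe m e t := by
  unfold GHe
  refine add_le_add (gf_mono fun w hw => ⟨hw.1, ?_⟩) (gf_mono fun w hw => ⟨hw.1, ?_⟩)
  · have h : Dj (false :: true :: w) (rev (s ++ t)) := hw.2
    rw [rev_append] at h
    exact (HangA.Dj_pref_right h : Dj (false :: true :: w) (rev t))
  · have h : Dj (rev (s ++ t)) (true :: false :: w) := hw.2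
    rw [rev_append] at h
    exact (HangA.Dj_pref_left h : Dj (rev t) (true :: false :: w))

lemma Ghe_right (T : ℕ) (e : ℤ) (s t : List Bool) : Ghe T e (s ++ t) ≤ Ghe T e t := by
  unfold Ghe
  refine add_le_add le_rfl ?_
  split_ifs
  · exact le_rfl
  · exact GHe_right _ e s t

lemma GHe_mono {m n : ℕ} (h : m ≤ n) (e : ℤ) (g : List Bool) : GHe m e g ≤ GHe n e g := by
  unfold GHe
  exact add_le_add (gf_mono fun w hw => ⟨⟨SSt_mono h hw.1.1, hw.1.2⟩, hw.2⟩)
    (gf_mono fun w hw => ⟨⟨SSt_mono h hw.1.1, hw.1.2⟩, hw.2⟩)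

lemma Ghe_mono {T d : ℕ} (h : T ≤ d) (e : ℤ) (g : List Bool) : Ghe T e g ≤ Ghe d e g := by
  unfold Ghe
  refine add_le_add le_rfl ?_
  split_ifs with h1 h2
  · exact le_rfl
  · exact zero_le
  · omega
  · exact GHe_mono (by omega) e g

lemma WB_mono {F G : List Bool → ℝ≥0∞} (h : ∀ t, F t ≤ G t) (u : ℕ) : WB F u ≤ WB G u := by
  unfold WB
  exact ENNReal.tsum_le_tsum fun t => mul_le_mul' le_rfl (h t.1)

/-- the level of the end splits a set of words -/
lemma tsum_lev (A : Set (List Bool)) (φ : List Bool → ℤ) : ∑' e : ℤ, gf {t | t ∈ A ∧ φ t = e} = gf A := by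
  classical
  simp only [gf_ind]
  rw [ENNReal.tsum_comm]
  refine tsum_congr fun t => ?_
  rw [tsum_eq_single (φ t)]
  · simp only [Set.mem_ofPred_eq, and_true]
  · intro e he
    rw [if_neg]
    rintro ⟨_, h⟩
    exact he h.symm

end BAR

end HexObs
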