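import Mathlib.Analysis.SpecialFunctions.Pow.Real
import Mathlib.Algebra.Order.BigOperators.Group.Finset
import Mathlib.Topology.Instances.ENNReal.Lemmas
import Mathlib.Tactic

/-!
GLow: the final chain from the lower bound of the cylinder to the half plane walks, abstract form.

* `W M` : the walks of the cylinder of circumference `2 M` between two opposite points;
* `G R K` : the walks of the plane of extent at most `R` between two points of the same height at distance `K`;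
* `H n` : the half plane walks of height at most `n`.

`low_of_gl` : `W` with the exponent `a` in every window, the lifts (`W` at most `G` at the multiples of `M`) and
`∑_{m ≤ K ≤ R} G R K ≤ R ^ (- b + ε) H (C R) ^ 2` give `H n ≥ n ^ ((1 + a + b) / 2 - ε)`.
-/

set_option autoImplicit false

namespace HexObs

namespace GLow

open Finset

open scoped ENNReal

/-- number of the `M` in `[m, 2 m]` that divide `K` -/
lemma card_div (F : Finset ℕ) {m R K : ℕ} (hm : 1 ≤ m) (hF : ∀ M ∈ F, m ≤ M) (hK : 1 ≤ K) (hKR : K ≤ R) :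
    (F.filter fun M => M ∣ K).card ≤ R / m := by
  have h1 : (F.filter fun M => M ∣ K).card ≤ (Icc 1 (R / m)).card := by
    refine card_le_card_of_injOn (fun M => K / M) ?_ ?_
    · intro M hM
      rw [mem_coe, mem_filter] at hM
      have h2 := hF M hM.1
      rw [mem_coe, mem_Icc]
      refine ⟨(Nat.one_le_div_iff (by omega)).2 (Nat.le_of_dvd (by omega) hM.2), ?_⟩
      calc K / M ≤ K / m := Nat.div_le_div_left h2 (by omega)
        _ ≤ R / m := Nat.div_le_div_right hKR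
    · intro M hM M' hM' he
      rw [mem_coe, mem_filter] at hM hM'
      simp only at he
      have h2 := hF M hM.1
      have e1 := Nat.div_mul_cancel hM.2
      have e2 := Nat.div_mul_cancel hM'.2
      rw [← he] at e2
      have h3 : 0 < K / M := Nat.div_pos (Nat.le_of_dvd (by omega) hM.2) (by omega)
      exact Nat.eq_of_mul_eq_mul_left h3 (e1.trans e2.symm)
  rwa [Nat.card_Icc, Nat.add_sub_cancel] at h1

/-- the double sum over the lifts -/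
lemma lifts_le (G : ℕ → ℝ≥0∞) (F : Finset ℕ) {m R : ℕ} (hm : 1 ≤ m) (hF : ∀ M ∈ F, m ≤ M) :
    ∑ M ∈ F, ∑ K ∈ (Icc 1 R).filter (fun K => M ∣ K), G K ≤ ((R / m : ℕ) : ℝ≥0∞) * ∑ K ∈ Icc m R, G K := by
  classical
  have e1 : ∀ M ∈ F, ∑ K ∈ (Icc 1 R).filter (fun K => M ∣ K), G K =
      ∑ K ∈ Icc m R, if M ∣ K then G K else 0 := by
    intro M hM
    rw [← sum_filter]
    refine sum_congr ?_ fun _ _ => rfl
    ext K
    simp only [mem_filter, mem_Icc]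
    refine ⟨fun h => ⟨⟨?_, h.1.2⟩, h.2⟩, fun h => ⟨⟨by omega, h.1.2⟩, h.2⟩⟩
    have h1 := Nat.le_of_dvd (by omega) h.2
    have h2 := hF M hM
    omega
  rw [sum_congr rfl e1, sum_comm, mul_sum]
  refine sum_le_sum fun K hK => ?_
  rw [mem_Icc] at hK
  rw [← sum_filter, sum_const, nsmul_eq_mul]
  exact mul_le_mul' (by exact_mod_cast card_div F hm hF (by omega) hK.2) le_rfl

/-- one large member in every window gives a large sum over `[m, 2 m]` -/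
lemma windows {W : ℕ → ℝ≥0∞} {a δ c : ℝ} {m0 : ℕ} (hδ : 0 < δ) (hδ1 : δ ≤ 1 / 2) (hc : 0 < c) (ha : a ≤ 0)
    (h : ∀ x : ℕ, m0 ≤ x → ∃ M : ℕ, (x : ℝ) - (x : ℝ) ^ δ ≤ M ∧ (M : ℝ) ≤ x + (x : ℝ) ^ δ ∧
      ENNReal.ofReal (c * (x : ℝ) ^ (a - δ)) ≤ W M) :
    ∃ c' : ℝ, 0 < c' ∧ ∀ m : ℕ, m0 ≤ m → 100 ≤ m → ∃ F : Finset ℕ, (∀ M ∈ F, m ≤ M ∧ M ≤ 2 * m) ∧
      ENNReal.ofReal (c' * (m : ℝ) ^ (1 + a - 2 * δ)) ≤ ∑ M ∈ F, W M := by
  classical
  refine ⟨c * 2 ^ (a - δ) / 48, by positivity, fun m hm hm1 => ?_⟩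
  obtain ⟨w, hw⟩ : ∃ w : ℕ, w = ⌈(2 * (m : ℝ)) ^ δ⌉₊ := ⟨_, rfl⟩
  have hmR : (100 : ℝ) ≤ m := by exact_mod_cast hm1
  have hm0 : (0 : ℝ) < m := by linarith
  have hp1 : 1 ≤ (2 * (m : ℝ)) ^ δ := Real.one_le_rpow (by linarith) hδ.le
  have hw1 : (2 * (m : ℝ)) ^ δ ≤ w := by rw [hw]; exact Nat.le_ceil _
  have hw2 : (w : ℝ) < (2 * (m : ℝ)) ^ δ + 1 := by rw [hw]; exact Nat.ceil_lt_add_one (by positivity)
  have hs : (2 * (m : ℝ)) ^ δ ≤ Real.sqrt (2 * m) := by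
    rw [Real.sqrt_eq_rpow]
    exact Real.rpow_le_rpow_of_exponent_le (by linarith) hδ1
  have hs2 : Real.sqrt (2 * m) ≤ m / 6 - 2 := by
    rw [Real.sqrt_le_left (by linarith)]
    nlinarith
  have hw3 : (6 : ℝ) * w ≤ m := by linarith
  have hw4 : 6 * w ≤ m := by exact_mod_cast hw3
  have hw5 : (1 : ℝ) ≤ w := hp1.trans hw1
  have hw6 : 1 ≤ w := by exact_mod_cast hw5
  obtain ⟨J, hJ⟩ : ∃ J : ℕ, J = m / (6 * w) := ⟨_, rfl⟩
  have hJ1 : 1 ≤ J := by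
    rw [hJ]
    exact (Nat.one_le_div_iff (by omega)).2 hw4
  have hJ2 : J * (6 * w) ≤ m := by
    rw [hJ]
    exact Nat.div_mul_le_self _ _
  have hJ3 : m < (J + 1) * (6 * w) := by
    rw [hJ, mul_comm]
    exact Nat.lt_mul_div_succ m (by omega)
  -- the centers
  have hx : ∀ i : ℕ, i < J → m0 ≤ m + w + 3 * w * i ∧ m + w + 3 * w * i + w ≤ 2 * m := by
    intro i hi
    have h1 : 3 * w * i ≤ 3 * w * J := Nat.mul_le_mul_left _ hi.le
    have h2 : 2 * (3 * w * J) ≤ m := by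
      calc 2 * (3 * w * J) = J * (6 * w) := by ring
        _ ≤ m := hJ2
    constructor
    · omega
    · omega
  have hch : ∀ i : ℕ, ∃ M : ℕ, i < J → ((m + 3 * w * i : ℕ) : ℤ) ≤ M ∧ (M : ℤ) ≤ ((m + 2 * w + 3 * w * i : ℕ) : ℤ) ∧
      ENNReal.ofReal (c * (2 * (m : ℝ)) ^ (a - δ)) ≤ W M := by
    intro i
    by_cases hi : i < J
    swap
    · exact ⟨0, fun h => absurd h hi⟩
    obtain ⟨h1, h2⟩ := hx i hi
    obtain ⟨M, h3, h4, h5⟩ := h _ h1
    have h6 : ((m + w + 3 * w * i : ℕ) : ℝ) ≤ 2 * m := by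
      have : m + w + 3 * w * i ≤ 2 * m := by omega
      exact_mod_cast this
    have h7 : ((m + w + 3 * w * i : ℕ) : ℝ) ^ δ ≤ w :=
      (Real.rpow_le_rpow (by positivity) h6 hδ.le).trans hw1
    have h8 : (0 : ℝ) < ((m + w + 3 * w * i : ℕ) : ℝ) := by
      have : 0 < m + w + 3 * w * i := by omega
      exact_mod_cast this
    refine ⟨M, fun _ => ⟨?_, ?_, ?_⟩⟩
    · have h9 : ((m + 3 * w * i : ℕ) : ℝ) ≤ M := by
        push_cast at h3 h7 ⊢
        linarith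
      exact_mod_cast h9
    · have h9 : (M : ℝ) ≤ ((m + 2 * w + 3 * w * i : ℕ) : ℝ) := by
        push_cast at h4 h7 ⊢
        linarith
      exact_mod_cast h9
    · refine le_trans (ENNReal.ofReal_le_ofReal ?_) h5
      exact mul_le_mul_of_nonneg_left (Real.rpow_le_rpow_of_nonpos h8 h6 (by linarith)) hc.le
  choose f hf using hch
  have hinj : Set.InjOn f (range J : Set ℕ) := by
    have key : ∀ i j : ℕ, i < J → j < J → i < j → f i < f j := by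
      intro i j hi hj hij
      have h1 := (hf i hi).2.1
      have h2 := (hf j hj).1
      have h3 : 3 * w * (i + 1) ≤ 3 * w * j := Nat.mul_le_mul_left _ hij
      have h4 : 3 * w * (i + 1) = 3 * w * i + 3 * w := by ring
      have h5 : f i ≤ m + 2 * w + 3 * w * i := by exact_mod_cast h1
      have h6 : m + 3 * w * j ≤ f j := by exact_mod_cast h2
      omega
    intro i hi j hj he
    rw [mem_coe, mem_range] at hi hj
    rcases lt_trichotomy i j with h1 | h1 | h1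
    · have := key i j hi hj h1
      omega
    · exact h1
    · have := key j i hj hi h1
      omega
  refine ⟨(range J).image f, ?_, ?_⟩
  · intro M hM
    rw [mem_image] at hM
    obtain ⟨i, hi, rfl⟩ := hM
    rw [mem_range] at hi
    obtain ⟨h1, h2, -⟩ := hf i hi
    have h3 := (hx i hi).2
    have h4 : m + 3 * w * i ≤ f i := by exact_mod_cast h1
    have h5 : f i ≤ m + 2 * w + 3 * w * i := by exact_mod_cast h2
    constructor
    · exact le_trans (Nat.le_add_right _ _) h4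
    · omega
  · rw [sum_image fun i hi j hj he => hinj hi hj he]
    have h1 : ∑ i ∈ range J, ENNReal.ofReal (c * (2 * (m : ℝ)) ^ (a - δ)) ≤ ∑ i ∈ range J, W (f i) :=
      sum_le_sum fun i hi => (hf i (mem_range.1 hi)).2.2
    refine le_trans ?_ h1
    rw [sum_const, card_range, nsmul_eq_mul, ← ENNReal.ofReal_natCast, ← ENNReal.ofReal_mul (Nat.cast_nonneg _)]
    apply ENNReal.ofReal_le_ofReal
    have h2 : (m : ℝ) < (J + 1) * (6 * w) := by exact_mod_cast hJ3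
    have h3 : (1 : ℝ) ≤ J := by exact_mod_cast hJ1
    have h4 : (m : ℝ) ≤ 12 * (J * w) := by nlinarith
    have h5 : (w : ℝ) ≤ 4 * (m : ℝ) ^ δ := by
      have h6 : (2 * (m : ℝ)) ^ δ ≤ 2 * (m : ℝ) ^ δ := by
        rw [Real.mul_rpow (by norm_num) hm0.le]
        refine mul_le_mul_of_nonneg_right ?_ (by positivity)
        calc (2 : ℝ) ^ δ ≤ 2 ^ (1 : ℝ) := Real.rpow_le_rpow_of_exponent_le (by norm_num) (by linarith)
          _ = 2 := Real.rpow_one 2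
      linarith
    have h6 : (m : ℝ) ≤ 48 * (J * (m : ℝ) ^ δ) := by
      calc (m : ℝ) ≤ 12 * (J * w) := h4
        _ ≤ 12 * (J * (4 * (m : ℝ) ^ δ)) := by
          refine mul_le_mul_of_nonneg_left (mul_le_mul_of_nonneg_left h5 (by positivity)) (by norm_num)
        _ = 48 * (J * (m : ℝ) ^ δ) := by ring
    have e1 : (m : ℝ) ^ (1 + a - 2 * δ) * (m : ℝ) ^ δ = m * (m : ℝ) ^ (a - δ) := by
      rw [← Real.rpow_add hm0]
      nth_rewrite 2 [← Real.rpow_one (m : ℝ)]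
      rw [← Real.rpow_add hm0]
      congr 1
      ring
    have e2 : (m : ℝ) ^ (1 + a - 2 * δ) ≤ 48 * (J * (m : ℝ) ^ (a - δ)) := by
      have h7 : (m : ℝ) ^ (1 + a - 2 * δ) * (m : ℝ) ^ δ ≤ 48 * (J * (m : ℝ) ^ (a - δ)) * (m : ℝ) ^ δ := by
        rw [e1]
        calc (m : ℝ) * (m : ℝ) ^ (a - δ) ≤ 48 * (J * (m : ℝ) ^ δ) * (m : ℝ) ^ (a - δ) :=
              mul_le_mul_of_nonneg_right h6 (by positivity)
          _ = 48 * (J * (m : ℝ) ^ (a - δ)) * (m : ℝ) ^ δ := by ring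
      exact le_of_mul_le_mul_right h7 (by positivity)
    rw [Real.mul_rpow (by norm_num) hm0.le]
    calc c * 2 ^ (a - δ) / 48 * (m : ℝ) ^ (1 + a - 2 * δ) ≤ c * 2 ^ (a - δ) / 48 * (48 * (J * (m : ℝ) ^ (a - δ))) :=
          mul_le_mul_of_nonneg_left e2 (by positivity)
      _ = J * (c * (2 ^ (a - δ) * (m : ℝ) ^ (a - δ))) := by ring

/-- the real inequality at one scale -/
lemma real_step {a b δ κ ε c Cd C : ℝ} (ha : a ≤ 0) (hδ : 0 < δ) (hκ : κ ≤ 1 + a) (hδκ : 8 * δ ≤ κ)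
    (hδε : 6 * δ ≤ ε) (hc : 0 < c) (hCd : 0 < Cd) (hC : 0 < C) :
    ∃ c' : ℝ, 0 < c' ∧ ∃ X : ℝ, 1 ≤ X ∧ ∀ m R h : ℝ, X ≤ m → 1 ≤ R → R ≤ 16 * m ^ (1 + δ) →
      c * m ^ (1 + a - 2 * δ) ≤ Cd * (2 * m) ^ δ * (R / m) * (C * R ^ (-b + ε) * h ^ 2 + C * R ^ (1 + a - κ)) + 2 * Cd →
      c' * R ^ (1 + a + b - 2 * ε) ≤ h ^ 2 := by
  have hκ0 : 0 < κ := by linarith
  have hδ1 : δ ≤ 1 / 8 := by linarith
  obtain ⟨A, hA⟩ : ∃ A : ℝ, A = Cd * 2 * 16 * C := ⟨_, rfl⟩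
  have hA0 : 0 < A := by rw [hA]; positivity
  -- the threshold
  obtain ⟨X, hX⟩ : ∃ X : ℝ, X = max 1 (max ((64 * A / c) ^ (1 / (3 * δ))) ((8 * Cd / c) ^ (1 / (1 + a - 2 * δ)))) := ⟨_, rfl⟩
  have hX1 : 1 ≤ X := by rw [hX]; exact le_max_left _ _
  refine ⟨c / (2 * A) / 16, by positivity, X, hX1, fun m R h hm hR hRm hmain => ?_⟩
  have hm1 : 1 ≤ m := hX1.trans hm
  have hm0 : 0 < m := by linarith
  have hR0 : 0 < R := by linarith
  have he0 : 0 < 1 + a - 2 * δ := by linarith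
  have h2 : (2 * m) ^ δ ≤ 2 * m ^ δ := by
    rw [Real.mul_rpow (by norm_num) hm0.le]
    refine mul_le_mul_of_nonneg_right ?_ (by positivity)
    calc (2 : ℝ) ^ δ ≤ 2 ^ (1 : ℝ) := Real.rpow_le_rpow_of_exponent_le (by norm_num) (by linarith)
      _ = 2 := Real.rpow_one 2
  have h3 : R / m ≤ 16 * m ^ δ := by
    rw [div_le_iff₀ hm0]
    calc R ≤ 16 * m ^ (1 + δ) := hRm
      _ = 16 * m ^ δ * m := by
        rw [Real.rpow_add hm0, Real.rpow_one]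
        ring
  have h4 : Cd * (2 * m) ^ δ * (R / m) ≤ Cd * 2 * 16 * m ^ (2 * δ) := by
    calc Cd * (2 * m) ^ δ * (R / m) ≤ Cd * (2 * m ^ δ) * (16 * m ^ δ) := by
          apply mul_le_mul _ h3 (by positivity) (by positivity)
          exact mul_le_mul_of_nonneg_left h2 hCd.le
      _ = Cd * 2 * 16 * m ^ (2 * δ) := by
          rw [show (2 * δ : ℝ) = δ + δ by ring, Real.rpow_add hm0]
          ring
  -- the error term
  have h5 : R ^ (1 + a - κ) ≤ 16 * m ^ (1 + a + δ - κ) := by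
    have e0 : 0 ≤ 1 + a - κ := by linarith
    calc R ^ (1 + a - κ) ≤ (16 * m ^ (1 + δ)) ^ (1 + a - κ) := Real.rpow_le_rpow hR0.le hRm e0
      _ = 16 ^ (1 + a - κ) * m ^ ((1 + δ) * (1 + a - κ)) := by
          rw [Real.mul_rpow (by norm_num) (by positivity), ← Real.rpow_mul hm0.le]
      _ ≤ 16 * m ^ (1 + a + δ - κ) := by
          apply mul_le_mul _ _ (by positivity) (by norm_num)
          · calc (16 : ℝ) ^ (1 + a - κ) ≤ 16 ^ (1 : ℝ) :=
                  Real.rpow_le_rpow_of_exponent_le (by norm_num) (by linarith)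
              _ = 16 := Real.rpow_one _
          · apply Real.rpow_le_rpow_of_exponent_le hm1
            nlinarith
  have h6 : Cd * 2 * 16 * m ^ (2 * δ) * (C * R ^ (1 + a - κ)) ≤ 16 * A * m ^ (1 + a - 5 * δ) := by
    calc Cd * 2 * 16 * m ^ (2 * δ) * (C * R ^ (1 + a - κ)) ≤ Cd * 2 * 16 * m ^ (2 * δ) * (C * (16 * m ^ (1 + a + δ - κ))) :=
          mul_le_mul_of_nonneg_left (mul_le_mul_of_nonneg_left h5 hC.le) (by positivity)
      _ = 16 * A * (m ^ (2 * δ) * m ^ (1 + a + δ - κ)) := by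
          rw [hA]
          ring
      _ = 16 * A * m ^ (2 * δ + (1 + a + δ - κ)) := by rw [← Real.rpow_add hm0]
      _ ≤ 16 * A * m ^ (1 + a - 5 * δ) := by
          apply mul_le_mul_of_nonneg_left _ (by positivity)
          exact Real.rpow_le_rpow_of_exponent_le hm1 (by linarith)
  have h7 : 16 * A * m ^ (1 + a - 5 * δ) ≤ c / 4 * m ^ (1 + a - 2 * δ) := by
    have h8 : 64 * A / c ≤ m ^ (3 * δ) := by
      have h9 : (64 * A / c) ^ (1 / (3 * δ)) ≤ m :=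
        ((le_max_left _ _).trans ((le_max_right _ _).trans hX.symm.le)).trans hm
      calc 64 * A / c = ((64 * A / c) ^ (1 / (3 * δ))) ^ (3 * δ) := by
            rw [← Real.rpow_mul (by positivity), one_div_mul_cancel (by positivity), Real.rpow_one]
        _ ≤ m ^ (3 * δ) := Real.rpow_le_rpow (by positivity) h9 (by positivity)
    have e1 : m ^ (1 + a - 2 * δ) = m ^ (1 + a - 5 * δ) * m ^ (3 * δ) := by
      rw [← Real.rpow_add hm0]
      congr 1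
      ring
    rw [e1]
    rw [div_le_iff₀ hc] at h8
    calc 16 * A * m ^ (1 + a - 5 * δ) = (64 * A) / 4 * m ^ (1 + a - 5 * δ) := by ring
      _ ≤ (m ^ (3 * δ) * c) / 4 * m ^ (1 + a - 5 * δ) := by
          apply mul_le_mul_of_nonneg_right _ (by positivity)
          linarith
      _ = c / 4 * (m ^ (1 + a - 5 * δ) * m ^ (3 * δ)) := by ring
  have h8 : 2 * Cd ≤ c / 4 * m ^ (1 + a - 2 * δ) := by
    have h9 : (8 * Cd / c) ^ (1 / (1 + a - 2 * δ)) ≤ m :=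
      ((le_max_right _ _).trans ((le_max_right _ _).trans hX.symm.le)).trans hm
    have h10 : 8 * Cd / c ≤ m ^ (1 + a - 2 * δ) := by
      calc 8 * Cd / c = ((8 * Cd / c) ^ (1 / (1 + a - 2 * δ))) ^ (1 + a - 2 * δ) := by
            rw [← Real.rpow_mul (by positivity), one_div_mul_cancel he0.ne', Real.rpow_one]
        _ ≤ m ^ (1 + a - 2 * δ) := Real.rpow_le_rpow (by positivity) h9 he0.le
    rw [div_le_iff₀ hc] at h10
    linarith
  have h9 : c / 2 * m ^ (1 + a - 2 * δ) ≤ A * m ^ (2 * δ) * (R ^ (-b + ε) * h ^ 2) := by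
    have h10 : Cd * (2 * m) ^ δ * (R / m) * (C * R ^ (-b + ε) * h ^ 2 + C * R ^ (1 + a - κ)) ≤
        Cd * 2 * 16 * m ^ (2 * δ) * (C * R ^ (-b + ε) * h ^ 2 + C * R ^ (1 + a - κ)) :=
      mul_le_mul_of_nonneg_right h4 (by positivity)
    have e2 : Cd * 2 * 16 * m ^ (2 * δ) * (C * R ^ (-b + ε) * h ^ 2 + C * R ^ (1 + a - κ)) =
        A * m ^ (2 * δ) * (R ^ (-b + ε) * h ^ 2) + Cd * 2 * 16 * m ^ (2 * δ) * (C * R ^ (1 + a - κ)) := by
      rw [hA]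
      ring
    linarith
  -- from m to R
  have h10 : R ^ (1 + a - 6 * δ) ≤ 16 * m ^ (1 + a - 4 * δ) := by
    have e0 : 0 ≤ 1 + a - 6 * δ := by linarith
    calc R ^ (1 + a - 6 * δ) ≤ (16 * m ^ (1 + δ)) ^ (1 + a - 6 * δ) := Real.rpow_le_rpow hR0.le hRm e0
      _ = 16 ^ (1 + a - 6 * δ) * m ^ ((1 + δ) * (1 + a - 6 * δ)) := by
          rw [Real.mul_rpow (by norm_num) (by positivity), ← Real.rpow_mul hm0.le]
      _ ≤ 16 * m ^ (1 + a - 4 * δ) := by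
          apply mul_le_mul _ _ (by positivity) (by norm_num)
          · calc (16 : ℝ) ^ (1 + a - 6 * δ) ≤ 16 ^ (1 : ℝ) :=
                  Real.rpow_le_rpow_of_exponent_le (by norm_num) (by linarith)
              _ = 16 := Real.rpow_one _
          · apply Real.rpow_le_rpow_of_exponent_le hm1
            nlinarith
  have h11 : c / (2 * A) * m ^ (1 + a - 4 * δ) ≤ R ^ (-b + ε) * h ^ 2 := by
    have e3 : m ^ (1 + a - 2 * δ) = m ^ (2 * δ) * m ^ (1 + a - 4 * δ) := by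
      rw [← Real.rpow_add hm0]
      congr 1
      ring
    rw [e3] at h9
    have hp : 0 < A * m ^ (2 * δ) := by positivity
    refine le_of_mul_le_mul_left ?_ hp
    calc A * m ^ (2 * δ) * (c / (2 * A) * m ^ (1 + a - 4 * δ)) = c / 2 * (m ^ (2 * δ) * m ^ (1 + a - 4 * δ)) := by
          field_simp
      _ ≤ A * m ^ (2 * δ) * (R ^ (-b + ε) * h ^ 2) := h9
  have h12 : c / (2 * A) / 16 * R ^ (1 + a - 6 * δ) ≤ R ^ (-b + ε) * h ^ 2 := by
    refine le_trans ?_ h11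
    calc c / (2 * A) / 16 * R ^ (1 + a - 6 * δ) ≤ c / (2 * A) / 16 * (16 * m ^ (1 + a - 4 * δ)) :=
          mul_le_mul_of_nonneg_left h10 (by positivity)
      _ = c / (2 * A) * m ^ (1 + a - 4 * δ) := by ring
  have hp : 0 < R ^ (-b + ε) := by positivity
  refine le_of_mul_le_mul_left ?_ hp
  refine le_trans ?_ h12
  calc R ^ (-b + ε) * (c / (2 * A) / 16 * R ^ (1 + a + b - 2 * ε)) =
        c / (2 * A) / 16 * (R ^ (-b + ε) * R ^ (1 + a + b - 2 * ε)) := by ring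
    _ = c / (2 * A) / 16 * R ^ (1 + a - ε) := by
        rw [← Real.rpow_add hR0]
        congr 2
        ring
    _ ≤ c / (2 * A) / 16 * R ^ (1 + a - 6 * δ) := by
        apply mul_le_mul_of_nonneg_left _ (by positivity)
        exact Real.rpow_le_rpow_of_exponent_le hR (by linarith)

/-- **the cylinder gives the half plane walks**, abstract form -/
theorem low_of_gl {H W : ℕ → ℝ≥0∞} {G : ℕ → ℕ → ℝ≥0∞} {a b : ℝ} (ha0 : -1 < a) (ha : a ≤ 0) (hH : Monotone H)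
    (hH1 : ∀ n, 1 ≤ n → 1 ≤ H n)
    (hW : ∀ ε : ℝ, 0 < ε → ∃ (c : ℝ) (m0 : ℕ), 0 < c ∧ ∀ x : ℕ, m0 ≤ x → ∃ M : ℕ, (x : ℝ) - (x : ℝ) ^ ε ≤ M ∧
      (M : ℝ) ≤ x + (x : ℝ) ^ ε ∧ ENNReal.ofReal (c * (x : ℝ) ^ (a - ε)) ≤ W M)
    (hGd : ∀ ε : ℝ, 0 < ε → ∃ (C : ℝ) (m0 : ℕ), 0 < C ∧ ∀ M : ℕ, m0 ≤ M → ∀ R : ℕ, (M : ℝ) ^ (1 + ε) ≤ R →
      W M ≤ ENNReal.ofReal (C * (M : ℝ) ^ ε) * ∑ K ∈ (Icc 1 R).filter (fun K => M ∣ K), G R K +
        ENNReal.ofReal (C * (M : ℝ)⁻¹))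
    (hGc : ∀ ε : ℝ, 0 < ε → ∃ (κ C : ℝ) (q : ℕ), 0 < κ ∧ 0 < C ∧ ∀ R : ℕ, 1 ≤ R →
      ∑ K ∈ Icc 1 R, G R K ≤ ENNReal.ofReal (C * (R : ℝ) ^ (-b + ε)) * H (q * R) ^ 2 +
        ENNReal.ofReal (C * (R : ℝ) ^ (1 + a - κ))) :
    ∀ ε : ℝ, 0 < ε → ∃ c : ℝ, 0 < c ∧ ∀ n : ℕ, 1 ≤ n → ENNReal.ofReal (c * (n : ℝ) ^ ((1 + a + b) / 2 - ε)) ≤ H n := by
  classical
  intro ε hε
  obtain ⟨κ0, C, q0, hκ0, hC, hc0⟩ := hGc ε hε
  obtain ⟨κ, hκ⟩ : ∃ κ : ℝ, κ = min κ0 (1 + a) := ⟨_, rfl⟩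
  have hκ1 : 0 < κ := by rw [hκ]; exact lt_min hκ0 (by linarith)
  have hκ2 : κ ≤ κ0 := by rw [hκ]; exact min_le_left _ _
  have hκ3 : κ ≤ 1 + a := by rw [hκ]; exact min_le_right _ _
  obtain ⟨δ, hδ⟩ : ∃ δ : ℝ, δ = min (κ / 8) (ε / 6) := ⟨_, rfl⟩
  have hδ0 : 0 < δ := by rw [hδ]; exact lt_min (by linarith) (by linarith)
  have hδ1 : δ ≤ κ / 8 := by rw [hδ]; exact min_le_left _ _
  have hδ2 : δ ≤ ε / 6 := by rw [hδ]; exact min_le_right _ _
  have hδ3 : δ ≤ 1 / 8 := by linarith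
  obtain ⟨q, hq⟩ : ∃ q : ℕ, q = max q0 1 := ⟨_, rfl⟩
  have hq1 : 1 ≤ q := by rw [hq]; exact le_max_right _ _
  have hq2 : q0 ≤ q := by rw [hq]; exact le_max_left _ _
  have hc1 : ∀ R : ℕ, 1 ≤ R → ∑ K ∈ Icc 1 R, G R K ≤ ENNReal.ofReal (C * (R : ℝ) ^ (-b + ε)) * H (q * R) ^ 2 +
      ENNReal.ofReal (C * (R : ℝ) ^ (1 + a - κ)) := by
    intro R hR
    have hR1 : (1 : ℝ) ≤ R := by exact_mod_cast hR
    refine (hc0 R hR).trans (add_le_add (mul_le_mul' le_rfl ?_) (ENNReal.ofReal_le_ofReal ?_))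
    · exact pow_le_pow_left' (hH (Nat.mul_le_mul_right _ hq2)) 2
    · exact mul_le_mul_of_nonneg_left (Real.rpow_le_rpow_of_exponent_le hR1 (by linarith)) hC.le
  obtain ⟨cw, mw, hcw, hW1⟩ := hW δ hδ0
  obtain ⟨c', hc', hF⟩ := windows hδ0 (by linarith) hcw ha hW1
  obtain ⟨Cd, md, hCd, hd1⟩ := hGd δ hδ0
  obtain ⟨c2, hc2, X, hX1, hstep⟩ := real_step (a := a) (b := b) (δ := δ) (κ := κ) (ε := ε) (c := c') (Cd := Cd) (C := C)
    ha hδ0 hκ3 (by linarith) (by linarith) hc' hCd hC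
  -- one scale
  obtain ⟨m1, hm1⟩ : ∃ m1 : ℕ, m1 = mw + md + 100 + ⌈X⌉₊ := ⟨_, rfl⟩
  obtain ⟨R0, hR0⟩ : ∃ R0 : ℕ, R0 = (4 * (m1 + 1)) ^ 2 := ⟨_, rfl⟩
  have hscale : ∀ R : ℕ, R0 ≤ R → ENNReal.ofReal (Real.sqrt c2 * (R : ℝ) ^ ((1 + a + b) / 2 - ε)) ≤ H (q * R) := by
    intro R hR
    have hR1 : 1 ≤ R := by
      refine le_trans ?_ hR
      rw [hR0]
      exact Nat.one_le_pow _ _ (by omega)
    have hRR : (1 : ℝ) ≤ R := by exact_mod_cast hR1
    have hRpos : (0 : ℝ) < R := by linarith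
    by_cases htop : H (q * R) = ⊤
    · rw [htop]
      exact le_top
    obtain ⟨h, hh⟩ : ∃ h : ℝ, h = (H (q * R)).toReal := ⟨_, rfl⟩
    have hh0 : 0 ≤ h := by rw [hh]; exact ENNReal.toReal_nonneg
    have hhe : H (q * R) = ENNReal.ofReal h := by rw [hh, ENNReal.ofReal_toReal htop]
    -- the scale of the cylinders
    obtain ⟨y, hy⟩ : ∃ y : ℝ, y = (R : ℝ) ^ (1 / (1 + δ)) := ⟨_, rfl⟩
    have hy0 : 0 < y := by rw [hy]; positivity
    have hyR : y ^ (1 + δ) = R := by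
      rw [hy, ← Real.rpow_mul hRpos.le, one_div_mul_cancel (by linarith), Real.rpow_one]
    have hym : 4 * ((m1 : ℝ) + 1) ≤ y := by
      have h1 : (((4 * (m1 + 1)) ^ 2 : ℕ) : ℝ) ≤ R := by
        rw [← hR0]
        exact_mod_cast hR
      push_cast at h1
      have h2 : (R : ℝ) ^ (1 / 2 : ℝ) ≤ y := by
        rw [hy]
        apply Real.rpow_le_rpow_of_exponent_le hRR
        rw [div_le_div_iff₀ (by norm_num) (by linarith)]
        linarith
      rw [← Real.sqrt_eq_rpow] at h2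
      refine le_trans ?_ h2
      exact Real.le_sqrt_of_sq_le h1
    obtain ⟨m, hm⟩ : ∃ m : ℕ, m = ⌊y / 2⌋₊ := ⟨_, rfl⟩
    have hm2 : (m : ℝ) ≤ y / 2 := by rw [hm]; exact Nat.floor_le (by positivity)
    have hm3 : y / 2 < m + 1 := by rw [hm]; exact Nat.lt_floor_add_one _
    have hmm1 : m1 ≤ m := by
      rw [hm]
      apply Nat.le_floor
      linarith
    have hmR1 : (1 : ℝ) ≤ m := by
      have : 1 ≤ m := by omega
      exact_mod_cast this
    have hmX : X ≤ m := by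
      have h1 : X ≤ ⌈X⌉₊ := Nat.le_ceil X
      have h2 : ((⌈X⌉₊ : ℕ) : ℝ) ≤ m := by
        have : ⌈X⌉₊ ≤ m := by omega
        exact_mod_cast this
      linarith
    have h2m : (2 * (m : ℝ)) ^ (1 + δ) ≤ R := by
      calc (2 * (m : ℝ)) ^ (1 + δ) ≤ y ^ (1 + δ) := Real.rpow_le_rpow (by positivity) (by linarith) (by linarith)
        _ = R := hyR
    have h16 : (R : ℝ) ≤ 16 * (m : ℝ) ^ (1 + δ) := by
      calc (R : ℝ) = y ^ (1 + δ) := hyR.symm
        _ ≤ (4 * (m : ℝ)) ^ (1 + δ) := Real.rpow_le_rpow hy0.le (by linarith) (by linarith)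
        _ = 4 ^ (1 + δ) * (m : ℝ) ^ (1 + δ) := Real.mul_rpow (by norm_num) (by positivity)
        _ ≤ 16 * (m : ℝ) ^ (1 + δ) := by
            apply mul_le_mul_of_nonneg_right _ (by positivity)
            calc (4 : ℝ) ^ (1 + δ) ≤ 4 ^ (2 : ℝ) := Real.rpow_le_rpow_of_exponent_le (by norm_num) (by linarith)
              _ = 16 := by norm_num
    obtain ⟨F, hF1, hF2⟩ := hF m (by omega) (by omega)
    have hcard : F.card ≤ m + 1 := by
      have h1 : F ⊆ Icc m (2 * m) := fun M hM => mem_Icc.2 (hF1 M hM)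
      have h2 := card_le_card h1
      rw [Nat.card_Icc] at h2
      omega
    -- the sum over the cylinders
    have hsum : ∑ M ∈ F, W M ≤ ENNReal.ofReal (Cd * (2 * (m : ℝ)) ^ δ * (R / m) *
        (C * (R : ℝ) ^ (-b + ε) * h ^ 2 + C * (R : ℝ) ^ (1 + a - κ)) + 2 * Cd) := by
      have h1 : ∀ M ∈ F, W M ≤ ENNReal.ofReal (Cd * (2 * (m : ℝ)) ^ δ) *
          ∑ K ∈ (Icc 1 R).filter (fun K => M ∣ K), G R K + ENNReal.ofReal (Cd * (m : ℝ)⁻¹) := by
        intro M hM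
        obtain ⟨h2, h3⟩ := hF1 M hM
        have h2R : (m : ℝ) ≤ M := by exact_mod_cast h2
        have h3R : (M : ℝ) ≤ 2 * m := by exact_mod_cast h3
        have h4 : (M : ℝ) ^ (1 + δ) ≤ R :=
          (Real.rpow_le_rpow (by positivity) h3R (by linarith)).trans h2m
        refine (hd1 M (by omega) R h4).trans (add_le_add (mul_le_mul' (ENNReal.ofReal_le_ofReal ?_) le_rfl)
          (ENNReal.ofReal_le_ofReal ?_))
        · exact mul_le_mul_of_nonneg_left (Real.rpow_le_rpow (by positivity) h3R hδ0.le) hCd.le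
        · exact mul_le_mul_of_nonneg_left (inv_anti₀ (by linarith) h2R) hCd.le
      refine (sum_le_sum h1).trans ?_
      rw [sum_add_distrib, ← mul_sum, sum_const, nsmul_eq_mul]
      have h5 := lifts_le (G R) F (R := R) (by omega : 1 ≤ m) (fun M hM => (hF1 M hM).1)
      have h6 : ∑ K ∈ Icc m R, G R K ≤ ∑ K ∈ Icc 1 R, G R K :=
        sum_le_sum_of_subset (Icc_subset_Icc_left (by omega))
      have h7 : ((R / m : ℕ) : ℝ≥0∞) ≤ ENNReal.ofReal ((R : ℝ) / m) := by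
        rw [← ENNReal.ofReal_natCast]
        exact ENNReal.ofReal_le_ofReal Nat.cast_div_le
      have h8 : ∑ K ∈ Icc 1 R, G R K ≤ ENNReal.ofReal (C * (R : ℝ) ^ (-b + ε) * h ^ 2 + C * (R : ℝ) ^ (1 + a - κ)) := by
        refine (hc1 R hR1).trans ?_
        rw [hhe, ← ENNReal.ofReal_pow hh0, ← ENNReal.ofReal_mul (by positivity),
          ← ENNReal.ofReal_add (by positivity) (by positivity)]
      have h9 : ((F.card : ℕ) : ℝ≥0∞) * ENNReal.ofReal (Cd * (m : ℝ)⁻¹) ≤ ENNReal.ofReal (2 * Cd) := by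
        rw [← ENNReal.ofReal_natCast, ← ENNReal.ofReal_mul (Nat.cast_nonneg _)]
        apply ENNReal.ofReal_le_ofReal
        have h10 : (F.card : ℝ) ≤ m + 1 := by exact_mod_cast hcard
        calc (F.card : ℝ) * (Cd * (m : ℝ)⁻¹) ≤ (2 * m) * (Cd * (m : ℝ)⁻¹) := by
              apply mul_le_mul_of_nonneg_right _ (by positivity)
              linarith
          _ = 2 * Cd := by field_simp
      rw [ENNReal.ofReal_add (by positivity) (by positivity)]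
      refine add_le_add ?_ h9
      calc ENNReal.ofReal (Cd * (2 * (m : ℝ)) ^ δ) * ∑ M ∈ F, ∑ K ∈ (Icc 1 R).filter (fun K => M ∣ K), G R K ≤
            ENNReal.ofReal (Cd * (2 * (m : ℝ)) ^ δ) * (ENNReal.ofReal ((R : ℝ) / m) *
              ENNReal.ofReal (C * (R : ℝ) ^ (-b + ε) * h ^ 2 + C * (R : ℝ) ^ (1 + a - κ))) :=
            mul_le_mul' le_rfl (h5.trans (mul_le_mul' h7 (h6.trans h8)))
        _ = ENNReal.ofReal (Cd * (2 * (m : ℝ)) ^ δ * (R / m) *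
              (C * (R : ℝ) ^ (-b + ε) * h ^ 2 + C * (R : ℝ) ^ (1 + a - κ))) := by
            rw [← ENNReal.ofReal_mul (by positivity), ← ENNReal.ofReal_mul (by positivity)]
            congr 1
            ring
    have hreal : c' * (m : ℝ) ^ (1 + a - 2 * δ) ≤ Cd * (2 * (m : ℝ)) ^ δ * (R / m) *
        (C * (R : ℝ) ^ (-b + ε) * h ^ 2 + C * (R : ℝ) ^ (1 + a - κ)) + 2 * Cd :=
      (ENNReal.ofReal_le_ofReal_iff (by positivity)).1 (hF2.trans hsum)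
    have hfin := hstep m R h hmX hRR h16 hreal
    rw [hhe]
    apply ENNReal.ofReal_le_ofReal
    have h1 : (Real.sqrt c2 * (R : ℝ) ^ ((1 + a + b) / 2 - ε)) ^ 2 ≤ h ^ 2 := by
      rw [mul_pow, Real.sq_sqrt hc2.le, ← Real.rpow_natCast, ← Real.rpow_mul hRpos.le]
      rw [show ((1 + a + b) / 2 - ε) * ((2 : ℕ) : ℝ) = 1 + a + b - 2 * ε by push_cast; ring]
      exact hfin
    exact le_of_sq_le_sq h1 hh0
  -- all n
  obtain ⟨s, hs⟩ : ∃ s : ℝ, s = (1 + a + b) / 2 - ε := ⟨_, rfl⟩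
  rw [← hs] at hscale ⊢
  rcases le_or_gt s 0 with hs0 | hs0
  · refine ⟨1, one_pos, fun n hn => ?_⟩
    have hn1 : (1 : ℝ) ≤ n := by exact_mod_cast hn
    refine le_trans ?_ (hH1 n hn)
    rw [← ENNReal.ofReal_one]
    apply ENNReal.ofReal_le_ofReal
    rw [one_mul]
    exact Real.rpow_le_one_of_one_le_of_nonpos hn1 hs0
  obtain ⟨N, hN⟩ : ∃ N : ℕ, N = q * (R0 + 1) := ⟨_, rfl⟩
  have hN1 : 1 ≤ N := by
    rw [hN]
    exact Nat.mul_pos (by omega) (by omega)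
  have hNR : (1 : ℝ) ≤ N := by exact_mod_cast hN1
  have hqR : (1 : ℝ) ≤ q := by exact_mod_cast hq1
  refine ⟨min ((N : ℝ) ^ s)⁻¹ (Real.sqrt c2 * ((2 * (q : ℝ)) ^ s)⁻¹), ?_, fun n hn => ?_⟩
  · exact lt_min (by positivity) (mul_pos (Real.sqrt_pos.2 hc2) (by positivity))
  have hn1 : (1 : ℝ) ≤ n := by exact_mod_cast hn
  rcases Nat.lt_or_ge n N with hlt | hge
  · refine le_trans ?_ (hH1 n hn)
    rw [← ENNReal.ofReal_one]
    apply ENNReal.ofReal_le_ofReal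
    have h1 : (n : ℝ) ≤ N := by exact_mod_cast hlt.le
    calc min ((N : ℝ) ^ s)⁻¹ (Real.sqrt c2 * ((2 * (q : ℝ)) ^ s)⁻¹) * (n : ℝ) ^ s ≤ ((N : ℝ) ^ s)⁻¹ * (N : ℝ) ^ s :=
          mul_le_mul (min_le_left _ _) (Real.rpow_le_rpow (by positivity) h1 hs0.le) (by positivity) (by positivity)
      _ = 1 := inv_mul_cancel₀ (by positivity)
  · obtain ⟨R, hR⟩ : ∃ R : ℕ, R = n / q := ⟨_, rfl⟩
    have h1 : q * R ≤ n := by
      rw [hR]
      exact Nat.mul_div_le n q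
    have h2 : R0 + 1 ≤ R := by
      rw [hR, Nat.le_div_iff_mul_le (by omega), mul_comm]
      rw [hN] at hge
      exact hge
    have h3 : n < q * (R + 1) := by
      rw [hR]
      exact Nat.lt_mul_div_succ n (by omega)
    have h4 : (n : ℝ) ≤ 2 * q * R := by
      have h5 : (n : ℝ) < q * (R + 1) := by exact_mod_cast h3
      have h6 : (1 : ℝ) ≤ R := by
        have : 1 ≤ R := by omega
        exact_mod_cast this
      nlinarith
    refine le_trans (ENNReal.ofReal_le_ofReal ?_) ((hscale R (by omega)).trans (hH h1))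
    have h5 : (n : ℝ) ^ s ≤ (2 * (q : ℝ)) ^ s * (R : ℝ) ^ s := by
      rw [← Real.mul_rpow (by positivity) (by positivity)]
      exact Real.rpow_le_rpow (by positivity) h4 hs0.le
    calc min ((N : ℝ) ^ s)⁻¹ (Real.sqrt c2 * ((2 * (q : ℝ)) ^ s)⁻¹) * (n : ℝ) ^ s ≤
          (Real.sqrt c2 * ((2 * (q : ℝ)) ^ s)⁻¹) * ((2 * (q : ℝ)) ^ s * (R : ℝ) ^ s) :=
          mul_le_mul (min_le_right _ _) h5 (by positivity) (by positivity)
      _ = Real.sqrt c2 * (R : ℝ) ^ s := by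
          have h6 : (2 * (q : ℝ)) ^ s ≠ 0 := by positivity
          field_simp

/-- the same with a linear bound of the sum over the distances (helper8's form) -/
theorem low_of_gl1 {H W : ℕ → ℝ≥0∞} {G : ℕ → ℕ → ℝ≥0∞} {a b : ℝ} (ha0 : -1 < a) (ha : a ≤ 0) (hH : Monotone H)
    (hH1 : ∀ n, 1 ≤ n → 1 ≤ H n)
    (hW : ∀ ε : ℝ, 0 < ε → ∃ (c : ℝ) (m0 : ℕ), 0 < c ∧ ∀ x : ℕ, m0 ≤ x → ∃ M : ℕ, (x : ℝ) - (x : ℝ) ^ ε ≤ M ∧
      (M : ℝ) ≤ x + (x : ℝ) ^ ε ∧ ENNReal.ofReal (c * (x : ℝ) ^ (a - ε)) ≤ W M)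
    (hGd : ∀ ε : ℝ, 0 < ε → ∃ (C : ℝ) (m0 : ℕ), 0 < C ∧ ∀ M : ℕ, m0 ≤ M → ∀ R : ℕ, (M : ℝ) ^ (1 + ε) ≤ R →
      W M ≤ ENNReal.ofReal (C * (M : ℝ) ^ ε) * ∑ K ∈ (Icc 1 R).filter (fun K => M ∣ K), G R K +
        ENNReal.ofReal (C * (M : ℝ)⁻¹))
    (hGc : ∀ ε : ℝ, 0 < ε → ∃ (κ C : ℝ) (q : ℕ), 0 < κ ∧ 0 < C ∧ ∀ R : ℕ, 1 ≤ R →
      ∑ K ∈ Icc 1 R, G R K ≤ ENNReal.ofReal (C * (R : ℝ) ^ (-b + ε)) * H (q * R) +
        ENNReal.ofReal (C * (R : ℝ) ^ (1 + a - κ))) :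
    ∀ ε : ℝ, 0 < ε → ∃ c : ℝ, 0 < c ∧ ∀ n : ℕ, 1 ≤ n → ENNReal.ofReal (c * (n : ℝ) ^ (1 + a + b - ε)) ≤ H n := by
  intro ε hε
  have hsq : ∀ n, (H n ^ (1 / 2 : ℝ)) ^ 2 = H n := by
    intro n
    rw [← ENNReal.rpow_natCast, ← ENNReal.rpow_mul]
    norm_num
  have hH' : Monotone fun n => H n ^ (1 / 2 : ℝ) := fun m n hmn => ENNReal.rpow_le_rpow (hH hmn) (by norm_num)
  have hH1' : ∀ n, 1 ≤ n → 1 ≤ H n ^ (1 / 2 : ℝ) := fun n hn => ENNReal.one_le_rpow (hH1 n hn) (by norm_num)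
  obtain ⟨c, hc, h⟩ := low_of_gl (H := fun n => H n ^ (1 / 2 : ℝ)) (W := W) (G := G) (a := a) (b := b) ha0 ha hH' hH1'
    hW hGd (fun ε hε => by
      obtain ⟨κ, C, q, h1, h2, h3⟩ := hGc ε hε
      refine ⟨κ, C, q, h1, h2, fun R hR => ?_⟩
      simp only [hsq]
      exact h3 R hR) (ε / 2) (by positivity)
  refine ⟨c ^ 2, by positivity, fun n hn => ?_⟩
  have h1 := h n hn
  have h2 : ENNReal.ofReal (c * (n : ℝ) ^ ((1 + a + b) / 2 - ε / 2)) ^ 2 ≤ H n := by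
    rw [← hsq n]
    exact pow_le_pow_left' h1 2
  refine le_trans (le_of_eq ?_) h2
  rw [← ENNReal.ofReal_pow (by positivity)]
  congr 1
  rw [mul_pow, ← Real.rpow_natCast ((n : ℝ) ^ _), ← Real.rpow_mul (by positivity)]
  congr 2
  push_cast
  ring

end GLow

end HexObs
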