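import Pool.Agent.GLow.End
import Pool.Agent.GLow.LevDefs
import Pool.Agent.BAR.Glue

/-!
GLow: from the two point function of the cylinder to the half plane walks (board GLINK, block GLe).

`hLow_of_cyl` : block GLc (`TwoL m c` small), the lifts (block GLd) and the lower bound of the cylinder with the exponent
`- 5 / 24` in every window give `HLow (61 / 48)`.
-/

set_option autoImplicit false

namespace HexObs

namespace GLow

open Finset BAR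

open scoped ENNReal

lemma one_le_HH (n : ℕ) : 1 ≤ HH n := by
  have h4 : gf {([] : List Bool)} ≤ HH n := gf_mono (by
    rintro w rfl
    refine ⟨fun i hi hl => ?_, fun i k hik hk => ?_⟩
    · rw [List.length_nil] at hl
      omega
    · rw [List.length_nil] at hk
      omega)
  refine le_trans (le_of_eq ?_) h4
  unfold gf
  rw [tsum_singleton]
  show 1 = ENNReal.ofReal (xc ^ 0)
  rw [pow_zero, ENNReal.ofReal_one]

/-- **GLe**: the lower bound of the cylinder gives the half plane walks -/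
theorem hLow_of_cyl {W : ℕ → ℝ≥0∞} {G : ℕ → ℕ → ℝ≥0∞} {A : ℝ} {q c0 : ℕ} (hA : 0 < A) (hq : 1 ≤ q)
    (hTL : ∀ ε : ℝ, 0 < ε → ∃ C : ℝ, 0 < C ∧ ∀ m : ℕ, 1 ≤ m → ∀ c : ℤ, |c| ≤ c0 →
      TwoL m c ≤ ENNReal.ofReal (C * (m : ℝ) ^ (61 / 48 - 7 / 4 + ε : ℝ)) * HH (5 * m))
    (hG : ∀ R : ℕ, 1 ≤ R → ∑ K ∈ Icc 1 R, G R K ≤ ENNReal.ofReal A * ∑ c ∈ Icc (-(c0 : ℤ)) c0, TwoL (q * R) c)
    (hGd : ∀ ε : ℝ, 0 < ε → ∃ (C : ℝ) (m0 : ℕ), 0 < C ∧ ∀ M : ℕ, m0 ≤ M → ∀ R : ℕ, (M : ℝ) ^ (1 + ε) ≤ R →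
      W M ≤ ENNReal.ofReal (C * (M : ℝ) ^ ε) * ∑ K ∈ (Icc 1 R).filter (fun K => M ∣ K), G R K +
        ENNReal.ofReal (C * (M : ℝ)⁻¹))
    (hW : ∀ ε : ℝ, 0 < ε → ∃ (c : ℝ) (m0 : ℕ), 0 < c ∧ ∀ x : ℕ, m0 ≤ x → ∃ M : ℕ, (x : ℝ) - (x : ℝ) ^ ε ≤ M ∧
      (M : ℝ) ≤ x + (x : ℝ) ^ ε ∧ ENNReal.ofReal (c * (x : ℝ) ^ (-(5 / 24) - ε : ℝ)) ≤ W M) :
    HLow (61 / 48) := by
  have hqR : (1 : ℝ) ≤ q := by exact_mod_cast hq
  have h1 := low_of_gl1 (H := HH) (W := W) (G := G) (a := -(5 / 24)) (b := 23 / 48) (by norm_num) (by norm_num)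
    (fun m n h => gf_mono fun _ hw => SSt_mono h hw) (fun n _ => one_le_HH n) hW hGd (fun ε hε => by
      obtain ⟨C, hC, h⟩ := hTL ε hε
      refine ⟨1, A * ((2 * c0 + 1 : ℕ) * (C * (q : ℝ) ^ (61 / 48 - 7 / 4 + ε : ℝ))), 5 * q, one_pos, by positivity,
        fun R hR => ?_⟩
      have hR1 : (1 : ℝ) ≤ R := by exact_mod_cast hR
      refine le_add_right ((hG R hR).trans ?_)
      have h2 : ∑ c ∈ Icc (-(c0 : ℤ)) c0, TwoL (q * R) c ≤ ((2 * c0 + 1 : ℕ) : ℝ≥0∞) *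
          (ENNReal.ofReal (C * ((q * R : ℕ) : ℝ) ^ (61 / 48 - 7 / 4 + ε : ℝ)) * HH (5 * (q * R))) := by
        have h3 : ∑ c ∈ Icc (-(c0 : ℤ)) c0, TwoL (q * R) c ≤ ∑ _c ∈ Icc (-(c0 : ℤ)) c0,
            (ENNReal.ofReal (C * ((q * R : ℕ) : ℝ) ^ (61 / 48 - 7 / 4 + ε : ℝ)) * HH (5 * (q * R))) := by
          refine sum_le_sum fun c hc => h (q * R) (Nat.mul_pos (by omega) (by omega)) c ?_
          rw [mem_Icc] at hc
          exact abs_le.2 hc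
        refine h3.trans (le_of_eq ?_)
        rw [sum_const, Int.card_Icc, nsmul_eq_mul]
        congr 2
        omega
      refine (mul_le_mul' le_rfl h2).trans (le_of_eq ?_)
      rw [← mul_assoc, ← mul_assoc, ← ENNReal.ofReal_natCast, ← ENNReal.ofReal_mul hA.le,
        ← ENNReal.ofReal_mul (by positivity)]
      have e1 : ((q * R : ℕ) : ℝ) ^ (61 / 48 - 7 / 4 + ε : ℝ) =
          (q : ℝ) ^ (61 / 48 - 7 / 4 + ε : ℝ) * (R : ℝ) ^ (-(23 / 48) + ε : ℝ) := by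
        rw [Nat.cast_mul, Real.mul_rpow (by positivity) (by positivity)]
        congr 2
        ring
      rw [e1]
      congr 1
      · congr 1
        ring
      · congr 1
        ring)
  intro ε hε
  obtain ⟨c, hc, h2⟩ := h1 ε hε
  refine ⟨c, hc, fun n hn => ?_⟩
  have h3 := h2 n hn
  rw [show (1 + -(5 / 24) + 23 / 48 - ε : ℝ) = 61 / 48 - ε by ring] at h3
  exact h3

end GLow

end HexObs
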