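import Pool.Agent.BAR.Front

/-!
GLow, module G1: the cut at the leftmost vertex of the lowest row (BAR/Front) together with the levels of the ends.
-/

set_option autoImplicit false

namespace HexObs

open Complex Finset ENNReal

namespace BAR

/-- the five cases, with the levels of the ends -/
theorem front_splitL {m : ℕ} {t : List Bool} (hs : Saw Set.univ oo up t) (he : Ext m t) :
    t ∈ SSt m ∨
    (∃ R ∈ SSt m, ∃ c, t = rev (R.drop 1) ++ [c] ∧ R.length = t.length ∧
      lev R R.length = 4 - lev t t.length) ∨
    (∃ R ∈ SSt m, ∃ c, t = rev (R.drop 2) ++ [c] ∧ R.length = t.length + 1 ∧
      lev R R.length = 5 - lev t t.length) ∨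
    (∃ P ∈ SSt m, ∃ Q ∈ SSt m, Dj P Q ∧ ∃ c, t = rev (P.drop 2) ++ (true :: c :: Q.drop 1) ∧
      P.length + Q.length = t.length + 1 ∧ lev P P.length - lev Q Q.length = 2 - lev t t.length) ∨
    (∃ P ∈ SSt m, ∃ Q ∈ SSt m, Dj P Q ∧ t = rev (Q.drop 1) ++ (false :: false :: P.drop 2) ∧
      P.length + Q.length = t.length + 1 ∧ lev P P.length - lev Q Q.length = lev t t.length - 2) := by
  obtain ⟨n, hn⟩ : ∃ n, t.length = n := ⟨_, rfl⟩
  rcases Nat.eq_zero_or_pos n with h0 | hpos
  · refine Or.inl ⟨?_, ?_⟩
    · intro i h1 h2
      omega
    · intro i k h1 h2
      omega
  -- choice of the vertex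
  obtain ⟨V, hV⟩ : ∃ V : ℕ → Pt, V = vx oo up t := ⟨_, rfl⟩
  have hlevV : ∀ i, lev t i = (V i).1 + 2 * (V i).2 := fun i => by rw [hV]; exact lev_xy t i
  have hinj : ∀ i k, i < k → k ≤ n → V i ≠ V k := by
    intro i k h1 h2
    rw [hV]
    exact hs.inj i k h1 (by omega)
  have hinj' : ∀ i k, i ≤ n → k ≤ n → i ≠ k → V i ≠ V k := by
    intro i k h1 h2 h3
    rcases lt_or_gt_of_ne h3 with h | h
    · exact hinj i k h h2
    · exact (hinj k i h h1).symm
  have hmod : ∀ i, (3 : ℤ) ∣ lev t i - (if Even i then 0 else 2) := lev_mod t
  obtain ⟨j, hj, hmin⟩ := Finset.exists_min_image (Finset.Icc 1 n)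
    (fun i => toLex ((lev t i + 1) / 3, (V i).1)) ⟨1, by rw [Finset.mem_Icc]; omega⟩
  rw [Finset.mem_Icc] at hj
  obtain ⟨hj1, hjn⟩ := hj
  have hmin' : ∀ i, 1 ≤ i → i ≤ n → (lev t j + 1) / 3 < (lev t i + 1) / 3 ∨
      ((lev t j + 1) / 3 = (lev t i + 1) / 3 ∧ (V j).1 ≤ (V i).1) := by
    intro i h1 h2
    have := hmin i (Finset.mem_Icc.2 ⟨h1, h2⟩)
    rw [Prod.Lex.toLex_le_toLex] at this
    exact this
  obtain ⟨ρ, hρ⟩ : ∃ ρ : ℤ, ρ = (lev t j + 1) / 3 - 1 := ⟨_, rfl⟩
  have hlow : ∀ i, 1 ≤ i → i ≤ n → 3 * ρ + 2 ≤ lev t i := by
    intro i h1 h2
    have := hmin' i h1 h2
    omega
  have hleft : ∀ i, 1 ≤ i → i ≤ n → lev t i ≤ 3 * ρ + 3 → (V j).1 ≤ (V i).1 := by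
    intro i h1 h2 h3
    rcases hmin' i h1 h2 with h | h
    · omega
    · exact h.2
  have hhigh : ∀ i, 1 ≤ i → i ≤ n → lev t i ≤ 3 * (ρ + m) := by
    obtain ⟨c, hc⟩ := he
    have hcj := (hc j hj1 (by omega)).1
    have hmj := hmod j
    intro i h1 h2
    have hci := (hc i h1 (by omega)).2
    split_ifs at hmj <;> omega
  have hm1 : 1 ≤ m := by
    have h1 := hhigh j hj1 hjn
    have h2 := hlow j hj1 hjn
    by_contra hcon
    have h3 : m = 0 := by omega
    rw [h3] at h1
    push_cast at h1
    omega
  have hlevip : ∀ i, ip (V i) up = lev t i := fun i => by rw [hV]; rfl
  by_cases hρ0 : ρ = 0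
  · -- a walk of the upper half plane
    left
    refine mem_SSt_of (ρ := 0) (b := 0) (π := V) (by decide) ?_ ?_ ?_
    · intro i _ _
      rw [hV, sub_zero]
    · intro i h1 h2
      rw [hlevip]
      have h3 := hlow i h1 (by omega)
      have h4 := hhigh i h1 (by omega)
      rw [hρ0] at h3 h4
      constructor
      · omega
      · exact h4
    · intro i k _ h2 h3
      exact hinj i k h2 (by omega)
  right
  have hlev1 : lev t 1 = 2 := by
    have := lev_succ t 0
    rw [lev_zero] at this
    rw [this]
    show 0 + ip up up = 2
    decide
  have hlv : ∀ (w : List Bool) (k : ℕ) (p q : Pt), vx oo up w k = p - q → lev w k = ip p up - ip q up := by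
    intro w k p q h
    unfold lev
    rw [h, ip_sub_left]
  have hj2 : 2 ≤ j := by
    by_contra hcon
    have h1 : j = 1 := by omega
    rw [h1, hlev1] at hρ
    omega
  have hρneg : ρ < 0 := by
    have := hlow 1 le_rfl (by omega)
    omega
  -- previous step
  have hprev : V j = V (j - 1) + dx up t (j - 1) := by
    rw [hV]
    have := vx_succ oo up t (j - 1)
    rwa [show j - 1 + 1 = j by omega] at this
  have hmj := hmod j
  by_cases hev : Even j
  · -- even vertex
    rw [if_pos hev] at hmj
    have hlj : lev t j = 3 * ρ + 3 := by omega
    have hodd1 : ¬ Even (j - 1) := by
      obtain ⟨a, ha⟩ := hev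
      rintro ⟨b, hb⟩
      omega
    have hlj' := hlevV j
    -- a1 is not visited
    have ha1 : ∀ i, 1 ≤ i → i ≤ n → V i ≠ V j - (1, 0) := by
      intro i h1 h2 heq
      have h3 := hlevV i
      rw [heq] at h3
      simp only [Prod.fst_sub, Prod.snd_sub] at h3
      have h4 := hleft i h1 h2 (by omega)
      rw [heq] at h4
      simp only [Prod.fst_sub] at h4
      omega
    have hlead : ∀ (w : List Bool) (c : Bool) (d : Pt), turn c (1, 0) = d → ∀ i,
        vx oo up (false :: c :: w) (i + 2) = vx (1, 1) d w i := by
      intro w c d hd i
      rw [vx_cons2]
      have e1 : ((0 : ℤ), (1 : ℤ)) + turn false up = (1, 1) := by decide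
      have e2 : turn c (turn false up) = d := by
        rw [← hd]
        rfl
      rw [e1, e2]
    have hb0 : ip (V j - (1, 1)) up = 3 * ρ := by
      rw [ipup_xy]
      simp only [Prod.fst_sub, Prod.snd_sub]
      omega
    have ha1l : ip (V j - (1, 0)) up = 3 * ρ + 2 := by
      rw [ipup_xy]
      simp only [Prod.fst_sub, Prod.snd_sub]
      omega
    rcases stepO (t := t) hodd1 with hd | hd | hd
    · -- from above
      have hVp : V (j - 1) = V j + (0, 1) := by
        rw [hprev, hd]
        ext <;> simp
      have hprevpos : ∀ (p : Pt) (i : ℕ), i ≤ j →
          vx p (0, 1) (rev (t.take (j - 1))) i = V (j - i) - V j + p := by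
        intro p i hi
        rw [hV]
        exact pos_rev hj1 (by omega) p (by rw [hd]; decide) i hi
      -- the word P
      have hPpos : ∀ i, i ≤ j → vx oo up (false :: true :: rev (t.take (j - 1))) (i + 2) =
          V (j - i) - (V j - (1, 1)) := by
        intro i hi
        rw [hlead _ true (0, 1) (by decide) i, hprevpos (1, 1) i hi]
        abel
      have hPlen : (false :: true :: rev (t.take (j - 1))).length = j + 1 := by
        rw [List.length_cons, List.length_cons, rev_length, List.length_take]
        omega
      obtain ⟨π, hπ⟩ : ∃ π : ℕ → Pt, π = fun i => if i = 1 then V j - (1, 0) else V (j - (i - 2)) := ⟨_, rfl⟩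
      have hPπ : ∀ i, 1 ≤ i → i ≤ j + 1 → vx oo up (false :: true :: rev (t.take (j - 1))) i =
          π i - (V j - (1, 1)) := by
        intro i h1 h2
        rw [hπ]
        rcases Nat.lt_or_ge i 2 with h | h
        · have h3 : i = 1 := by omega
          subst h3
          rw [vx_one]
          simp only [if_true]
          rw [_root_.sub_sub_sub_cancel_left]
          rfl
        · obtain ⟨i', rfl⟩ : ∃ i', i = i' + 2 := ⟨i - 2, by omega⟩
          rw [hPpos i' (by omega)]
          simp only [show ¬ (i' + 2 = 1) by omega, if_false, Nat.add_sub_cancel]
      have hP : false :: true :: rev (t.take (j - 1)) ∈ SSt m := by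
        refine mem_SSt_of hb0 (π := π) ?_ ?_ ?_
        · intro i h1 h2
          rw [hPlen] at h2
          exact hPπ i h1 h2
        · intro i h1 h2
          rw [hPlen] at h2
          rw [hπ]
          by_cases h3 : i = 1
          · simp only [h3, if_true]
            rw [ha1l]
            constructor
            · omega
            · have : (1 : ℤ) ≤ m := by exact_mod_cast hm1
              omega
          · simp only [h3, if_false]
            rw [hlevip]
            have h4 := hlow (j - (i - 2)) (by omega) (by omega)
            have h5 := hhigh (j - (i - 2)) (by omega) (by omega)
            constructor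
            · omega
            · exact h5
        · intro i k h1 h2 h3
          rw [hPlen] at h3
          rw [hπ]
          by_cases h4 : i = 1
          · simp only [h4, if_true, show ¬ (k = 1) by omega, if_false]
            exact (ha1 _ (by omega) (by omega)).symm
          · simp only [h4, if_false, show ¬ (k = 1) by omega]
            exact hinj' _ _ (by omega) (by omega) (by omega)
      rcases Nat.lt_or_ge j n with hjn' | hjn'
      · -- interior vertex: B1
        rcases stepE (t := t) hev with hd2 | hd2 | hd2
        · exfalso
          have h3 : V (j + 1) = V j + (0, 1) := by
            rw [hV]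
            exact vx_next t j _ hd2
          exact hinj (j - 1) (j + 1) (by omega) (by omega) (hVp.trans h3.symm)
        · exfalso
          have h3 : V (j + 1) = V j + (-1, 0) := by
            rw [hV]
            exact vx_next t j _ hd2
          refine ha1 (j + 1) (by omega) (by omega) ?_
          rw [h3]
          ext <;> simp; omega
        · have hVn : V (j + 1) = V j + (1, -1) := by
            rw [hV]
            exact vx_next t j _ hd2
          have hodd2 : ¬ Even (j + 1) := by
            obtain ⟨a, ha⟩ := hev
            rintro ⟨b, hb⟩
            omega
          right; right; left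
          refine ⟨_, hP, false :: t.drop (j + 1), ?_⟩
          have hdir : j + 1 < n → dx up t (j + 1) = (1, 0) := by
            intro h
            rcases stepO (t := t) hodd2 with h3 | h3 | h3
            · exfalso
              have h4 : V (j + 2) = V (j + 1) + (0, -1) := by
                rw [hV]
                exact vx_next t (j + 1) _ h3
              have h5 := hlow (j + 2) (by omega) (by omega)
              rw [hlevV, h4, hVn] at h5
              simp only [Prod.fst_add, Prod.snd_add] at h5
              omega
            · exfalso
              have h4 : V (j + 2) = V (j + 1) + (-1, 1) := by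
                rw [hV]
                exact vx_next t (j + 1) _ h3
              refine hinj j (j + 2) (by omega) (by omega) ?_
              rw [h4, hVn]
              ext <;> simp <;> omega
            · exact h3
          have hQlen : (false :: t.drop (j + 1)).length = n - j := by
            rw [List.length_cons, List.length_drop]
            omega
          have hQpos : ∀ i, 1 ≤ i → i ≤ n - j → vx oo up (false :: t.drop (j + 1)) i =
              V (j + i) - (V (j + 1) - (0, 1)) := by
            intro i h1 h2
            obtain ⟨i', rfl⟩ : ∃ i', i = i' + 1 := ⟨i - 1, by omega⟩
            rw [vx_cons1]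
            rcases Nat.eq_zero_or_pos i' with h3 | h3
            · subst h3
              rw [show j + (0 + 1) = j + 1 by omega]
              show (0, 1) = _
              abel
            · have h4 := pos_drop t (j + 1) (0, 1) i'
              rw [hdir (by omega)] at h4
              have h5 : turn false up = (1, 0) := by decide
              rw [h5, h4, ← hV, show j + 1 + i' = j + (i' + 1) by omega]
              abel
          have hbQ : ip (V (j + 1) - (0, 1)) up = 3 * ρ := by
            rw [ipup_xy, hVn]
            simp only [Prod.fst_sub, Prod.snd_sub, Prod.fst_add, Prod.snd_add]
            omega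
          have hQ : false :: t.drop (j + 1) ∈ SSt m := by
            refine mem_SSt_of hbQ (π := fun i => V (j + i)) ?_ ?_ ?_
            · intro i h1 h2
              rw [hQlen] at h2
              exact hQpos i h1 h2
            · intro i h1 h2
              rw [hQlen] at h2
              rw [hlevip]
              have h4 := hlow (j + i) (by omega) (by omega)
              have h5 := hhigh (j + i) (by omega) (by omega)
              constructor
              · omega
              · exact h5
            · intro i k h1 h2 h3
              rw [hQlen] at h3
              exact hinj _ _ (by omega) (by omega)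
          refine ⟨hQ, ?_, tf t j, ?_, ?_, ?_⟩
          · unfold Dj
            rw [Set.disjoint_left]
            rintro p ⟨i, hi1, hi2, hi3⟩ ⟨k, hk1, hk2, hk3⟩
            rw [hPlen] at hi2
            rw [hQlen] at hk2
            rw [vx_foot, hPπ i hi1 hi2] at hi3
            rw [vx_foot, hQpos k hk1 hk2] at hk3
            have h3 : π i = V (j + k) := by
              have h4 := hi3.trans hk3.symm
              rw [hVn] at h4
              have e1 : (0 : ℤ) • hz up = 0 := by rw [zero_smul]
              have e2 : (1 : ℤ) • hz up = (2, -1) := by rw [one_smul]; decide
              rw [e1, e2] at h4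
              have h5 := congrArg Prod.fst h4
              have h6 := congrArg Prod.snd h4
              simp only [Prod.fst_sub, Prod.snd_sub, Prod.fst_add, Prod.snd_add, Prod.fst_zero, Prod.snd_zero]
                at h5 h6
              ext
              · omega
              · omega
            rw [hπ] at h3
            by_cases h4 : i = 1
            · simp only [h4, if_true] at h3
              exact ha1 _ (by omega) (by omega) h3.symm
            · simp only [h4, if_false] at h3
              exact hinj _ _ (by omega) (by omega) h3
          · have hb : tf t (j - 1) = true := by
              have h3 := dx_succ up t (j - 1)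
              rw [show j - 1 + 1 = j by omega, hd, hd2] at h3
              revert h3
              cases tf t (j - 1) <;> decide
            have h4 := take_split2 (t := t) (j := j - 1) (by omega)
            rw [show j - 1 + 1 = j by omega, show j - 1 + 2 = j + 1 by omega, hb] at h4
            simp only [List.drop_succ_cons, List.drop_zero]
            rw [rev_rev]
            exact h4
          · rw [hPlen, hQlen]
            omega
          · have e1 := hPpos (j - 1) (by omega)
            rw [show j - 1 + 2 = j + 1 by omega, show j - (j - 1) = 1 by omega] at e1
            have e2 := hQpos (n - j) (by omega) le_rfl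
            rw [show j + (n - j) = n by omega] at e2
            rw [hPlen, hQlen, hlv _ _ _ _ e1, hlv _ _ _ _ e2, hlevip, hlevip, hb0, hbQ, hlev1, hn]
            omega
      · -- the end: R
        have hjn2 : j = n := by omega
        right; left
        refine ⟨_, hP, tf t (n - 1), ?_, ?_, ?_⟩
        · simp only [List.drop_succ_cons, List.drop_zero]
          rw [rev_rev, hjn2]
          exact take_split1 hn hpos
        · rw [hPlen]
          omega
        · have e1 := hPpos (j - 1) (by omega)
          rw [show j - 1 + 2 = j + 1 by omega, show j - (j - 1) = 1 by omega] at e1
          rw [hPlen, hlv _ _ _ _ e1, hlevip, hb0, hlev1, hn, ← hjn2, hlj]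
          omega
    · -- from the right
      have hVp : V (j - 1) = V j + (1, -1) := by
        rw [hprev, hd]
        ext <;> simp
      rcases Nat.lt_or_ge j n with hjn' | hjn'
      · rcases stepE (t := t) hev with hd2 | hd2 | hd2
        · -- B2
          have hVn : V (j + 1) = V j + (0, 1) := by
            rw [hV]
            exact vx_next t j _ hd2
          have hj4 : 3 ≤ j := by
            by_contra hcon
            have h3 : j = 2 := by omega
            have h4 := hlevV 1
            rw [hlev1, show (1 : ℕ) = j - 1 by omega, hVp] at h4
            simp only [Prod.fst_add, Prod.snd_add] at h4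
            omega
          have hprev2 : V (j - 1) = V (j - 2) + dx up t (j - 2) := by
            rw [hV]
            have := vx_succ oo up t (j - 2)
            rwa [show j - 2 + 1 = j - 1 by omega] at this
          have hev2 : Even (j - 2) := by
            obtain ⟨a, ha⟩ := hev
            exact ⟨a - 1, by omega⟩
          have hdir : dx up t (j - 2) = (-1, 0) := by
            rcases stepE (t := t) hev2 with h3 | h3 | h3
            · exfalso
              have h5 := hlow (j - 2) (by omega) (by omega)
              rw [h3] at hprev2
              have h6 : V (j - 2) = V (j - 1) - (0, 1) := by rw [hprev2, add_sub_cancel_right]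
              rw [hlevV, h6, hVp] at h5
              simp only [Prod.fst_add, Prod.snd_add, Prod.fst_sub, Prod.snd_sub] at h5
              omega
            · exact h3
            · exfalso
              rw [h3] at hprev2
              refine hinj (j - 2) j (by omega) (by omega) ?_
              have h6 : V (j - 2) = V (j - 1) - (1, -1) := by rw [hprev2, add_sub_cancel_right]
              rw [h6, hVp, add_sub_cancel_right]
          -- P
          have hPpos : ∀ i, vx oo up (false :: true :: t.drop j) (i + 2) = V (j + i) - (V j - (1, 1)) := by
            intro i
            rw [hlead _ true (0, 1) (by decide) i]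
            have h4 := pos_drop t j (1, 1) i
            rw [hd2] at h4
            rw [h4, ← hV]
            abel
          have hPlen : (false :: true :: t.drop j).length = n - j + 2 := by
            rw [List.length_cons, List.length_cons, List.length_drop]
            omega
          obtain ⟨π, hπ⟩ : ∃ π : ℕ → Pt, π = fun i => if i = 1 then V j - (1, 0) else V (j + (i - 2)) := ⟨_, rfl⟩
          have hPπ : ∀ i, 1 ≤ i → i ≤ n - j + 2 → vx oo up (false :: true :: t.drop j) i =
              π i - (V j - (1, 1)) := by
            intro i h1 h2
            rw [hπ]
            rcases Nat.lt_or_ge i 2 with h | h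
            · have h3 : i = 1 := by omega
              subst h3
              rw [vx_one]
              simp only [if_true]
              rw [_root_.sub_sub_sub_cancel_left]
              rfl
            · obtain ⟨i', rfl⟩ : ∃ i', i = i' + 2 := ⟨i - 2, by omega⟩
              rw [hPpos i']
              simp only [show ¬ (i' + 2 = 1) by omega, if_false, Nat.add_sub_cancel]
          have hP : false :: true :: t.drop j ∈ SSt m := by
            refine mem_SSt_of hb0 (π := π) ?_ ?_ ?_
            · intro i h1 h2
              rw [hPlen] at h2
              exact hPπ i h1 h2
            · intro i h1 h2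
              rw [hPlen] at h2
              rw [hπ]
              by_cases h3 : i = 1
              · simp only [h3, if_true]
                rw [ha1l]
                constructor
                · omega
                · have : (1 : ℤ) ≤ m := by exact_mod_cast hm1
                  omega
              · simp only [h3, if_false]
                rw [hlevip]
                have h4 := hlow (j + (i - 2)) (by omega) (by omega)
                have h5 := hhigh (j + (i - 2)) (by omega) (by omega)
                constructor
                · omega
                · exact h5
            · intro i k h1 h2 h3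
              rw [hPlen] at h3
              rw [hπ]
              by_cases h4 : i = 1
              · simp only [h4, if_true, show ¬ (k = 1) by omega, if_false]
                exact (ha1 _ (by omega) (by omega)).symm
              · simp only [h4, if_false, show ¬ (k = 1) by omega]
                exact hinj' _ _ (by omega) (by omega) (by omega)
          -- Q
          have hQlen : (false :: rev (t.take (j - 2))).length = j - 1 := by
            rw [List.length_cons, rev_length, List.length_take]
            omega
          have hQpos : ∀ i, 1 ≤ i → i ≤ j - 1 → vx oo up (false :: rev (t.take (j - 2))) i =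
              V (j - i) - (V (j - 1) - (0, 1)) := by
            intro i h1 h2
            obtain ⟨i', rfl⟩ : ∃ i', i = i' + 1 := ⟨i - 1, by omega⟩
            rw [vx_cons1]
            have h4 := pos_rev (t := t) (j := j - 1) (by omega) (by omega) (0, 1) (d := (1, 0))
              (by rw [show j - 1 - 1 = j - 2 by omega, hdir]; decide) i' (by omega)
            have h5 : turn false up = (1, 0) := by decide
            rw [show j - 1 - 1 = j - 2 by omega] at h4
            rw [h5, h4, ← hV, show j - 1 - i' = j - (i' + 1) by omega]
            abel
          have hbQ : ip (V (j - 1) - (0, 1)) up = 3 * ρ := by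
            rw [ipup_xy, hVp]
            simp only [Prod.fst_sub, Prod.snd_sub, Prod.fst_add, Prod.snd_add]
            omega
          have hQ : false :: rev (t.take (j - 2)) ∈ SSt m := by
            refine mem_SSt_of hbQ (π := fun i => V (j - i)) ?_ ?_ ?_
            · intro i h1 h2
              rw [hQlen] at h2
              exact hQpos i h1 h2
            · intro i h1 h2
              rw [hQlen] at h2
              rw [hlevip]
              have h4 := hlow (j - i) (by omega) (by omega)
              have h5 := hhigh (j - i) (by omega) (by omega)
              constructor
              · omega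
              · exact h5
            · intro i k h1 h2 h3
              rw [hQlen] at h3
              exact hinj' _ _ (by omega) (by omega) (by omega)
          right; right; right
          refine ⟨_, hP, _, hQ, ?_, ?_, ?_, ?_⟩
          · unfold Dj
            rw [Set.disjoint_left]
            rintro p ⟨i, hi1, hi2, hi3⟩ ⟨k, hk1, hk2, hk3⟩
            rw [hPlen] at hi2
            rw [hQlen] at hk2
            rw [vx_foot, hPπ i hi1 hi2] at hi3
            rw [vx_foot, hQpos k hk1 hk2] at hk3
            have h3 : π i = V (j - k) := by
              have h4 := hi3.trans hk3.symm
              rw [hVp] at h4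
              have e1 : (0 : ℤ) • hz up = 0 := by rw [zero_smul]
              have e2 : (1 : ℤ) • hz up = (2, -1) := by rw [one_smul]; decide
              rw [e1, e2] at h4
              have h5 := congrArg Prod.fst h4
              have h6 := congrArg Prod.snd h4
              simp only [Prod.fst_sub, Prod.snd_sub, Prod.fst_add, Prod.snd_add, Prod.fst_zero, Prod.snd_zero]
                at h5 h6
              ext
              · omega
              · omega
            rw [hπ] at h3
            by_cases h4 : i = 1
            · simp only [h4, if_true] at h3
              exact ha1 _ (by omega) (by omega) h3.symm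
            · simp only [h4, if_false] at h3
              exact hinj' _ _ (by omega) (by omega) (by omega) h3
          · have hb : tf t (j - 2) = false := by
              have h3 := dx_succ up t (j - 2)
              rw [show j - 2 + 1 = j - 1 by omega, hd, hdir] at h3
              revert h3
              cases tf t (j - 2) <;> decide
            have hb2 : tf t (j - 1) = false := by
              have h3 := dx_succ up t (j - 1)
              rw [show j - 1 + 1 = j by omega, hd, hd2] at h3
              revert h3
              cases tf t (j - 1) <;> decide
            have h4 := take_split2 (t := t) (j := j - 2) (by omega)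
            rw [show j - 2 + 1 = j - 1 by omega, show j - 2 + 2 = j by omega, hb, hb2] at h4
            simp only [List.drop_succ_cons, List.drop_zero]
            rw [rev_rev]
            exact h4
          · rw [hPlen, hQlen]
            omega
          · have e1 := hPpos (n - j)
            rw [show j + (n - j) = n by omega] at e1
            have e2 := hQpos (j - 1) (by omega) le_rfl
            rw [show j - (j - 1) = 1 by omega] at e2
            rw [hPlen, hQlen, hlv _ _ _ _ e1, hlv _ _ _ _ e2, hlevip, hlevip, hb0, hbQ, hlev1, hn]
            omega
        · exfalso
          have h3 : V (j + 1) = V j + (-1, 0) := by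
            rw [hV]
            exact vx_next t j _ hd2
          refine ha1 (j + 1) (by omega) (by omega) ?_
          rw [h3]
          ext <;> simp <;> omega
        · exfalso
          have h3 : V (j + 1) = V j + (1, -1) := by
            rw [hV]
            exact vx_next t j _ hd2
          exact hinj (j - 1) (j + 1) (by omega) (by omega) (hVp.trans h3.symm)
      · -- the end, coming from the right
        have hjn2 : j = n := by omega
        have hPpos : ∀ i, i ≤ j → vx oo up (false :: false :: rev (t.take (j - 1))) (i + 2) =
            V (j - i) - (V j - (1, 1)) := by
          intro i hi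
          rw [hlead _ false (1, -1) (by decide) i, pos_rev hj1 (by omega) (1, 1) (d := (1, -1))
            (by rw [hd]; decide) i hi, ← hV]
          abel
        have hPlen : (false :: false :: rev (t.take (j - 1))).length = j + 1 := by
          rw [List.length_cons, List.length_cons, rev_length, List.length_take]
          omega
        obtain ⟨π, hπ⟩ : ∃ π : ℕ → Pt, π = fun i => if i = 1 then V j - (1, 0) else V (j - (i - 2)) := ⟨_, rfl⟩
        have hP : false :: false :: rev (t.take (j - 1)) ∈ SSt m := by
          refine mem_SSt_of hb0 (π := π) ?_ ?_ ?_
          · intro i h1 h2
            rw [hPlen] at h2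
            rw [hπ]
            rcases Nat.lt_or_ge i 2 with h | h
            · have h3 : i = 1 := by omega
              subst h3
              rw [vx_one]
              simp only [if_true]
              rw [_root_.sub_sub_sub_cancel_left]
              rfl
            · obtain ⟨i', rfl⟩ : ∃ i', i = i' + 2 := ⟨i - 2, by omega⟩
              rw [hPpos i' (by omega)]
              simp only [show ¬ (i' + 2 = 1) by omega, if_false, Nat.add_sub_cancel]
          · intro i h1 h2
            rw [hPlen] at h2
            rw [hπ]
            by_cases h3 : i = 1
            · simp only [h3, if_true]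
              rw [ha1l]
              constructor
              · omega
              · have : (1 : ℤ) ≤ m := by exact_mod_cast hm1
                omega
            · simp only [h3, if_false]
              rw [hlevip]
              have h4 := hlow (j - (i - 2)) (by omega) (by omega)
              have h5 := hhigh (j - (i - 2)) (by omega) (by omega)
              constructor
              · omega
              · exact h5
          · intro i k h1 h2 h3
            rw [hPlen] at h3
            rw [hπ]
            by_cases h4 : i = 1
            · simp only [h4, if_true, show ¬ (k = 1) by omega, if_false]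
              exact (ha1 _ (by omega) (by omega)).symm
            · simp only [h4, if_false, show ¬ (k = 1) by omega]
              exact hinj' _ _ (by omega) (by omega) (by omega)
        right; left
        refine ⟨_, hP, tf t (n - 1), ?_, ?_, ?_⟩
        · simp only [List.drop_succ_cons, List.drop_zero]
          rw [rev_rev, hjn2]
          exact take_split1 hn hpos
        · rw [hPlen]
          omega
        · have e1 := hPpos (j - 1) (by omega)
          rw [show j - 1 + 2 = j + 1 by omega, show j - (j - 1) = 1 by omega] at e1
          rw [hPlen, hlv _ _ _ _ e1, hlevip, hb0, hlev1, hn, ← hjn2, hlj]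
          omega
    · -- from the left: impossible
      exfalso
      refine ha1 (j - 1) (by omega) (by omega) ?_
      rw [hprev, hd, add_sub_cancel_right]
  · -- odd vertex
    rw [if_neg hev] at hmj
    have hlj : lev t j = 3 * ρ + 2 := by omega
    have hlj' := hlevV j
    have hev1 : Even (j - 1) := by
      rcases Nat.even_or_odd j with h | ⟨a, ha⟩
      · exact absurd h hev
      · exact ⟨a, by omega⟩
    have ha1 : ∀ i, 1 ≤ i → i ≤ n → V i ≠ V j + (-1, 1) := by
      intro i h1 h2 heq
      have h3 := hlevV i
      rw [heq] at h3
      simp only [Prod.fst_add, Prod.snd_add] at h3
      have h4 := hleft i h1 h2 (by omega)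
      rw [heq] at h4
      simp only [Prod.fst_add] at h4
      omega
    rcases stepE (t := t) hev1 with hd | hd | hd
    · exfalso
      have h5 := hlow (j - 1) (by omega) (by omega)
      rw [hd] at hprev
      have h6 : V (j - 1) = V j - (0, 1) := by rw [hprev, add_sub_cancel_right]
      rw [hlevV, h6] at h5
      simp only [Prod.fst_sub, Prod.snd_sub] at h5
      omega
    · have hVp : V (j - 1) = V j + (1, 0) := by
        rw [hprev, hd]
        ext <;> simp
      rcases Nat.lt_or_ge j n with hjn' | hjn'
      · exfalso
        rcases stepO (t := t) hev with hd2 | hd2 | hd2
        · have h3 : V (j + 1) = V j + (0, -1) := by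
            rw [hV]
            exact vx_next t j _ hd2
          have h5 := hlow (j + 1) (by omega) (by omega)
          rw [hlevV, h3] at h5
          simp only [Prod.fst_add, Prod.snd_add] at h5
          omega
        · refine ha1 (j + 1) (by omega) (by omega) ?_
          rw [hV]
          exact vx_next t j _ hd2
        · have h3 : V (j + 1) = V j + (1, 0) := by
            rw [hV]
            exact vx_next t j _ hd2
          exact hinj (j - 1) (j + 1) (by omega) (by omega) (hVp.trans h3.symm)
      · -- the end
        have hjn2 : j = n := by omega
        left
        have hRlen : (false :: rev (t.take (j - 1))).length = j := by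
          rw [List.length_cons, rev_length, List.length_take]
          omega
        have hRpos : ∀ i, 1 ≤ i → i ≤ j → vx oo up (false :: rev (t.take (j - 1))) i =
            V (j + 1 - i) - (V j - (0, 1)) := by
          intro i h1 h2
          obtain ⟨i', rfl⟩ : ∃ i', i = i' + 1 := ⟨i - 1, by omega⟩
          rw [vx_cons1]
          have h4 := pos_rev (t := t) (j := j) (by omega) (by omega) (0, 1) (d := (1, 0))
            (by rw [hd]; decide) i' (by omega)
          have h5 : turn false up = (1, 0) := by decide
          rw [h5, h4, ← hV, show j + 1 - (i' + 1) = j - i' by omega]
          abel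
        have hR : false :: rev (t.take (j - 1)) ∈ SSt m := by
          refine mem_SSt_of (ρ := ρ) (b := V j - (0, 1)) (π := fun i => V (j + 1 - i)) ?_ ?_ ?_ ?_
          · rw [ipup_xy]
            simp only [Prod.fst_sub, Prod.snd_sub]
            omega
          · intro i h1 h2
            rw [hRlen] at h2
            exact hRpos i h1 h2
          · intro i h1 h2
            rw [hRlen] at h2
            rw [hlevip]
            have h4 := hlow (j + 1 - i) (by omega) (by omega)
            have h5 := hhigh (j + 1 - i) (by omega) (by omega)
            constructor
            · omega
            · exact h5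
          · intro i k h1 h2 h3
            rw [hRlen] at h3
            exact hinj' _ _ (by omega) (by omega) (by omega)
        refine ⟨_, hR, tf t (n - 1), ?_, ?_, ?_⟩
        · simp only [List.drop_succ_cons, List.drop_zero]
          rw [rev_rev, hjn2]
          exact take_split1 hn hpos
        · rw [hRlen]
          omega
        · have e1 := hRpos j (by omega) le_rfl
          rw [show j + 1 - j = 1 by omega] at e1
          have e3 : ip (V j - (0, 1)) up = 3 * ρ := by
            rw [ipup_xy]
            simp only [Prod.fst_sub, Prod.snd_sub]
            omega
          rw [hRlen, hlv _ _ _ _ e1, hlevip, e3, hlev1, hn, ← hjn2, hlj]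
          omega
    · exfalso
      refine ha1 (j - 1) (by omega) (by omega) ?_
      rw [hprev, hd]
      ext <;> simp


end BAR

end HexObs
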