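import Pool.Agent.GLow.LevLaw
import Pool.Agent.BAR.Growth
import Pool.Agent.BAR.Glue

/-!
GLc, block G6: pairs of scales, dyadic sums and the final form of block GLc.
-/

set_option autoImplicit false

namespace HexObs

open Complex Finset ENNReal

namespace BAR

/-- block G1 -/
def StG1 : Prop := ∀ (m : ℕ) (c : ℤ),
  TwoL m c ≤ 9 * ∑ e ∈ Finset.Icc (-(|c| + 5)) (|c| + 5), (HHe m e + PPe m e)

/-- block G3, one walk -/
def StG3a : Prop := ∀ (m : ℕ) (c : ℤ), HHe m c ≤ 6 * ∑ T ∈ Finset.range (m + 1),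
    ∑ δ ∈ Finset.Icc (-4 : ℤ) 4, WB (Ghe T (3 * T + δ - c)) T

/-- block G3, pairs -/
def StG3b : Prop := ∀ (m : ℕ) (c : ℤ), PPe m c ≤ 36 * ∑ δ ∈ Finset.Icc (-4 : ℤ) 4, ∑ δ' ∈ Finset.Icc (-4 : ℤ) 4,
    ∑ T ∈ Finset.range (m + 1), ∑ T' ∈ Finset.range (m + 1), ∑' e : ℤ,
      JS T fun i r u => JS T' fun i' r' u' =>
        gg i i' * (kh r * WB (Ghe T e) u) * (kh r' * WB (Ghe T' (e + 3 * (T' - T) + (δ' - δ - c))) u')

/-- block G5, fixed depth -/
def StM : Prop := ∀ C : ℝ, 1 ≤ C → ∃ C' : ℝ, 1 ≤ C' ∧ ∀ D : ℕ, 1 ≤ D → ∀ (B : ℝ≥0∞) (W : ℤ → ℕ → ℝ≥0∞),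
    LawW C (2 * D) B W → ∀ n : ℤ, ∑ T ∈ Finset.Ico D (2 * D),
      JS T (fun i r u => ENNReal.ofReal (uu i) * (kh r * W (3 * T - n) u)) ≤
      ENNReal.ofReal (C' * lg D ^ C' / D) * B

/-- block G5, total sum -/
def StS : Prop := ∀ C : ℝ, 1 ≤ C → ∃ C' : ℝ, 1 ≤ C' ∧ ∀ D : ℕ, 1 ≤ D → ∀ (B : ℝ≥0∞) (W : ℤ → ℕ → ℝ≥0∞),
    LawW C (2 * D) B W → ∑ T ∈ Finset.Ico D (2 * D), ∑' e : ℤ,
      JS T (fun i r u => ENNReal.ofReal (uu i / UU i) * (kh r * W e u)) ≤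
      ENNReal.ofReal (C' * lg D ^ C' / UU D) * B

/-- first factor: free scale -/
noncomputable def SEe (T : ℕ) (e : ℤ) : ℝ≥0∞ :=
  JS T fun i r u => ENNReal.ofReal (uu i / UU i) * (kh r * WB (Ghe T e) u)

/-- second factor: fixed depth -/
noncomputable def MEe (T : ℕ) (e : ℤ) : ℝ≥0∞ :=
  JS T fun i r u => ENNReal.ofReal (uu i) * (kh r * WB (Ghe T e) u)

/-- dyadic sum for the fixed depth -/
noncomputable def MH (m : ℕ) : ℝ≥0∞ :=
  ∑ k ∈ Finset.range (Nat.log 2 m + 1), HH (4 * 2 ^ k) * ENNReal.ofReal (1 / 2 ^ k)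

lemma JS_pair {n T T' : ℕ} (hT : T ≤ n) (hT' : T' ≤ n) (X Y : ℕ → ℕ → ℝ≥0∞) {c : ℝ≥0∞}
    (h : ∀ i i' : ℕ, i ≤ n → i' ≤ n → gg i i' ≤ c * (ENNReal.ofReal (uu i / UU i) * ENNReal.ofReal (uu i') +
      ENNReal.ofReal (uu i) * ENNReal.ofReal (uu i' / UU i'))) :
    (JS T fun i r u => JS T' fun i' r' u' => gg i i' * X r u * Y r' u') ≤
      c * ((JS T fun i r u => ENNReal.ofReal (uu i / UU i) * X r u) *
          (JS T' fun i r u => ENNReal.ofReal (uu i) * Y r u) +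
        (JS T fun i r u => ENNReal.ofReal (uu i) * X r u) *
          (JS T' fun i r u => ENNReal.ofReal (uu i / UU i) * Y r u)) := by
  obtain ⟨SY, hSY⟩ : ∃ SY, SY = JS T' fun i r u => ENNReal.ofReal (uu i / UU i) * Y r u := ⟨_, rfl⟩
  obtain ⟨MY, hMY⟩ : ∃ MY, MY = JS T' fun i r u => ENNReal.ofReal (uu i) * Y r u := ⟨_, rfl⟩
  rw [← hSY, ← hMY]
  have h1 : (JS T fun i r u => JS T' fun i' r' u' => gg i i' * X r u * Y r' u') ≤
      JS T fun i r u => (c * MY) * (ENNReal.ofReal (uu i / UU i) * X r u) +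
        (c * SY) * (ENNReal.ofReal (uu i) * X r u) := by
    refine JS_le fun i r u hi _ _ => ?_
    have h2 : (JS T' fun i' r' u' => gg i i' * X r u * Y r' u') ≤
        JS T' fun i' r' u' => (c * (ENNReal.ofReal (uu i / UU i) * X r u)) * (ENNReal.ofReal (uu i') * Y r' u') +
          (c * (ENNReal.ofReal (uu i) * X r u)) * (ENNReal.ofReal (uu i' / UU i') * Y r' u') := by
      refine JS_le fun i' r' u' hi' _ _ => ?_
      refine (mul_le_mul' (mul_le_mul' (h i i' (by omega) (by omega)) le_rfl) le_rfl).trans (le_of_eq ?_)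
      ring
    refine h2.trans (le_of_eq ?_)
    rw [JS_add, ← JS_mul_left, ← JS_mul_left, ← hMY, ← hSY]
    ring
  refine h1.trans (le_of_eq ?_)
  rw [JS_add, ← JS_mul_left, ← JS_mul_left]
  ring

/-- the pairs, one choice of the offsets -/
lemma pair_sum {m : ℕ} {c S M : ℝ≥0∞} (k : ℤ)
    (h : ∀ i i' : ℕ, i ≤ m → i' ≤ m → gg i i' ≤ c * (ENNReal.ofReal (uu i / UU i) * ENNReal.ofReal (uu i') +
      ENNReal.ofReal (uu i) * ENNReal.ofReal (uu i' / UU i')))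
    (hS : ∑ T ∈ Finset.range (m + 1), ∑' e : ℤ, SEe T e ≤ S)
    (hM : ∀ n : ℤ, ∑ T ∈ Finset.range (m + 1), MEe T (3 * T - n) ≤ M) :
    ∑ T ∈ Finset.range (m + 1), ∑ T' ∈ Finset.range (m + 1), ∑' e : ℤ,
      (JS T fun i r u => JS T' fun i' r' u' =>
        gg i i' * (kh r * WB (Ghe T e) u) * (kh r' * WB (Ghe T' (e + 3 * (T' - T) + k)) u')) ≤ c * (2 * (S * M)) := by
  have h1 : ∑ T ∈ Finset.range (m + 1), ∑ T' ∈ Finset.range (m + 1), ∑' e : ℤ,
      (JS T fun i r u => JS T' fun i' r' u' =>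
        gg i i' * (kh r * WB (Ghe T e) u) * (kh r' * WB (Ghe T' (e + 3 * (T' - T) + k)) u')) ≤
      ∑ T ∈ Finset.range (m + 1), ∑ T' ∈ Finset.range (m + 1), ∑' e : ℤ,
        (c * (SEe T e * MEe T' (e + 3 * (T' - T) + k)) + c * (MEe T e * SEe T' (e + 3 * (T' - T) + k))) := by
    refine Finset.sum_le_sum fun T hT => Finset.sum_le_sum fun T' hT' => ENNReal.tsum_le_tsum fun e => ?_
    rw [Finset.mem_range] at hT hT'
    refine (JS_pair (show T ≤ m by omega) (show T' ≤ m by omega) (fun r u => kh r * WB (Ghe T e) u)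
      (fun r u => kh r * WB (Ghe T' (e + 3 * (T' - T) + k)) u) h).trans (le_of_eq ?_)
    rw [mul_add]
    rfl
  refine h1.trans ?_
  have h2 : ∑ T ∈ Finset.range (m + 1), ∑ T' ∈ Finset.range (m + 1), ∑' e : ℤ,
      SEe T e * MEe T' (e + 3 * (T' - T) + k) ≤ S * M := by
    calc ∑ T ∈ Finset.range (m + 1), ∑ T' ∈ Finset.range (m + 1), ∑' e : ℤ,
        SEe T e * MEe T' (e + 3 * (T' - T) + k)
        = ∑ T ∈ Finset.range (m + 1), ∑' e : ℤ, SEe T e *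
            ∑ T' ∈ Finset.range (m + 1), MEe T' (3 * T' - (3 * T - e - k)) := by
          refine Finset.sum_congr rfl fun T _ => ?_
          rw [← Summable.tsum_finsetSum fun i _ => ENNReal.summable]
          refine tsum_congr fun e => ?_
          rw [Finset.mul_sum]
          refine Finset.sum_congr rfl fun T' _ => ?_
          congr 2
          ring
      _ ≤ ∑ T ∈ Finset.range (m + 1), ∑' e : ℤ, SEe T e * M :=
          Finset.sum_le_sum fun T _ => ENNReal.tsum_le_tsum fun e => mul_le_mul' le_rfl (hM _)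
      _ = (∑ T ∈ Finset.range (m + 1), ∑' e : ℤ, SEe T e) * M := by
          simp only [ENNReal.tsum_mul_right]
          rw [Finset.sum_mul]
      _ ≤ S * M := mul_le_mul' hS le_rfl
  have h3 : ∑ T ∈ Finset.range (m + 1), ∑ T' ∈ Finset.range (m + 1), ∑' e : ℤ,
      MEe T e * SEe T' (e + 3 * (T' - T) + k) ≤ S * M := by
    rw [Finset.sum_comm]
    calc ∑ T' ∈ Finset.range (m + 1), ∑ T ∈ Finset.range (m + 1), ∑' e : ℤ,
        MEe T e * SEe T' (e + 3 * (T' - T) + k)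
        = ∑ T' ∈ Finset.range (m + 1), ∑' e : ℤ, SEe T' e *
            ∑ T ∈ Finset.range (m + 1), MEe T (3 * T - (3 * T' - e + k)) := by
          refine Finset.sum_congr rfl fun T' _ => ?_
          have e1 : ∀ T : ℕ, ∑' e : ℤ, MEe T e * SEe T' (e + 3 * (T' - T) + k) =
              ∑' e : ℤ, SEe T' e * MEe T (3 * T - (3 * T' - e + k)) := by
            intro T
            rw [← (Equiv.addRight (3 * ((T' : ℤ) - T) + k)).tsum_eq
              (fun e : ℤ => SEe T' e * MEe T (3 * T - (3 * T' - e + k)))]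
            refine tsum_congr fun e => ?_
            have a1 : (Equiv.addRight (3 * ((T' : ℤ) - T) + k)) e = e + 3 * (T' - T) + k := by
              simp only [Equiv.coe_addRight]
              ring
            rw [a1, mul_comm]
            congr 2
            ring
          simp only [e1]
          rw [← Summable.tsum_finsetSum fun i _ => ENNReal.summable]
          refine tsum_congr fun e => ?_
          rw [Finset.mul_sum]
      _ ≤ ∑ T' ∈ Finset.range (m + 1), ∑' e : ℤ, SEe T' e * M :=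
          Finset.sum_le_sum fun T _ => ENNReal.tsum_le_tsum fun e => mul_le_mul' le_rfl (hM _)
      _ = (∑ T' ∈ Finset.range (m + 1), ∑' e : ℤ, SEe T' e) * M := by
          simp only [ENNReal.tsum_mul_right]
          rw [Finset.sum_mul]
      _ ≤ S * M := mul_le_mul' hS le_rfl
  calc _ = c * ∑ T ∈ Finset.range (m + 1), ∑ T' ∈ Finset.range (m + 1), ∑' e : ℤ,
          SEe T e * MEe T' (e + 3 * (T' - T) + k) +
        c * ∑ T ∈ Finset.range (m + 1), ∑ T' ∈ Finset.range (m + 1), ∑' e : ℤ,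
          MEe T e * SEe T' (e + 3 * (T' - T) + k) := by
        simp only [ENNReal.tsum_add, ENNReal.tsum_mul_left, Finset.sum_add_distrib, Finset.mul_sum]
    _ ≤ c * (S * M) + c * (S * M) := add_le_add (mul_le_mul' le_rfl h2) (mul_le_mul' le_rfl h3)
    _ = c * (2 * (S * M)) := by ring

lemma lg_pow_le {k m : ℕ} {C : ℝ} (hC : 0 ≤ C) (h : k ≤ m) : lg k ^ C ≤ lg m ^ C :=
  Real.rpow_le_rpow (le_trans zero_le_one (lg_one k)) (lg_mono h) hC

lemma two_pow_le {m k : ℕ} (hm : 1 ≤ m) (hk : k < Nat.log 2 m + 1) : 2 ^ k ≤ m :=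
  (Nat.pow_le_pow_right (by norm_num) (by omega)).trans (Nat.pow_log_le_self 2 (by omega))

/-- dyadic decomposition of a sum up to m -/
lemma dyad_le (f : ℕ → ℝ≥0∞) (m : ℕ) : ∑ T ∈ Finset.range (m + 1), f T ≤
    f 0 + ∑ k ∈ Finset.range (Nat.log 2 m + 1), ∑ T ∈ Finset.Ico (2 ^ k) (2 * 2 ^ k), f T := by
  rw [← dyad]
  exact Finset.sum_le_sum_of_subset (Finset.range_subset_range.2 (Nat.lt_pow_succ_log_self (by norm_num) m))

lemma WB_Ghe_mono {T D : ℕ} (h : T < 2 * D) (e : ℤ) (u : ℕ) : WB (Ghe T e) u ≤ WB (Ghe (2 * D) e) u :=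
  WB_mono (fun t => Ghe_mono (by omega) e t) u

/-- bound of the terms of height zero -/
lemma zero_law : ∃ C : ℝ, 1 ≤ C ∧ ∑' e : ℤ, WB (Ghe 0 e) 0 ≤ ENNReal.ofReal C * HH 4 := by
  obtain ⟨C, hC, h⟩ := law
  obtain ⟨F, h1, h2⟩ := h 0 0 le_rfl
  refine ⟨C, hC, (ENNReal.tsum_le_tsum fun e => h1 0 le_rfl le_rfl e).trans (h2.trans ?_)⟩
  refine mul_le_mul' (ENNReal.ofReal_le_ofReal ?_) (HH_mono (by omega))
  have e1 : lg 0 = 1 := by
    unfold lg
    simp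
  have e2 := uu_div_le_one 0
  rw [e1, Real.one_rpow]
  nlinarith

lemma one_le_HH (n : ℕ) : 1 ≤ HH n := by
  have h4 : gf {([] : List Bool)} ≤ HH n := gf_mono (by
    rintro w rfl
    exact nil_SSt n)
  refine le_trans (le_of_eq ?_) h4
  unfold gf
  rw [tsum_singleton]
  unfold wE
  simp

lemma HH4_le_MH (m : ℕ) : HH 4 ≤ MH m := by
  have h1 : HH (4 * 2 ^ 0) * ENNReal.ofReal (1 / 2 ^ 0) ≤ MH m := by
    unfold MH
    exact Finset.single_le_sum (f := fun k => HH (4 * 2 ^ k) * ENNReal.ofReal (1 / 2 ^ k))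
      (fun _ _ => zero_le) (Finset.mem_range.2 (Nat.succ_pos (Nat.log 2 m)))
  simpa using h1

/-- total of the free factor -/
lemma S_tot (hS : StS) : ∃ C : ℝ, 1 ≤ C ∧ ∀ m : ℕ, 1 ≤ m →
    ∑ T ∈ Finset.range (m + 1), ∑' e : ℤ, SEe T e ≤ ENNReal.ofReal (C * lg m ^ C) * SH m := by
  obtain ⟨C0, hC0, hlaw⟩ := law
  obtain ⟨C1, hC1, h1⟩ := hS C0 hC0
  obtain ⟨C2, hC2, h2⟩ := zero_law
  refine ⟨C1 + 2 * C2, by linarith, ?_⟩
  intro m hm
  have hL := lg_one m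
  have hL0 : 0 < lg m := by linarith
  have hz : ∑' e : ℤ, SEe 0 e ≤ ENNReal.ofReal (2 * C2) * SH m := by
    have e1 : ∀ e : ℤ, SEe 0 e ≤ WB (Ghe 0 e) 0 := by
      intro e
      have a1 : SEe 0 e = ENNReal.ofReal (uu 0 / UU 0) * (kh 0 * WB (Ghe 0 e) 0) := by
        unfold SEe JS
        rw [if_pos rfl]
      have a2 : kh 0 = 1 := if_pos rfl
      rw [a1, a2, one_mul]
      refine mul_le_of_le_one_left' ?_
      rw [← ENNReal.ofReal_one]
      exact ENNReal.ofReal_le_ofReal (uu_div_le_one 0)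
    refine (ENNReal.tsum_le_tsum e1).trans (h2.trans ((mul_le_mul' le_rfl (HH4_le m)).trans (le_of_eq ?_)))
    rw [ENNReal.ofReal_mul (by norm_num)]
    have e2 : ENNReal.ofReal 2 = 2 := by norm_num
    rw [e2]
    ring
  have hb : ∀ k ∈ Finset.range (Nat.log 2 m + 1), ∑ T ∈ Finset.Ico (2 ^ k) (2 * 2 ^ k), ∑' e : ℤ, SEe T e ≤
      ENNReal.ofReal (C1 * lg m ^ C1) * (HH (4 * 2 ^ k) * ENNReal.ofReal (1 / UU (2 ^ k))) := by
    intro k hk
    have hkm := two_pow_le hm (Finset.mem_range.1 hk)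
    have hD1 : 1 ≤ 2 ^ k := Nat.one_le_two_pow
    have hUD : 0 < UU (2 ^ k) := Num2Aux.UU_pos _
    have a1 : ∑ T ∈ Finset.Ico (2 ^ k) (2 * 2 ^ k), ∑' e : ℤ, SEe T e ≤
        ∑ T ∈ Finset.Ico (2 ^ k) (2 * 2 ^ k), ∑' e : ℤ,
          JS T (fun i r u => ENNReal.ofReal (uu i / UU i) * (kh r * WB (Ghe (2 * 2 ^ k) e) u)) := by
      refine Finset.sum_le_sum fun T hT => ENNReal.tsum_le_tsum fun e => JS_mono fun i r u => ?_
      exact mul_le_mul' le_rfl (mul_le_mul' le_rfl (WB_Ghe_mono (Finset.mem_Ico.1 hT).2 e u))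
    refine a1.trans ((h1 (2 ^ k) hD1 (HH (2 * (2 * 2 ^ k))) (fun e u => WB (Ghe (2 * 2 ^ k) e) u)
      (hlaw (2 * 2 ^ k))).trans ?_)
    have e1 : 2 * (2 * 2 ^ k) = 4 * 2 ^ k := by ring
    rw [e1]
    have h5 : ENNReal.ofReal (C1 * lg (2 ^ k) ^ C1 / UU (2 ^ k)) ≤
        ENNReal.ofReal (C1 * lg m ^ C1) * ENNReal.ofReal (1 / UU (2 ^ k)) := by
      rw [← ENNReal.ofReal_mul (by positivity)]
      apply ENNReal.ofReal_le_ofReal
      rw [mul_one_div]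
      refine div_le_div_of_nonneg_right ?_ hUD.le
      exact mul_le_mul_of_nonneg_left (lg_pow_le (by linarith) hkm) (by linarith)
    refine (mul_le_mul' h5 le_rfl).trans (le_of_eq ?_)
    ring
  refine (dyad_le _ m).trans ?_
  calc _ ≤ ENNReal.ofReal (2 * C2) * SH m + ∑ k ∈ Finset.range (Nat.log 2 m + 1),
        ENNReal.ofReal (C1 * lg m ^ C1) * (HH (4 * 2 ^ k) * ENNReal.ofReal (1 / UU (2 ^ k))) :=
        add_le_add hz (Finset.sum_le_sum hb)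
    _ = ENNReal.ofReal (2 * C2 + C1 * lg m ^ C1) * SH m := by
        rw [← Finset.mul_sum, ENNReal.ofReal_add (by linarith) (by positivity), add_mul]
        rfl
    _ ≤ _ := by
        refine mul_le_mul' (ENNReal.ofReal_le_ofReal ?_) le_rfl
        have h3 : lg m ^ C1 ≤ lg m ^ (C1 + 2 * C2) := Real.rpow_le_rpow_of_exponent_le hL (by linarith)
        have h4 : (1 : ℝ) ≤ lg m ^ (C1 + 2 * C2) := Real.one_le_rpow hL (by linarith)
        nlinarith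

/-- total of the factor with fixed depth -/
lemma M_tot (hM : StM) : ∃ C : ℝ, 1 ≤ C ∧ ∀ m : ℕ, 1 ≤ m → ∀ n : ℤ,
    ∑ T ∈ Finset.range (m + 1), MEe T (3 * T - n) ≤ ENNReal.ofReal (C * lg m ^ C) * MH m := by
  obtain ⟨C0, hC0, hlaw⟩ := law
  obtain ⟨C1, hC1, h1⟩ := hM C0 hC0
  obtain ⟨C2, hC2, h2⟩ := zero_law
  refine ⟨C1 + C2, by linarith, ?_⟩
  intro m hm n
  have hL := lg_one m
  have hL0 : 0 < lg m := by linarith
  have hz : MEe 0 (3 * ((0 : ℕ) : ℤ) - n) ≤ ENNReal.ofReal C2 * MH m := by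
    have a1 : MEe 0 (3 * ((0 : ℕ) : ℤ) - n) =
        ENNReal.ofReal (uu 0) * (kh 0 * WB (Ghe 0 (3 * ((0 : ℕ) : ℤ) - n)) 0) := by
      unfold MEe JS
      rw [if_pos rfl]
    have a2 : kh 0 = 1 := if_pos rfl
    rw [a1, a2, one_mul, Num2Aux.zero, ENNReal.ofReal_one, one_mul]
    exact ((ENNReal.le_tsum (f := fun e : ℤ => WB (Ghe 0 e) 0) _).trans h2).trans
      (mul_le_mul' le_rfl (HH4_le_MH m))
  have hb : ∀ k ∈ Finset.range (Nat.log 2 m + 1), ∑ T ∈ Finset.Ico (2 ^ k) (2 * 2 ^ k), MEe T (3 * T - n) ≤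
      ENNReal.ofReal (C1 * lg m ^ C1) * (HH (4 * 2 ^ k) * ENNReal.ofReal (1 / 2 ^ k)) := by
    intro k hk
    have hkm := two_pow_le hm (Finset.mem_range.1 hk)
    have hD1 : 1 ≤ 2 ^ k := Nat.one_le_two_pow
    have a1 : ∑ T ∈ Finset.Ico (2 ^ k) (2 * 2 ^ k), MEe T (3 * T - n) ≤
        ∑ T ∈ Finset.Ico (2 ^ k) (2 * 2 ^ k),
          JS T (fun i r u => ENNReal.ofReal (uu i) * (kh r * WB (Ghe (2 * 2 ^ k) (3 * T - n)) u)) := by
      refine Finset.sum_le_sum fun T hT => JS_mono fun i r u => ?_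
      exact mul_le_mul' le_rfl (mul_le_mul' le_rfl (WB_Ghe_mono (Finset.mem_Ico.1 hT).2 _ u))
    refine a1.trans ((h1 (2 ^ k) hD1 (HH (2 * (2 * 2 ^ k))) (fun e u => WB (Ghe (2 * 2 ^ k) e) u)
      (hlaw (2 * 2 ^ k)) n).trans ?_)
    have e1 : 2 * (2 * 2 ^ k) = 4 * 2 ^ k := by ring
    rw [e1]
    have h5 : ENNReal.ofReal (C1 * lg (2 ^ k) ^ C1 / ((2 ^ k : ℕ) : ℝ)) ≤
        ENNReal.ofReal (C1 * lg m ^ C1) * ENNReal.ofReal (1 / 2 ^ k) := by
      rw [← ENNReal.ofReal_mul (by positivity)]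
      apply ENNReal.ofReal_le_ofReal
      rw [mul_one_div]
      push_cast
      refine div_le_div_of_nonneg_right ?_ (by positivity)
      exact mul_le_mul_of_nonneg_left (lg_pow_le (by linarith) hkm) (by linarith)
    refine (mul_le_mul' h5 le_rfl).trans (le_of_eq ?_)
    ring
  refine (dyad_le _ m).trans ?_
  calc _ ≤ ENNReal.ofReal C2 * MH m + ∑ k ∈ Finset.range (Nat.log 2 m + 1),
        ENNReal.ofReal (C1 * lg m ^ C1) * (HH (4 * 2 ^ k) * ENNReal.ofReal (1 / 2 ^ k)) :=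
        add_le_add hz (Finset.sum_le_sum hb)
    _ = ENNReal.ofReal (C2 + C1 * lg m ^ C1) * MH m := by
        rw [← Finset.mul_sum, ENNReal.ofReal_add (by linarith) (by positivity), add_mul]
        rfl
    _ ≤ _ := by
        refine mul_le_mul' (ENNReal.ofReal_le_ofReal ?_) le_rfl
        have h3 : lg m ^ C1 ≤ lg m ^ (C1 + C2) := Real.rpow_le_rpow_of_exponent_le hL (by linarith)
        have h4 : (1 : ℝ) ≤ lg m ^ (C1 + C2) := Real.one_le_rpow hL (by linarith)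
        nlinarith

/-- total of the bridges with one hanging walk, fixed depth -/
lemma H_tot : ∃ C : ℝ, 1 ≤ C ∧ ∀ m : ℕ, 1 ≤ m → ∀ n : ℤ,
    ∑ T ∈ Finset.range (m + 1), WB (Ghe T (3 * T - n)) T ≤ ENNReal.ofReal (C * lg m ^ C) * MH m := by
  obtain ⟨C1, hC1, hlaw⟩ := law
  obtain ⟨C2, hC2, h2⟩ := zero_law
  refine ⟨C1 + C2, by linarith, ?_⟩
  intro m hm n
  have hL := lg_one m
  have hL0 : 0 < lg m := by linarith
  have hz : WB (Ghe 0 (3 * ((0 : ℕ) : ℤ) - n)) 0 ≤ ENNReal.ofReal C2 * MH m :=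
    ((ENNReal.le_tsum (f := fun e : ℤ => WB (Ghe 0 e) 0) _).trans h2).trans (mul_le_mul' le_rfl (HH4_le_MH m))
  have hb : ∀ k ∈ Finset.range (Nat.log 2 m + 1), ∑ T ∈ Finset.Ico (2 ^ k) (2 * 2 ^ k), WB (Ghe T (3 * T - n)) T ≤
      ENNReal.ofReal (C1 * lg m ^ C1) * (HH (4 * 2 ^ k) * ENNReal.ofReal (1 / 2 ^ k)) := by
    intro k hk
    have hkm := two_pow_le hm (Finset.mem_range.1 hk)
    have hD1 : 1 ≤ 2 ^ k := Nat.one_le_two_pow
    obtain ⟨F, hF1, hF2⟩ := hlaw (2 * 2 ^ k) (2 ^ k) (by omega)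
    have a1 : ∑ T ∈ Finset.Ico (2 ^ k) (2 * 2 ^ k), WB (Ghe T (3 * T - n)) T ≤
        ∑ T ∈ Finset.Ico (2 ^ k : ℕ) (2 * 2 ^ k), F (3 * (T : ℤ) - n) := by
      refine Finset.sum_le_sum fun T hT => ?_
      have hT' := Finset.mem_Ico.1 hT
      exact (WB_Ghe_mono hT'.2 _ T).trans (hF1 T hT'.1 (by omega) _)
    have a2 : ∑ T ∈ Finset.Ico (2 ^ k : ℕ) (2 * 2 ^ k), F (3 * (T : ℤ) - n) ≤ ∑' e : ℤ, F e := by
      have a3 : ∑ T ∈ Finset.Ico (2 ^ k : ℕ) (2 * 2 ^ k), F (3 * (T : ℤ) - n) =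
          ∑ e ∈ (Finset.Ico (2 ^ k : ℕ) (2 * 2 ^ k)).map ⟨fun T : ℕ => 3 * (T : ℤ) - n, fun a b hab => by
            simp only [sub_left_inj] at hab
            omega⟩, F e := by
        rw [Finset.sum_map]
        rfl
      rw [a3]
      exact ENNReal.sum_le_tsum _
    refine a1.trans (a2.trans (hF2.trans ?_))
    have e1 : 2 * (2 * 2 ^ k) = 4 * 2 ^ k := by ring
    rw [e1]
    have h6 : uu (2 ^ k) / UU (2 ^ k) ≤ 1 / 2 ^ k := by
      obtain ⟨s, hs⟩ : ∃ s, 2 ^ k = s + 1 := ⟨2 ^ k - 1, by omega⟩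
      have h7 := uu_div_le s
      rw [← hs] at h7
      have h8 : ((s : ℝ) + 1) = 2 ^ k := by exact_mod_cast hs.symm
      rwa [h8] at h7
    have h5 : ENNReal.ofReal (C1 * lg (2 ^ k) ^ C1 * (uu (2 ^ k) / UU (2 ^ k))) ≤
        ENNReal.ofReal (C1 * lg m ^ C1) * ENNReal.ofReal (1 / 2 ^ k) := by
      rw [← ENNReal.ofReal_mul (by positivity)]
      apply ENNReal.ofReal_le_ofReal
      exact mul_le_mul (mul_le_mul_of_nonneg_left (lg_pow_le (by linarith) hkm) (by linarith)) h6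
        (uu_div_nonneg _) (by positivity)
    refine (mul_le_mul' h5 le_rfl).trans (le_of_eq ?_)
    ring
  refine (dyad_le _ m).trans ?_
  calc _ ≤ ENNReal.ofReal C2 * MH m + ∑ k ∈ Finset.range (Nat.log 2 m + 1),
        ENNReal.ofReal (C1 * lg m ^ C1) * (HH (4 * 2 ^ k) * ENNReal.ofReal (1 / 2 ^ k)) :=
        add_le_add hz (Finset.sum_le_sum hb)
    _ = ENNReal.ofReal (C2 + C1 * lg m ^ C1) * MH m := by
        rw [← Finset.mul_sum, ENNReal.ofReal_add (by linarith) (by positivity), add_mul]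
        rfl
    _ ≤ _ := by
        refine mul_le_mul' (ENNReal.ofReal_le_ofReal ?_) le_rfl
        have h3 : lg m ^ C1 ≤ lg m ^ (C1 + C2) := Real.rpow_le_rpow_of_exponent_le hL (by linarith)
        have h4 : (1 : ℝ) ≤ lg m ^ (C1 + C2) := Real.one_le_rpow hL (by linarith)
        nlinarith

/-- pairs with fixed difference of the end levels -/
lemma PPe_tot (h3b : StG3b) (hM : StM) (hS : StS) : ∃ C : ℝ, 1 ≤ C ∧ ∀ m : ℕ, 1 ≤ m → ∀ c : ℤ,
    PPe m c ≤ ENNReal.ofReal (C * lg m ^ C) * (SH m * MH m) := by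
  obtain ⟨C0, hC0, h0⟩ := gg_pair
  obtain ⟨C1, hC1, h1⟩ := S_tot hS
  obtain ⟨C2, hC2, h2⟩ := M_tot hM
  obtain ⟨K, hK⟩ : ∃ K : ℝ, K = 5832 * (C0 * C1 * C2) + (C0 + C1 + C2) := ⟨_, rfl⟩
  have hp : 1 ≤ C0 * C1 * C2 := by
    have := one_le_mul_of_one_le_of_one_le (one_le_mul_of_one_le_of_one_le hC0 hC1) hC2
    exact this
  refine ⟨K, by rw [hK]; linarith, ?_⟩
  intro m hm c
  have hL := lg_one m
  have hL0 : 0 < lg m := by linarith
  obtain ⟨X, hX⟩ : ∃ X : ℝ≥0∞, X = ENNReal.ofReal (C0 * lg m ^ C0) *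
    (2 * ((ENNReal.ofReal (C1 * lg m ^ C1) * SH m) * (ENNReal.ofReal (C2 * lg m ^ C2) * MH m))) := ⟨_, rfl⟩
  have h4 : ∀ k : ℤ, ∑ T ∈ Finset.range (m + 1), ∑ T' ∈ Finset.range (m + 1), ∑' e : ℤ,
      (JS T fun i r u => JS T' fun i' r' u' =>
        gg i i' * (kh r * WB (Ghe T e) u) * (kh r' * WB (Ghe T' (e + 3 * (T' - T) + k)) u')) ≤ X := by
    intro k
    rw [hX]
    exact pair_sum k (fun i i' hi hi' => h0 m i i' hi hi') (h1 m hm) (h2 m hm)
  have h5 : PPe m c ≤ 36 * (81 * X) := by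
    refine (h3b m c).trans (mul_le_mul' le_rfl ?_)
    calc _ ≤ ∑ _δ ∈ Finset.Icc (-4 : ℤ) 4, ∑ _δ' ∈ Finset.Icc (-4 : ℤ) 4, X :=
          Finset.sum_le_sum fun δ _ => Finset.sum_le_sum fun δ' _ => h4 (δ' - δ - c)
      _ = 81 * X := by
          rw [Finset.sum_const, Finset.sum_const, smul_smul]
          have e : (Finset.Icc (-4 : ℤ) 4).card = 9 := by decide
          rw [e, nsmul_eq_mul]
          norm_num
  refine h5.trans ?_
  have e36 : (36 : ℝ≥0∞) * (81 * X) = ENNReal.ofReal (5832 * (C0 * lg m ^ C0) * (C1 * lg m ^ C1) * (C2 * lg m ^ C2)) *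
      (SH m * MH m) := by
    rw [hX, ENNReal.ofReal_mul (p := 5832 * (C0 * lg m ^ C0) * (C1 * lg m ^ C1)) (by positivity),
      ENNReal.ofReal_mul (p := 5832 * (C0 * lg m ^ C0)) (by positivity), ENNReal.ofReal_mul (p := 5832) (by norm_num)]
    have e5 : ENNReal.ofReal 5832 = 36 * (81 * 2) := by norm_num
    rw [e5]
    ring
  rw [e36]
  refine mul_le_mul' (ENNReal.ofReal_le_ofReal ?_) le_rfl
  have e6 : 5832 * (C0 * lg m ^ C0) * (C1 * lg m ^ C1) * (C2 * lg m ^ C2) =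
      (5832 * (C0 * C1 * C2)) * lg m ^ (C0 + C1 + C2) := by
    rw [Real.rpow_add hL0, Real.rpow_add hL0]
    ring
  rw [e6]
  exact mul_le_mul (by rw [hK]; linarith) (Real.rpow_le_rpow_of_exponent_le hL (by rw [hK]; linarith))
    (Real.rpow_nonneg hL0.le _) (by rw [hK]; linarith)

lemma one_le_SH (m : ℕ) : 1 ≤ 2 * SH m := (one_le_HH 4).trans (HH4_le m)

/-- one half plane walk with fixed end level -/
lemma HHe_tot (h3a : StG3a) : ∃ C : ℝ, 1 ≤ C ∧ ∀ m : ℕ, 1 ≤ m → ∀ c : ℤ,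
    HHe m c ≤ ENNReal.ofReal (C * lg m ^ C) * (SH m * MH m) := by
  obtain ⟨C1, hC1, h1⟩ := H_tot
  refine ⟨108 * C1, by linarith, ?_⟩
  intro m hm c
  have hL := lg_one m
  have hL0 : 0 < lg m := by linarith
  have h2 : HHe m c ≤ 6 * (9 * (ENNReal.ofReal (C1 * lg m ^ C1) * MH m)) := by
    refine (h3a m c).trans (mul_le_mul' le_rfl ?_)
    rw [Finset.sum_comm]
    calc _ ≤ ∑ _δ ∈ Finset.Icc (-4 : ℤ) 4, ENNReal.ofReal (C1 * lg m ^ C1) * MH m := by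
          refine Finset.sum_le_sum fun δ _ => ?_
          refine (le_of_eq (Finset.sum_congr rfl fun T _ => ?_)).trans (h1 m hm (c - δ))
          have e : (3 * (T : ℤ) + δ - c) = 3 * T - (c - δ) := by ring
          rw [e]
      _ = 9 * (ENNReal.ofReal (C1 * lg m ^ C1) * MH m) := by
          rw [Finset.sum_const]
          have e : (Finset.Icc (-4 : ℤ) 4).card = 9 := by decide
          rw [e, nsmul_eq_mul]
          norm_num
  have h3 : MH m ≤ 2 * (SH m * MH m) := by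
    calc MH m = 1 * MH m := (one_mul _).symm
      _ ≤ (2 * SH m) * MH m := mul_le_mul' (one_le_SH m) le_rfl
      _ = _ := by ring
  calc HHe m c ≤ _ := h2
    _ ≤ 6 * (9 * (ENNReal.ofReal (C1 * lg m ^ C1) * (2 * (SH m * MH m)))) :=
        mul_le_mul' le_rfl (mul_le_mul' le_rfl (mul_le_mul' le_rfl h3))
    _ = ENNReal.ofReal (108 * (C1 * lg m ^ C1)) * (SH m * MH m) := by
        rw [ENNReal.ofReal_mul (p := 108) (by norm_num)]
        have e5 : ENNReal.ofReal 108 = 6 * (9 * 2) := by norm_num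
        rw [e5]
        ring
    _ ≤ _ := by
        refine mul_le_mul' (ENNReal.ofReal_le_ofReal ?_) le_rfl
        have h4 : lg m ^ C1 ≤ lg m ^ (108 * C1) := Real.rpow_le_rpow_of_exponent_le hL (by linarith)
        calc 108 * (C1 * lg m ^ C1) = 108 * C1 * lg m ^ C1 := by ring
          _ ≤ _ := mul_le_mul_of_nonneg_left h4 (by linarith)

/-- block GLc in terms of the two dyadic sums -/
theorem TwoL_le_SM (h1 : StG1) (h3a : StG3a) (h3b : StG3b) (hM : StM) (hS : StS) (c0 : ℕ) :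
    ∃ C : ℝ, 1 ≤ C ∧ ∀ m : ℕ, 1 ≤ m → ∀ c : ℤ, |c| ≤ c0 →
      TwoL m c ≤ ENNReal.ofReal (C * lg m ^ C) * (SH m * MH m) := by
  obtain ⟨C1, hC1, h2⟩ := PPe_tot h3b hM hS
  obtain ⟨C2, hC2, h3⟩ := HHe_tot h3a
  obtain ⟨n, hn⟩ : ∃ n : ℕ, n = 2 * c0 + 11 := ⟨_, rfl⟩
  obtain ⟨K, hK⟩ : ∃ K : ℝ, K = 9 * n * (C1 + C2) + (C1 + C2) := ⟨_, rfl⟩
  have hn0 : (0 : ℝ) ≤ n := Nat.cast_nonneg n
  have hK1 : C1 + C2 ≤ K := by
    rw [hK]
    nlinarith [mul_nonneg hn0 (show 0 ≤ C1 + C2 by linarith)]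
  refine ⟨K, by linarith, ?_⟩
  intro m hm c hc
  have hL := lg_one m
  have hL0 : 0 < lg m := by linarith
  obtain ⟨P, hP⟩ : ∃ P, P = SH m * MH m := ⟨_, rfl⟩
  rw [← hP]
  have h4 : ∀ e : ℤ, HHe m e + PPe m e ≤ ENNReal.ofReal ((C1 + C2) * lg m ^ (C1 + C2)) * P := by
    intro e
    have a1 := h2 m hm e
    have a2 := h3 m hm e
    rw [← hP] at a1 a2
    refine (add_le_add a2 a1).trans ?_
    rw [← add_mul, ← ENNReal.ofReal_add (by positivity) (by positivity)]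
    refine mul_le_mul' (ENNReal.ofReal_le_ofReal ?_) le_rfl
    have b1 : lg m ^ C1 ≤ lg m ^ (C1 + C2) := Real.rpow_le_rpow_of_exponent_le hL (by linarith)
    have b2 : lg m ^ C2 ≤ lg m ^ (C1 + C2) := Real.rpow_le_rpow_of_exponent_le hL (by linarith)
    nlinarith
  have h5 : TwoL m c ≤ 9 * (n * (ENNReal.ofReal ((C1 + C2) * lg m ^ (C1 + C2)) * P)) := by
    refine (h1 m c).trans (mul_le_mul' le_rfl ?_)
    refine (Finset.sum_le_sum fun e _ => h4 e).trans ?_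
    rw [Finset.sum_const, nsmul_eq_mul]
    refine mul_le_mul' ?_ le_rfl
    have h6 : (Finset.Icc (-(|c| + 5)) (|c| + 5)).card ≤ n := by
      rw [Int.card_Icc, hn]
      omega
    exact_mod_cast h6
  refine h5.trans ?_
  have e1 : 9 * (n * (ENNReal.ofReal ((C1 + C2) * lg m ^ (C1 + C2)) * P)) =
      ENNReal.ofReal (9 * n * ((C1 + C2) * lg m ^ (C1 + C2))) * P := by
    rw [ENNReal.ofReal_mul (p := 9 * n) (by positivity), ENNReal.ofReal_mul (p := 9) (by norm_num), ENNReal.ofReal_natCast]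
    have e5 : ENNReal.ofReal 9 = 9 := by norm_num
    rw [e5]
    ring
  rw [e1]
  refine mul_le_mul' (ENNReal.ofReal_le_ofReal ?_) le_rfl
  have h7 : lg m ^ (C1 + C2) ≤ lg m ^ K := Real.rpow_le_rpow_of_exponent_le hL hK1
  have h8 : 9 * n * (C1 + C2) ≤ K := by
    rw [hK]
    linarith
  calc 9 * n * ((C1 + C2) * lg m ^ (C1 + C2)) = (9 * n * (C1 + C2)) * lg m ^ (C1 + C2) := by ring
    _ ≤ K * lg m ^ K := mul_le_mul h8 h7 (by positivity) (by linarith)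

/-- the dyadic sum for the fixed depth under an upper bound of the half plane walks -/
lemma MH_le {a A : ℝ} (ha : 1 ≤ a) (hA : 0 ≤ A) (H : ∀ n : ℕ, 1 ≤ n → HH n ≤ ENNReal.ofReal (A * (n : ℝ) ^ a)) :
    ∀ m : ℕ, 1 ≤ m → MH m ≤ ENNReal.ofReal (A * 4 ^ a * (lg m * (m : ℝ) ^ (a - 1))) := by
  intro m hm
  have hm0 : (0 : ℝ) < m := by exact_mod_cast hm
  have hterm : ∀ k ∈ Finset.range (Nat.log 2 m + 1), HH (4 * 2 ^ k) * ENNReal.ofReal (1 / 2 ^ k) ≤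
      ENNReal.ofReal (A * 4 ^ a * (m : ℝ) ^ (a - 1)) := by
    intro k hk
    have hkm := two_pow_le hm (Finset.mem_range.1 hk)
    have hD : (0 : ℝ) < 2 ^ k := by positivity
    have hDm : (2 : ℝ) ^ k ≤ m := by exact_mod_cast hkm
    refine (mul_le_mul' (H (4 * 2 ^ k) (by have := Nat.one_le_two_pow (n := k); omega)) le_rfl).trans ?_
    rw [← ENNReal.ofReal_mul (by positivity)]
    apply ENNReal.ofReal_le_ofReal
    push_cast
    rw [Real.mul_rpow (by norm_num) hD.le]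
    have e1 : ((2 : ℝ) ^ k) ^ a * (1 / 2 ^ k) = ((2 : ℝ) ^ k) ^ (a - 1) := by
      rw [Real.rpow_sub_one hD.ne', mul_one_div]
    calc A * (4 ^ a * ((2 : ℝ) ^ k) ^ a) * (1 / 2 ^ k) = A * 4 ^ a * (((2 : ℝ) ^ k) ^ a * (1 / 2 ^ k)) := by ring
      _ = A * 4 ^ a * ((2 : ℝ) ^ k) ^ (a - 1) := by rw [e1]
      _ ≤ A * 4 ^ a * (m : ℝ) ^ (a - 1) :=
          mul_le_mul_of_nonneg_left (Real.rpow_le_rpow hD.le hDm (by linarith)) (by positivity)
  refine (Finset.sum_le_sum hterm).trans ?_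
  rw [Finset.sum_const, Finset.card_range, nsmul_eq_mul, ← ENNReal.ofReal_natCast, ← ENNReal.ofReal_mul (by positivity)]
  apply ENNReal.ofReal_le_ofReal
  unfold lg
  push_cast
  apply le_of_eq
  ring

/-- powers of lg against small powers -/
lemma lg_pow' {C ε : ℝ} (hC : 0 ≤ C) (hε : 0 < ε) : ∃ K : ℝ, 0 < K ∧ ∀ m : ℕ, 1 ≤ m → lg m ^ C ≤ K * (m : ℝ) ^ ε := by
  obtain ⟨K, hK, h⟩ := lg_pow hC hε
  exact ⟨K, hK, fun m hm => (lg_pow_le hC (by omega)).trans (h m hm)⟩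

/-- **BLOCK GLc**: walks with bounded difference of the end levels against the half plane walks -/
theorem TwoL_upper (h1 : StG1) (h3a : StG3a) (h3b : StG3b) (hM : StM) (hS : StS) {h : ℝ} (hh : 1 ≤ h) (H : HUp h)
    (c0 : ℕ) : ∀ ε : ℝ, 0 < ε → ∃ C : ℝ, 0 < C ∧ ∀ m : ℕ, 1 ≤ m → ∀ c : ℤ, |c| ≤ c0 →
      TwoL m c ≤ ENNReal.ofReal (C * (m : ℝ) ^ (h - 7 / 4 + ε)) * HH (5 * m) := by
  intro ε hε
  obtain ⟨C1, hC1, h2⟩ := TwoL_le_SM h1 h3a h3b hM hS c0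
  obtain ⟨C2, hC2, h3⟩ := SH_le
  obtain ⟨A0, hA0⟩ := H (ε / 2) (by positivity)
  obtain ⟨A, hA, hAp⟩ : ∃ A : ℝ, 0 < A ∧ ∀ n : ℕ, 1 ≤ n → HH n ≤ ENNReal.ofReal (A * (n : ℝ) ^ (h + ε / 2)) := by
    refine ⟨|A0| + 1, by positivity, fun n hn => (hA0 n hn).trans (ENNReal.ofReal_le_ofReal ?_)⟩
    refine mul_le_mul_of_nonneg_right ?_ (by positivity)
    linarith [le_abs_self A0]
  have h4 := MH_le (a := h + ε / 2) (by linarith) hA.le hAp
  obtain ⟨K, hK, h5⟩ := lg_pow' (C := C1 + 2) (by linarith) (show 0 < ε / 2 by positivity)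
  refine ⟨C1 * C2 * (A * 4 ^ (h + ε / 2)) * K, by positivity, ?_⟩
  intro m hm c hc
  have hm0 : (0 : ℝ) < m := by exact_mod_cast hm
  have hL := lg_one m
  have hL0 : 0 < lg m := by linarith
  calc TwoL m c ≤ ENNReal.ofReal (C1 * lg m ^ C1) * (SH m * MH m) := h2 m hm c hc
    _ ≤ ENNReal.ofReal (C1 * lg m ^ C1) * ((ENNReal.ofReal (C2 * (lg m * (m : ℝ) ^ (-(3 / 4) : ℝ))) * HH (5 * m)) *
        ENNReal.ofReal (A * 4 ^ (h + ε / 2) * (lg m * (m : ℝ) ^ (h + ε / 2 - 1)))) :=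
        mul_le_mul' le_rfl (mul_le_mul' (h3 m hm) (h4 m hm))
    _ = ENNReal.ofReal ((C1 * lg m ^ C1) * (C2 * (lg m * (m : ℝ) ^ (-(3 / 4) : ℝ))) *
        (A * 4 ^ (h + ε / 2) * (lg m * (m : ℝ) ^ (h + ε / 2 - 1)))) * HH (5 * m) := by
        rw [ENNReal.ofReal_mul (p := (C1 * lg m ^ C1) * (C2 * (lg m * (m : ℝ) ^ (-(3 / 4) : ℝ)))) (by positivity),
          ENNReal.ofReal_mul (p := C1 * lg m ^ C1) (by positivity)]
        ring
    _ ≤ _ := by
        refine mul_le_mul' (ENNReal.ofReal_le_ofReal ?_) le_rfl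
        have e1 : (C1 * lg m ^ C1) * (C2 * (lg m * (m : ℝ) ^ (-(3 / 4) : ℝ))) *
            (A * 4 ^ (h + ε / 2) * (lg m * (m : ℝ) ^ (h + ε / 2 - 1))) =
            C1 * C2 * (A * 4 ^ (h + ε / 2)) * lg m ^ (C1 + 2) * (m : ℝ) ^ (h - 7 / 4 + ε / 2) := by
          have a1 : lg m ^ (C1 + 2) = lg m ^ C1 * (lg m * lg m) := by
            rw [Real.rpow_add hL0, Real.rpow_two]
            ring
          have a2 : (m : ℝ) ^ (h - 7 / 4 + ε / 2) = (m : ℝ) ^ (-(3 / 4) : ℝ) * (m : ℝ) ^ (h + ε / 2 - 1) := by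
            rw [← Real.rpow_add hm0]
            congr 1
            ring
          rw [a1, a2]
          ring
        have e2 : (m : ℝ) ^ (h - 7 / 4 + ε) = (m : ℝ) ^ (ε / 2) * (m : ℝ) ^ (h - 7 / 4 + ε / 2) := by
          rw [← Real.rpow_add hm0]
          congr 1
          ring
        rw [e1, e2]
        have h6 := h5 m hm
        calc C1 * C2 * (A * 4 ^ (h + ε / 2)) * lg m ^ (C1 + 2) * (m : ℝ) ^ (h - 7 / 4 + ε / 2)
            ≤ C1 * C2 * (A * 4 ^ (h + ε / 2)) * (K * (m : ℝ) ^ (ε / 2)) * (m : ℝ) ^ (h - 7 / 4 + ε / 2) := by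
              refine mul_le_mul_of_nonneg_right (mul_le_mul_of_nonneg_left h6 (by positivity)) (by positivity)
          _ = _ := by ring

end BAR

end HexObs
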