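import Pool.Agent.GLow.LevDefs
import Pool.Agent.GLow.FrontL

/-!
GLow, module G1: the walks with prescribed level of the end are half plane walks or disjoint pairs of half plane walks
with prescribed (difference of the) levels of the ends.
-/

set_option autoImplicit false

namespace HexObs

open Complex Finset ENNReal

namespace BAR

lemma cover_oneL {m : ℕ} (A : Set (List Bool)) (k : ℕ) (e : ℤ)
    (hA : ∀ t ∈ A, ∃ R ∈ SSt m, ∃ c, t = rev (R.drop k) ++ [c] ∧ wE t ≤ 2 * wE R ∧ lev R R.length = e) :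
    gf A ≤ 4 * HHe m e := by
  have h := gf_cover (X := {R : List Bool | R ∈ SSt m ∧ lev R R.length = e} × Bool) A (fun x => 2 * wE x.1.1)
    (fun x => rev (x.1.1.drop k) ++ [x.2]) (by
      intro t ht
      obtain ⟨R, hR, c, h1, h2, h3⟩ := hA t ht
      exact ⟨(⟨R, hR, h3⟩, c), h1.symm, h2⟩)
  refine h.trans (le_of_eq ?_)
  rw [ENNReal.tsum_prod']
  simp only [tsum_fintype, Finset.sum_const, Finset.card_univ, Fintype.card_bool, nsmul_eq_mul]
  unfold HHe gf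
  rw [← ENNReal.tsum_mul_left]
  refine tsum_congr fun a => ?_
  push_cast
  rw [← mul_assoc]
  norm_num

lemma cover_twoL {m : ℕ} (A : Set (List Bool)) (e : ℤ) (F : List Bool × List Bool → Bool → List Bool)
    (hA : ∀ t ∈ A, ∃ P ∈ SSt m, ∃ Q ∈ SSt m, Dj P Q ∧ ∃ c, t = F (P, Q) c ∧ P.length + Q.length = t.length + 1 ∧
      lev Q Q.length = lev P P.length + e) :
    gf A ≤ 4 * PPe m e := by
  have h := gf_cover (X := {p : List Bool × List Bool | p.1 ∈ SSt m ∧ p.2 ∈ SSt m ∧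
      (Dj p.1 p.2 ∧ lev p.2 p.2.length = lev p.1 p.1.length + e)} × Bool) A
    (fun x => 2 * (wE x.1.1.1 * wE x.1.1.2)) (fun x => F x.1.1 x.2) (by
      intro t ht
      obtain ⟨P, hP, Q, hQ, hD, c, h1, h2, h4⟩ := hA t ht
      refine ⟨(⟨(P, Q), hP, hQ, hD, h4⟩, c), h1.symm, ?_⟩
      show wE t ≤ 2 * (wE P * wE Q)
      have h3 : wE P * wE Q = ENNReal.ofReal (xc ^ (P.length + Q.length)) := by
        unfold wE
        rw [← ENNReal.ofReal_mul (pow_nonneg xc_nonneg _), pow_add]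
      rw [h3]
      exact wE_len_succ h2)
  refine h.trans (le_of_eq ?_)
  rw [ENNReal.tsum_prod']
  simp only [tsum_fintype, Finset.sum_const, Finset.card_univ, Fintype.card_bool, nsmul_eq_mul]
  unfold PPe g2
  rw [← ENNReal.tsum_mul_left]
  refine tsum_congr fun a => ?_
  push_cast
  rw [← mul_assoc]
  norm_num

/-- the walks that end on the level c: the five cases -/
theorem TwoL_le5 (m : ℕ) (c : ℤ) : TwoL m c ≤
    HHe m c + (4 * HHe m (4 - c) + (4 * HHe m (5 - c) + (4 * PPe m (c - 2) + 4 * PPe m (2 - c)))) := by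
  have hsub : {t | (Saw Set.univ oo up t ∧ Ext m t) ∧ lev t t.length = c} ⊆
      {t | t ∈ SSt m ∧ lev t t.length = c} ∪
      ({t | ∃ R ∈ SSt m, ∃ c', t = rev (R.drop 1) ++ [c'] ∧ wE t ≤ 2 * wE R ∧ lev R R.length = 4 - c} ∪
      ({t | ∃ R ∈ SSt m, ∃ c', t = rev (R.drop 2) ++ [c'] ∧ wE t ≤ 2 * wE R ∧ lev R R.length = 5 - c} ∪
      ({t | ∃ P ∈ SSt m, ∃ Q ∈ SSt m, Dj P Q ∧ ∃ c', t = rev (P.drop 2) ++ (true :: c' :: Q.drop 1) ∧
        P.length + Q.length = t.length + 1 ∧ lev Q Q.length = lev P P.length + (c - 2)} ∪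
      {t | ∃ P ∈ SSt m, ∃ Q ∈ SSt m, Dj P Q ∧ ∃ _c : Bool, t = rev (Q.drop 1) ++ (false :: false :: P.drop 2) ∧
        P.length + Q.length = t.length + 1 ∧ lev Q Q.length = lev P P.length + (2 - c)}))) := by
    rintro t ⟨⟨hs, he⟩, hc⟩
    rcases front_splitL hs he with h | ⟨R, hR, c', h1, h2, h3⟩ | ⟨R, hR, c', h1, h2, h3⟩ |
      ⟨P, hP, Q, hQ, hD, c', h1, h2, h3⟩ | ⟨P, hP, Q, hQ, hD, h1, h2, h3⟩
    · exact Or.inl ⟨h, hc⟩
    · exact Or.inr (Or.inl ⟨R, hR, c', h1, wE_len_eq h2, by rw [h3, hc]⟩)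
    · exact Or.inr (Or.inr (Or.inl ⟨R, hR, c', h1, wE_len_succ h2, by rw [h3, hc]⟩))
    · exact Or.inr (Or.inr (Or.inr (Or.inl ⟨P, hP, Q, hQ, hD, c', h1, h2, by rw [hc] at h3; omega⟩)))
    · exact Or.inr (Or.inr (Or.inr (Or.inr ⟨P, hP, Q, hQ, hD, true, h1, h2, by rw [hc] at h3; omega⟩)))
  refine (gf_mono hsub).trans ?_
  have h1 := cover_oneL (m := m)
    {t | ∃ R ∈ SSt m, ∃ c', t = rev (R.drop 1) ++ [c'] ∧ wE t ≤ 2 * wE R ∧ lev R R.length = 4 - c} 1 (4 - c)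
    (fun t ht => ht)
  have h2 := cover_oneL (m := m)
    {t | ∃ R ∈ SSt m, ∃ c', t = rev (R.drop 2) ++ [c'] ∧ wE t ≤ 2 * wE R ∧ lev R R.length = 5 - c} 2 (5 - c)
    (fun t ht => ht)
  have h3 := cover_twoL (m := m) {t | ∃ P ∈ SSt m, ∃ Q ∈ SSt m, Dj P Q ∧ ∃ c',
    t = rev (P.drop 2) ++ (true :: c' :: Q.drop 1) ∧ P.length + Q.length = t.length + 1 ∧
      lev Q Q.length = lev P P.length + (c - 2)} (c - 2)
    (fun p c' => rev (p.1.drop 2) ++ (true :: c' :: p.2.drop 1)) (fun t ht => ht)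
  have h4 := cover_twoL (m := m) {t | ∃ P ∈ SSt m, ∃ Q ∈ SSt m, Dj P Q ∧ ∃ _c : Bool,
    t = rev (Q.drop 1) ++ (false :: false :: P.drop 2) ∧ P.length + Q.length = t.length + 1 ∧
      lev Q Q.length = lev P P.length + (2 - c)} (2 - c)
    (fun p _ => rev (p.2.drop 1) ++ (false :: false :: p.1.drop 2)) (fun t ht => ht)
  exact (gf_union_le _ _).trans (add_le_add le_rfl ((gf_union_le _ _).trans (add_le_add h1 ((gf_union_le _ _).trans
    (add_le_add h2 ((gf_union_le _ _).trans (add_le_add h3 h4)))))))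

/-- G1: the walks that end on the level c -/
theorem TwoL_le (m : ℕ) (c : ℤ) :
    TwoL m c ≤ 9 * ∑ e ∈ Finset.Icc (-(|c| + 5)) (|c| + 5), (HHe m e + PPe m e) := by
  have hc1 := neg_abs_le c
  have hc2 := le_abs_self c
  rw [Finset.sum_add_distrib]
  set SH' : ℝ≥0∞ := ∑ e ∈ Finset.Icc (-(|c| + 5)) (|c| + 5), HHe m e with hSH
  set SP : ℝ≥0∞ := ∑ e ∈ Finset.Icc (-(|c| + 5)) (|c| + 5), PPe m e with hSP
  have a1 : ∀ e : ℤ, -(|c| + 5) ≤ e → e ≤ |c| + 5 → HHe m e ≤ SH' := fun e h1 h2 =>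
    Finset.single_le_sum (f := fun e => HHe m e) (fun _ _ => zero_le) (Finset.mem_Icc.2 ⟨h1, h2⟩)
  have a2 : ∀ e : ℤ, -(|c| + 5) ≤ e → e ≤ |c| + 5 → PPe m e ≤ SP := fun e h1 h2 =>
    Finset.single_le_sum (f := fun e => PPe m e) (fun _ _ => zero_le) (Finset.mem_Icc.2 ⟨h1, h2⟩)
  refine (TwoL_le5 m c).trans ?_
  have b1 := a1 c (by omega) (by omega)
  have b2 := a1 (4 - c) (by omega) (by omega)
  have b3 := a1 (5 - c) (by omega) (by omega)
  have b4 := a2 (c - 2) (by omega) (by omega)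
  have b5 := a2 (2 - c) (by omega) (by omega)
  calc HHe m c + (4 * HHe m (4 - c) + (4 * HHe m (5 - c) + (4 * PPe m (c - 2) + 4 * PPe m (2 - c))))
      ≤ SH' + (4 * SH' + (4 * SH' + (4 * SP + 4 * SP))) :=
        add_le_add b1 (add_le_add (mul_le_mul' le_rfl b2) (add_le_add (mul_le_mul' le_rfl b3)
          (add_le_add (mul_le_mul' le_rfl b4) (mul_le_mul' le_rfl b5))))
    _ = 9 * SH' + 8 * SP := by ring
    _ ≤ 9 * SH' + 9 * SP := add_le_add le_rfl (mul_le_mul_left (by norm_num) _)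
    _ = 9 * (SH' + SP) := by ring

end BAR

end HexObs
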