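import Pool.Agent.GLow.LevDefs

/-!
GLc, block G4: law of the end level of the walks that hang at the end of a bridge.
-/

set_option autoImplicit false

namespace HexObs

open Complex Finset ENNReal

namespace BAR

/-- end level after a bridge -/
lemma lev_end {r : ℕ} {c s : List Bool} (hc : c ∈ Brd r) :
    lev (c ++ s) (c ++ s).length = 3 * (r : ℤ) + lev s s.length := by
  rw [List.length_append, lev_cat (mem_Brd.1 hc).2.2.1, (mem_Brd.1 hc).2.2.2]

lemma step_gf_lev (T : ℕ) (e : ℤ) (b : Bool) (Q : List Bool → Prop) :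
    gf {w | (w ∈ SSt T ∧ lev w w.length = e) ∧ Q ((!b) :: b :: w)} ≤
      4 * gf {w | (w ∈ SSt (T + 1) ∧ lev w w.length = e + 3) ∧ Q w} := by
  have h1 : ∀ w ∈ {w | (w ∈ SSt T ∧ lev w w.length = e) ∧ Q ((!b) :: b :: w)},
      (!b) :: b :: w ∈ {w | (w ∈ SSt (T + 1) ∧ lev w w.length = e + 3) ∧ Q w} := by
    intro w hw
    refine ⟨⟨SSt_step hw.1.1, ?_⟩, hw.2⟩
    have h2 := lev_end (s := w) (step_mem_Brd b)
    have h3 : [!b, b] ++ w = (!b) :: b :: w := rfl
    rw [h3, hw.1.2] at h2
    rw [h2]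
    push_cast
    ring
  refine gf_le_of_inj (fun w => (!b) :: b :: w) h1 ?_ 4 fun w _ => ChainIaux.wE_step b w
  intro a _ c _ h
  simpa using h

/-- a bridge beside a half plane walk with given end level -/
noncomputable def YL (d : ℕ) (e : ℤ) (u : ℕ) : ℝ≥0∞ := g2 {w | w ∈ SSt d ∧ lev w w.length = e} (Brd u) Dj

lemma YL_mirror (d : ℕ) (e : ℤ) (u : ℕ) : g2 (Brd u) {w | w ∈ SSt d ∧ lev w w.length = e} Dj ≤ YL d e u :=
  g2_mirror (fun _ h => Brd_not h) fun t h => by
    refine ⟨SSt_not h.1, ?_⟩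
    have h1 : lev (t.map not) (t.map not).length = lev t t.length := by
      rw [List.length_map]
      exact lev_not t (by omega)
    rw [h1]
    exact h.2

lemma WB_GHe (T : ℕ) (e : ℤ) (u : ℕ) :
    ∑' t : {t : List Bool // t ∈ Brd u}, wE t.1 * GHe T e t.1 ≤ 8 * YL (T + 1) (e + 3) u := by
  obtain ⟨A, hA⟩ : ∃ A : Set (List Bool), A = {w | w ∈ SSt (T + 1) ∧ lev w w.length = e + 3} := ⟨_, rfl⟩
  have h1 : ∀ t : List Bool, GHe T e t ≤ 4 * gf {w | w ∈ A ∧ Dj w (rev t)} +
      4 * gf {w | w ∈ A ∧ Dj (rev t) w} := by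
    intro t
    rw [hA]
    unfold GHe
    exact add_le_add (step_gf_lev T e true fun w => Dj w (rev t)) (step_gf_lev T e false fun w => Dj (rev t) w)
  calc ∑' t : {t : List Bool // t ∈ Brd u}, wE t.1 * GHe T e t.1
      ≤ ∑' t : {t : List Bool // t ∈ Brd u}, (4 * (wE t.1 * gf {w | w ∈ A ∧ Dj w (rev t.1)}) +
        4 * (wE t.1 * gf {w | w ∈ A ∧ Dj (rev t.1) w})) := by
        refine ENNReal.tsum_le_tsum fun t => (mul_le_mul' le_rfl (h1 t.1)).trans (le_of_eq ?_)
        ring
    _ = 4 * g2 A (Brd u) Dj + 4 * g2 (Brd u) A Dj := by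
        rw [ENNReal.tsum_add, ENNReal.tsum_mul_left, ENNReal.tsum_mul_left, g2_right, g2_left,
          sum_rev u fun x => gf {w | w ∈ A ∧ Dj w x}, sum_rev u fun x => gf {w | w ∈ A ∧ Dj x w}]
    _ ≤ 4 * YL (T + 1) (e + 3) u + 4 * YL (T + 1) (e + 3) u := by
        rw [hA]
        exact add_le_add le_rfl (mul_le_mul' le_rfl (YL_mirror _ _ _))
    _ = 8 * YL (T + 1) (e + 3) u := by
        rw [← add_mul]
        norm_num

/-- last cut at or below the fixed height v -/
lemma YL_last (d : ℕ) (e : ℤ) (v u : ℕ) : YL d e u ≤ ∑ r ∈ Finset.range (v + 1), gg r u *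
    gf {w | w ∈ NC (v - r) d ∧ lev w w.length = e - 3 * r} := by
  unfold YL
  rw [g2_right]
  have h1 : ∀ t : List Bool, gf {s | s ∈ {w | w ∈ SSt d ∧ lev w w.length = e} ∧ Dj s t} ≤
      ∑ r ∈ Finset.range (v + 1), gf {c | c ∈ Brd r ∧ Dj c t} *
        gf {w | w ∈ NC (v - r) d ∧ lev w w.length = e - 3 * r} := by
    intro t
    have hsub : {s | s ∈ {w | w ∈ SSt d ∧ lev w w.length = e} ∧ Dj s t} ⊆ ⋃ r ∈ Finset.range (v + 1),
        {w | ∃ c ∈ {c | c ∈ Brd r ∧ Dj c t}, ∃ s ∈ {w | w ∈ NC (v - r) d ∧ lev w w.length = e - 3 * r}, w = c ++ s} := by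
      rintro w ⟨⟨hw, hl⟩, hd⟩
      obtain ⟨r, hr, c, hc, s, hs, hcs⟩ := last_cut hw v
      rw [Set.mem_iUnion₂]
      refine ⟨r, Finset.mem_range.2 (by omega), c, ⟨hc, ?_⟩, s, ⟨hs, ?_⟩, hcs⟩
      · rw [hcs] at hd
        exact HangA.Dj_pref_left hd
      · rw [hcs, lev_end hc] at hl
        linarith
    refine (gf_mono hsub).trans ((gf_bi_le _ _).trans (Finset.sum_le_sum fun r _ => ?_))
    exact gf_le_mul fun w hw => hw
  calc ∑' t : {t : List Bool // t ∈ Brd u}, wE t.1 * gf {s | s ∈ {w | w ∈ SSt d ∧ lev w w.length = e} ∧ Dj s t.1}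
      ≤ ∑' t : {t : List Bool // t ∈ Brd u}, ∑ r ∈ Finset.range (v + 1),
        (wE t.1 * gf {c | c ∈ Brd r ∧ Dj c t.1}) * gf {w | w ∈ NC (v - r) d ∧ lev w w.length = e - 3 * r} := by
        refine ENNReal.tsum_le_tsum fun t => ?_
        refine (mul_le_mul' le_rfl (h1 t.1)).trans (le_of_eq ?_)
        rw [Finset.mul_sum]
        exact Finset.sum_congr rfl fun r _ => by rw [mul_assoc]
    _ = _ := by
        rw [Summable.tsum_finsetSum fun i _ => ENNReal.summable]
        refine Finset.sum_congr rfl fun r _ => ?_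
        rw [ENNReal.tsum_mul_right, gg_eq_g2, g2_right]

lemma lg_two (v : ℕ) : lg (2 * v) ≤ 2 * lg v := by
  rcases Nat.eq_zero_or_pos v with rfl | hv
  · have := lg_one (2 * 0)
    have e : lg (2 * 0) = lg 0 := rfl
    rw [e]
    have := lg_one 0
    linarith
  · unfold lg
    have e : Nat.log 2 (2 * v) = Nat.log 2 v + 1 := by
      rw [mul_comm]
      exact Nat.log_mul_base (by norm_num) (by omega)
    rw [e]
    have : (0 : ℝ) ≤ (Nat.log 2 v : ℝ) := Nat.cast_nonneg _
    push_cast
    linarith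

/-- G4: law of the end level, uniformly in a dyadic block of heights of the bridge -/
theorem law : ∃ C : ℝ, 1 ≤ C ∧ ∀ d : ℕ, LawW C d (HH (2 * d)) fun e u => WB (Ghe d e) u := by
  obtain ⟨C, hC, h⟩ := gg_bound
  have hU : ∀ n, 0 < UU n := Num2Aux.UU_pos
  obtain ⟨K, hK⟩ : ∃ K : ℝ, K = 1 + 320 * C * 2 ^ C := ⟨_, rfl⟩
  have h2C : (1 : ℝ) ≤ 2 ^ C := Real.one_le_rpow (by norm_num) (by linarith)
  have hKC : C + 1 ≤ K := by
    rw [hK]
    nlinarith
  refine ⟨K, by linarith, ?_⟩
  intro d v hvd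
  have hlg := lg_one v
  have hl0 : 0 < lg v := by linarith
  have hlC : 0 < lg v ^ C := Real.rpow_pos_of_pos hl0 _
  have hpair : ∀ r u, r ≤ v → v ≤ u → u ≤ 2 * v →
      gg r u ≤ ENNReal.ofReal (C * 2 ^ C * lg v ^ C * uu v * (uu r / UU r)) := by
    intro r u hr hu1 hu2
    refine (h r u (by omega)).trans (ENNReal.ofReal_le_ofReal ?_)
    have h1 : lg u ^ C ≤ 2 ^ C * lg v ^ C := by
      rw [← Real.mul_rpow (by norm_num) hl0.le]
      exact Real.rpow_le_rpow (le_trans zero_le_one (lg_one u)) ((lg_mono hu2).trans (lg_two v)) (by linarith)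
    have h2 : uu u ≤ uu v := Num2Aux.anti hu1
    have h3 := uu_div_nonneg r
    have h4 := Num2Aux.nonneg u
    have h5 : 0 ≤ lg u ^ C := Real.rpow_nonneg (le_trans zero_le_one (lg_one u)) _
    calc C * lg u ^ C * (uu u * (uu r / UU r)) = C * (lg u ^ C * uu u) * (uu r / UU r) := by ring
      _ ≤ C * ((2 ^ C * lg v ^ C) * uu v) * (uu r / UU r) := by
          refine mul_le_mul_of_nonneg_right (mul_le_mul_of_nonneg_left ?_ (by linarith)) h3
          exact mul_le_mul h1 h2 h4 (by positivity)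
      _ = _ := by ring
  refine ⟨fun e => (if e = 0 then ENNReal.ofReal (uu v) else 0) + 8 * ∑ r ∈ Finset.range (v + 1),
    ENNReal.ofReal (C * 2 ^ C * lg v ^ C * uu v * (uu r / UU r)) *
      gf {w | w ∈ NC (v - r) d ∧ lev w w.length = (e + 3) - 3 * r}, ?_, ?_⟩
  · intro u hu1 hu2 e
    show WB (Ghe d e) u ≤ _
    have h1 : WB (Ghe d e) u ≤ (if e = 0 then ENNReal.ofReal (uu v) else 0) +
        (if d = 0 then 0 else ∑' t : {t : List Bool // t ∈ Brd u}, wE t.1 * GHe (d - 1) e t.1) := by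
      unfold WB Ghe
      simp only [mul_add]
      rw [ENNReal.tsum_add]
      refine add_le_add ?_ ?_
      · split_ifs
        · simp only [mul_one]
          have h2 : ∑' t : {t : List Bool // t ∈ Brd u}, wE t.1 = BT u := by
            rw [← gf_Brd]
            rfl
          rw [h2, CuLogAux.bt_eq]
          exact ENNReal.ofReal_le_ofReal (Num2Aux.anti hu1)
        · simp
      · split_ifs
        · simp
        · exact le_rfl
    refine h1.trans (add_le_add le_rfl ?_)
    split_ifs with hd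
    · exact zero_le
    · have h2 := WB_GHe (d - 1) e u
      rw [show d - 1 + 1 = d by omega] at h2
      refine h2.trans (mul_le_mul' le_rfl ((YL_last d (e + 3) v u).trans ?_))
      refine Finset.sum_le_sum fun r hr => ?_
      rw [Finset.mem_range] at hr
      exact mul_le_mul' (hpair r u (by omega) hu1 hu2) le_rfl
  · rw [ENNReal.tsum_add, tsum_ite_eq, ENNReal.tsum_mul_left, Summable.tsum_finsetSum fun i _ => ENNReal.summable]
    simp only [ENNReal.tsum_mul_left]
    have h1 : ENNReal.ofReal (uu v) ≤ ENNReal.ofReal (uu v / UU v) * HH (2 * d) := by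
      have h2 : ENNReal.ofReal (UU v) ≤ HH (2 * d) := (UU_le_HH v).trans (HH_mono (by omega))
      calc ENNReal.ofReal (uu v) = ENNReal.ofReal (uu v / UU v) * ENNReal.ofReal (UU v) := by
            rw [← ENNReal.ofReal_mul (uu_div_nonneg v), div_mul_cancel₀ _ (hU v).ne']
        _ ≤ _ := mul_le_mul' le_rfl h2
    have h2 : ∀ r ∈ Finset.range (v + 1), ENNReal.ofReal (C * 2 ^ C * lg v ^ C * uu v * (uu r / UU r)) *
        ∑' e : ℤ, gf {w | w ∈ NC (v - r) d ∧ lev w w.length = (e + 3) - 3 * r} ≤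
        ENNReal.ofReal ((2 * (C * 2 ^ C) * lg v ^ C * uu v) * (uu r / UU r * (1 / UU (v - r)))) * HH (2 * d) := by
      intro r hr
      rw [Finset.mem_range] at hr
      have h3 : ∑' e : ℤ, gf {w | w ∈ NC (v - r) d ∧ lev w w.length = (e + 3) - 3 * r} = gf (NC (v - r) d) := by
        have h4 := tsum_lev (NC (v - r) d) fun w => lev w w.length
        rw [← h4]
        exact (Equiv.addRight (3 - 3 * (r : ℤ))).tsum_eq (fun e : ℤ => gf {w | w ∈ NC (v - r) d ∧ lev w w.length = e}) |>.symm ▸ by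
          refine tsum_congr fun e => ?_
          congr 1
          ext w
          simp only [Set.mem_ofPred_eq, Equiv.coe_addRight]
          constructor
          · rintro ⟨a, b⟩
            exact ⟨a, by linarith⟩
          · rintro ⟨a, b⟩
            exact ⟨a, by linarith⟩
      rw [h3]
      refine (mul_le_mul' le_rfl (NC_le (show v - r ≤ d by omega))).trans ?_
      have h4 := uu_div_nonneg r
      have h5 := Num2Aux.nonneg v
      rw [← mul_assoc, ← ENNReal.ofReal_mul (by positivity)]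
      refine mul_le_mul' (ENNReal.ofReal_le_ofReal (le_of_eq ?_)) le_rfl
      ring
    have h8 : (8 : ℝ≥0∞) = ENNReal.ofReal 8 := by norm_num
    have hv0 := Num2Aux.nonneg v
    have hr0 := uu_div_nonneg v
    calc _ ≤ ENNReal.ofReal (uu v / UU v) * HH (2 * d) + 8 * ∑ r ∈ Finset.range (v + 1),
          ENNReal.ofReal ((2 * (C * 2 ^ C) * lg v ^ C * uu v) * (uu r / UU r * (1 / UU (v - r)))) * HH (2 * d) :=
          add_le_add h1 (mul_le_mul' le_rfl (Finset.sum_le_sum h2))
      _ = ENNReal.ofReal (uu v / UU v + 8 * ((2 * (C * 2 ^ C) * lg v ^ C * uu v) *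
          ∑ r ∈ Finset.range (v + 1), uu r / UU r * (1 / UU (v - r)))) * HH (2 * d) := by
          have hn : ∀ r ∈ Finset.range (v + 1), 0 ≤ (2 * (C * 2 ^ C) * lg v ^ C * uu v) * (uu r / UU r * (1 / UU (v - r))) := by
            intro r _
            have h4 := uu_div_nonneg r
            have h5 := hU (v - r)
            positivity
          rw [← Finset.sum_mul, ← ENNReal.ofReal_sum_of_nonneg hn, ← Finset.mul_sum, h8, ← mul_assoc,
            ← ENNReal.ofReal_mul (by norm_num), ← add_mul, ← ENNReal.ofReal_add hr0]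
          have h6 := Finset.sum_nonneg hn
          rw [← Finset.mul_sum] at h6
          linarith
      _ ≤ _ := by
          refine mul_le_mul' (ENNReal.ofReal_le_ofReal ?_) le_rfl
          have h6 := conv_sum v
          have h7 : 0 ≤ 2 * (C * 2 ^ C) * lg v ^ C * uu v := by positivity
          have h9 : lg v ^ C * lg v ≤ lg v ^ K := by
            have e : lg v ^ C * lg v = lg v ^ (C + 1) := by
              rw [Real.rpow_add hl0, Real.rpow_one]
            rw [e]
            exact Real.rpow_le_rpow_of_exponent_le hlg hKC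
          have h10 : (1 : ℝ) ≤ lg v ^ K := Real.one_le_rpow hlg (by linarith)
          calc uu v / UU v + 8 * ((2 * (C * 2 ^ C) * lg v ^ C * uu v) *
                ∑ r ∈ Finset.range (v + 1), uu r / UU r * (1 / UU (v - r)))
              ≤ uu v / UU v + 8 * ((2 * (C * 2 ^ C) * lg v ^ C * uu v) * (20 * lg v / UU v)) := by
                have := mul_le_mul_of_nonneg_left h6 h7
                linarith
            _ = (1 + 320 * C * 2 ^ C * (lg v ^ C * lg v)) * (uu v / UU v) := by ring
            _ ≤ (lg v ^ K + 320 * C * 2 ^ C * lg v ^ K) * (uu v / UU v) := by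
                refine mul_le_mul_of_nonneg_right ?_ hr0
                have := mul_le_mul_of_nonneg_left h9 (show 0 ≤ 320 * C * 2 ^ C by positivity)
                linarith
            _ = _ := by
                rw [hK]
                ring

end BAR

end HexObs
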