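import Pool.Agent.GLow.LevFin
import Pool.Agent.GLow.Lam

/-!
GLc, block G5 (M): bridges of one dyadic block with the depth of the end of the hanging walk fixed.
-/

set_option autoImplicit false

namespace HexObs

open Complex Finset ENNReal

namespace BAR

namespace M72

/-- local bound for the law of the irreducible bridges -/
def HLam : Prop := ∃ A : ℝ, 0 < A ∧ ∀ x S : ℕ, 1 ≤ S → S ≤ x →
  ∑ k ∈ Finset.Ico x (x + S), kk k ≤ A * lg x ^ A * ((S : ℝ) ^ (1 / 4 : ℝ) / x)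

/-- weights that are small on dyadic blocks of heights of the last bridge -/
lemma mass_w {C : ℝ} (hC : 1 ≤ C) {D : ℕ} (_hD : 1 ≤ D) {B : ℝ≥0∞} {W : ℤ → ℕ → ℝ≥0∞} (hW : LawW C (2 * D) B W)
    (n : ℤ) (w : ℕ → ℕ → ℝ≥0∞) (q : ℝ≥0∞) (hw0 : ∀ T ∈ Finset.Ico D (2 * D), w T 0 ≤ q)
    (hw : ∀ T ∈ Finset.Ico D (2 * D), ∀ j < Nat.log 2 (2 * D) + 1,
      ∑ u ∈ Finset.Ico (2 ^ j) (2 * 2 ^ j), w T u ≤ q * ENNReal.ofReal (2 ^ j)) :
    ∑ T ∈ Finset.Ico D (2 * D), ∑ u ∈ Finset.range (2 * D + 1), W (3 * T - n) u * w T u ≤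
      q * (ENNReal.ofReal (C * lg (2 * D) ^ C * (lg (2 * D) + 1)) * B) := by
  have hL := lg_one (2 * D)
  have hL0 : 0 < lg (2 * D) := by linarith
  have inj : ∀ F : ℤ → ℝ≥0∞, ∑ T ∈ Finset.Ico D (2 * D), F (3 * (T : ℤ) - n) ≤ ∑' e : ℤ, F e := by
    intro F
    have a3 : ∑ T ∈ Finset.Ico D (2 * D), F (3 * (T : ℤ) - n) =
        ∑ e ∈ (Finset.Ico D (2 * D)).map ⟨fun T : ℕ => 3 * (T : ℤ) - n, fun a b hab => by
          simp only [sub_left_inj] at hab
          omega⟩, F e := by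
      rw [Finset.sum_map]
      rfl
    rw [a3]
    exact ENNReal.sum_le_tsum _
  have h0 : ∑ T ∈ Finset.Ico D (2 * D), W (3 * T - n) 0 * w T 0 ≤
      q * (ENNReal.ofReal (C * lg (2 * D) ^ C) * B) := by
    obtain ⟨F, h1, h2⟩ := hW 0 (Nat.zero_le _)
    calc ∑ T ∈ Finset.Ico D (2 * D), W (3 * T - n) 0 * w T 0 ≤ ∑ T ∈ Finset.Ico D (2 * D), q * F (3 * (T : ℤ) - n) := by
          refine Finset.sum_le_sum fun T hT => ?_
          rw [mul_comm]
          exact mul_le_mul' (hw0 T hT) (h1 0 le_rfl le_rfl _)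
      _ = q * ∑ T ∈ Finset.Ico D (2 * D), F (3 * (T : ℤ) - n) := by rw [Finset.mul_sum]
      _ ≤ q * (ENNReal.ofReal (C * lg 0 ^ C * (uu 0 / UU 0)) * B) := mul_le_mul' le_rfl ((inj F).trans h2)
      _ ≤ _ := by
          refine mul_le_mul' le_rfl (mul_le_mul' (ENNReal.ofReal_le_ofReal ?_) le_rfl)
          have e1 := uu_div_le_one 0
          have e2 : lg 0 ^ C ≤ lg (2 * D) ^ C := lg_pow_le (by linarith) (Nat.zero_le _)
          have e3 : 0 ≤ lg 0 ^ C := Real.rpow_nonneg (le_trans zero_le_one (lg_one 0)) _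
          calc C * lg 0 ^ C * (uu 0 / UU 0) ≤ C * lg 0 ^ C * 1 := mul_le_mul_of_nonneg_left e1 (by positivity)
            _ = C * lg 0 ^ C := mul_one _
            _ ≤ _ := mul_le_mul_of_nonneg_left e2 (by linarith)
  have hj : ∀ j ∈ Finset.range (Nat.log 2 (2 * D) + 1), ∑ T ∈ Finset.Ico D (2 * D),
      ∑ u ∈ Finset.Ico (2 ^ j) (2 * 2 ^ j), W (3 * T - n) u * w T u ≤
      q * (ENNReal.ofReal (C * lg (2 * D) ^ C) * B) := by
    intro j hj
    rw [Finset.mem_range] at hj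
    have hjD : 2 ^ j ≤ 2 * D := two_pow_le (by omega) hj
    obtain ⟨F, h1, h2⟩ := hW (2 ^ j) hjD
    calc ∑ T ∈ Finset.Ico D (2 * D), ∑ u ∈ Finset.Ico (2 ^ j) (2 * 2 ^ j), W (3 * T - n) u * w T u
        ≤ ∑ T ∈ Finset.Ico D (2 * D), (q * ENNReal.ofReal (2 ^ j)) * F (3 * (T : ℤ) - n) := by
          refine Finset.sum_le_sum fun T hT => ?_
          calc ∑ u ∈ Finset.Ico (2 ^ j) (2 * 2 ^ j), W (3 * T - n) u * w T u
              ≤ ∑ u ∈ Finset.Ico (2 ^ j) (2 * 2 ^ j), F (3 * (T : ℤ) - n) * w T u := by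
                refine Finset.sum_le_sum fun u hu => ?_
                rw [Finset.mem_Ico] at hu
                exact mul_le_mul' (h1 u hu.1 (by omega) _) le_rfl
            _ = F (3 * (T : ℤ) - n) * ∑ u ∈ Finset.Ico (2 ^ j) (2 * 2 ^ j), w T u := by rw [Finset.mul_sum]
            _ ≤ F (3 * (T : ℤ) - n) * (q * ENNReal.ofReal (2 ^ j)) := mul_le_mul' le_rfl (hw T hT j hj)
            _ = _ := mul_comm _ _
      _ = (q * ENNReal.ofReal (2 ^ j)) * ∑ T ∈ Finset.Ico D (2 * D), F (3 * (T : ℤ) - n) := by rw [Finset.mul_sum]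
      _ ≤ (q * ENNReal.ofReal (2 ^ j)) * (ENNReal.ofReal (C * lg (2 ^ j) ^ C * (uu (2 ^ j) / UU (2 ^ j))) * B) :=
          mul_le_mul' le_rfl ((inj F).trans h2)
      _ = q * (ENNReal.ofReal (2 ^ j * (C * lg (2 ^ j) ^ C * (uu (2 ^ j) / UU (2 ^ j)))) * B) := by
          rw [ENNReal.ofReal_mul (p := (2 : ℝ) ^ j) (by positivity)]
          ring
      _ ≤ _ := by
          refine mul_le_mul' le_rfl (mul_le_mul' (ENNReal.ofReal_le_ofReal ?_) le_rfl)
          have hU := Num2Aux.UU_pos (2 ^ j)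
          have e1 : (2 : ℝ) ^ j * (uu (2 ^ j) / UU (2 ^ j)) ≤ 1 := by
            have h3 := Num2Aux.mul_le_UU (2 ^ j)
            push_cast at h3
            rw [← mul_div_assoc, div_le_one hU]
            exact h3
          have e2 : lg (2 ^ j) ^ C ≤ lg (2 * D) ^ C := lg_pow_le (by linarith) hjD
          have e3 : 0 ≤ lg (2 ^ j) ^ C := Real.rpow_nonneg (le_trans zero_le_one (lg_one _)) _
          calc 2 ^ j * (C * lg (2 ^ j) ^ C * (uu (2 ^ j) / UU (2 ^ j))) =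
                C * lg (2 ^ j) ^ C * (2 ^ j * (uu (2 ^ j) / UU (2 ^ j))) := by ring
            _ ≤ C * lg (2 ^ j) ^ C * 1 := mul_le_mul_of_nonneg_left e1 (by positivity)
            _ = C * lg (2 ^ j) ^ C := mul_one _
            _ ≤ _ := mul_le_mul_of_nonneg_left e2 (by linarith)
  have h1 : ∀ T : ℕ, ∑ u ∈ Finset.range (2 * D + 1), W (3 * T - n) u * w T u ≤
      W (3 * T - n) 0 * w T 0 + ∑ j ∈ Finset.range (Nat.log 2 (2 * D) + 1),
        ∑ u ∈ Finset.Ico (2 ^ j) (2 * 2 ^ j), W (3 * T - n) u * w T u := fun T =>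
    dyad_le (fun u => W (3 * T - n) u * w T u) (2 * D)
  refine (Finset.sum_le_sum fun T _ => h1 T).trans ?_
  rw [Finset.sum_add_distrib, Finset.sum_comm]
  refine (add_le_add h0 (Finset.sum_le_sum hj)).trans ?_
  rw [Finset.sum_const, Finset.card_range, nsmul_eq_mul, ← ENNReal.ofReal_natCast]
  have e : q * (ENNReal.ofReal (C * lg (2 * D) ^ C) * B) +
      ENNReal.ofReal ((Nat.log 2 (2 * D) + 1 : ℕ) : ℝ) * (q * (ENNReal.ofReal (C * lg (2 * D) ^ C) * B)) =
      q * (ENNReal.ofReal (C * lg (2 * D) ^ C * (1 + ((Nat.log 2 (2 * D) + 1 : ℕ) : ℝ))) * B) := by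
    rw [ENNReal.ofReal_mul (p := C * lg (2 * D) ^ C) (by positivity), ENNReal.ofReal_add zero_le_one (Nat.cast_nonneg _),
      ENNReal.ofReal_one]
    ring
  rw [e]
  refine mul_le_mul' le_rfl (mul_le_mul' (ENNReal.ofReal_le_ofReal (le_of_eq ?_)) le_rfl)
  unfold lg
  push_cast
  ring

/-- the sum over the pieces, sorted by the height of the last bridge -/
lemma JS_sort {D T : ℕ} (hT : 1 ≤ T) (hTD : T < 2 * D) (g : ℕ → ℝ≥0∞) :
    JS T (fun i r u => ENNReal.ofReal (uu i) * (kh r * g u)) ≤ ∑ u ∈ Finset.range (2 * D + 1), g u *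
      (if u < T - T / 2 then ENNReal.ofReal (∑ i ∈ Finset.range (T / 2 + 1), uu i * kk (T - u - i)) else 0) := by
  have h1 : JS T (fun i r u => ENNReal.ofReal (uu i) * (kh r * g u)) =
      ∑ i ∈ Finset.range (T / 2 + 1), ∑ u ∈ Finset.range (T - T / 2),
        g u * ENNReal.ofReal (uu i * kk (T - u - i)) := by
    unfold JS
    rw [if_neg (by omega)]
    refine Finset.sum_congr rfl fun i hi => ?_
    rw [Finset.mem_range] at hi
    refine Finset.sum_nbij' (fun r => T - i - r) (fun u => T - i - u) ?_ ?_ ?_ ?_ ?_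
    · intro r hr
      rw [Finset.mem_Ico] at hr
      rw [Finset.mem_range]
      omega
    · intro u hu
      rw [Finset.mem_range] at hu
      rw [Finset.mem_Ico]
      omega
    · intro r hr
      rw [Finset.mem_Ico] at hr
      show T - i - (T - i - r) = r
      omega
    · intro u hu
      rw [Finset.mem_range] at hu
      show T - i - (T - i - u) = u
      omega
    · intro r hr
      rw [Finset.mem_Ico] at hr
      have e1 : T - (T - i - r) - i = r := by omega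
      have e2 : r ≠ 0 := by omega
      have e3 : kh r = ENNReal.ofReal (kk r) := by
        unfold kh
        rw [if_neg e2, kap_eq]
      show ENNReal.ofReal (uu i) * (kh r * g (T - i - r)) = g (T - i - r) * ENNReal.ofReal (uu i * kk (T - (T - i - r) - i))
      rw [e1, e3, ENNReal.ofReal_mul (Num2Aux.nonneg i)]
      ring
  rw [h1, Finset.sum_comm]
  calc ∑ u ∈ Finset.range (T - T / 2), ∑ i ∈ Finset.range (T / 2 + 1), g u * ENNReal.ofReal (uu i * kk (T - u - i))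
      = ∑ u ∈ Finset.range (T - T / 2), g u *
          (if u < T - T / 2 then ENNReal.ofReal (∑ i ∈ Finset.range (T / 2 + 1), uu i * kk (T - u - i)) else 0) := by
        refine Finset.sum_congr rfl fun u hu => ?_
        rw [Finset.mem_range] at hu
        rw [if_pos hu, ENNReal.ofReal_sum_of_nonneg fun i _ => mul_nonneg (Num2Aux.nonneg i) (kk_nonneg' _), Finset.mul_sum]
    _ ≤ _ := Finset.sum_le_sum_of_subset (Finset.range_subset_range.2 (by omega))

lemma uu_pow : ∃ K : ℝ, 0 < K ∧ ∀ n : ℕ, 1 ≤ n → uu n ≤ K * (n : ℝ) ^ (-(1 / 4) : ℝ) := by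
  obtain ⟨c, K, hc, hK, hU⟩ := UU_two
  refine ⟨K, hK, fun n hn => ?_⟩
  have hn0 : (0 : ℝ) < n := by exact_mod_cast hn
  have h1 := Num2Aux.mul_le_UU n
  have h2 := (hU n hn).2
  have e : (n : ℝ) ^ (3 / 4 : ℝ) = n * (n : ℝ) ^ (-(1 / 4) : ℝ) := by
    have e1 : (n : ℝ) * (n : ℝ) ^ (-(1 / 4) : ℝ) = (n : ℝ) ^ (1 : ℝ) * (n : ℝ) ^ (-(1 / 4) : ℝ) := by
      rw [Real.rpow_one]
    rw [e1, ← Real.rpow_add hn0]
    norm_num
  have h3 : (n : ℝ) * uu n ≤ n * (K * (n : ℝ) ^ (-(1 / 4) : ℝ)) := by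
    calc (n : ℝ) * uu n ≤ K * (n : ℝ) ^ (3 / 4 : ℝ) := h1.trans h2
      _ = _ := by rw [e]; ring
  exact le_of_mul_le_mul_left h3 hn0

/-- short first pieces: the window bound on dyadic blocks -/
lemma short_i (hLam : HLam) : ∃ K : ℝ, 0 < K ∧ ∀ D x : ℕ, 1 ≤ D → D < 2 * x → x ≤ 2 * D →
    ∑ i ∈ Finset.range ((D + 7) / 8), uu i * kk (x - i) ≤ K * lg (2 * D) ^ K / D := by
  obtain ⟨A, hA, hwin⟩ := hLam
  obtain ⟨K0, hK0, hu⟩ := uu_pow
  obtain ⟨K, hK⟩ : ∃ K : ℝ, K = (2 * A + 4 * A * K0) + (A + 1) := ⟨_, rfl⟩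
  have hKA : A + 1 ≤ K := by
    rw [hK]
    nlinarith [mul_pos hA hK0]
  have hKB : 2 * A + 4 * A * K0 ≤ K := by
    rw [hK]
    linarith
  refine ⟨K, by linarith, ?_⟩
  intro D x hD hx1 hx2
  have hD0 : (0 : ℝ) < D := by exact_mod_cast hD
  have hL := lg_one (2 * D)
  have hL0 : 0 < lg (2 * D) := by linarith
  obtain ⟨m, hm⟩ : ∃ m, m = (D + 7) / 8 := ⟨_, rfl⟩
  -- the general window
  have hw : ∀ y S : ℕ, 1 ≤ S → S ≤ y → y ≤ 2 * D → D ≤ 4 * y →
      ∑ k ∈ Finset.Ico y (y + S), kk k ≤ (4 * A * lg (2 * D) ^ A) * ((S : ℝ) ^ (1 / 4 : ℝ) / D) := by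
    intro y S h1 h2 h3 h4
    have hy0 : (0 : ℝ) < y := by
      have : 1 ≤ y := by omega
      exact_mod_cast this
    have e1 : lg y ^ A ≤ lg (2 * D) ^ A := lg_pow_le hA.le h3
    have e2 : (S : ℝ) ^ (1 / 4 : ℝ) / y ≤ 4 * ((S : ℝ) ^ (1 / 4 : ℝ) / D) := by
      rw [← mul_div_assoc, div_le_div_iff₀ hy0 hD0]
      have h5 : (D : ℝ) ≤ 4 * y := by exact_mod_cast h4
      have h6 : 0 ≤ (S : ℝ) ^ (1 / 4 : ℝ) := by positivity
      nlinarith
    calc ∑ k ∈ Finset.Ico y (y + S), kk k ≤ A * lg y ^ A * ((S : ℝ) ^ (1 / 4 : ℝ) / y) := hwin y S h1 h2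
      _ ≤ A * lg (2 * D) ^ A * (4 * ((S : ℝ) ^ (1 / 4 : ℝ) / D)) :=
          mul_le_mul (mul_le_mul_of_nonneg_left e1 hA.le) e2 (by positivity) (by positivity)
      _ = _ := by ring
  -- real version of the dyadic decomposition
  have hdy : ∀ f : ℕ → ℝ, (∀ i, 0 ≤ f i) → ∑ i ∈ Finset.range m, f i ≤
      f 0 + ∑ j ∈ Finset.range (Nat.log 2 (2 * D) + 1), ∑ i ∈ Finset.Ico (2 ^ j) (2 * 2 ^ j),
        (if i < m then f i else 0) := by
    intro f hf
    have h1 := dyad_le (fun i => ENNReal.ofReal (if i < m then f i else 0)) (2 * D)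
    have hf' : ∀ i, 0 ≤ (if i < m then f i else 0) := fun i => by
      split_ifs
      · exact hf i
      · exact le_rfl
    have h2 : ENNReal.ofReal (∑ i ∈ Finset.range m, f i) ≤
        ∑ T ∈ Finset.range (2 * D + 1), ENNReal.ofReal (if T < m then f T else 0) := by
      rw [ENNReal.ofReal_sum_of_nonneg fun i _ => hf i]
      calc ∑ i ∈ Finset.range m, ENNReal.ofReal (f i) = ∑ i ∈ Finset.range m, ENNReal.ofReal (if i < m then f i else 0) := by
            refine Finset.sum_congr rfl fun i hi => ?_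
            rw [if_pos (Finset.mem_range.1 hi)]
        _ ≤ _ := Finset.sum_le_sum_of_subset (Finset.range_subset_range.2 (by omega))
    have h3 : ∀ j, ∑ T ∈ Finset.Ico (2 ^ j) (2 * 2 ^ j), ENNReal.ofReal (if T < m then f T else 0) =
        ENNReal.ofReal (∑ i ∈ Finset.Ico (2 ^ j) (2 * 2 ^ j), (if i < m then f i else 0)) := fun j =>
      (ENNReal.ofReal_sum_of_nonneg fun i _ => hf' i).symm
    simp only [h3] at h1
    rw [← ENNReal.ofReal_sum_of_nonneg fun j _ => Finset.sum_nonneg fun i _ => hf' i,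
      ← ENNReal.ofReal_add (hf' 0) (Finset.sum_nonneg fun j _ => Finset.sum_nonneg fun i _ => hf' i)] at h1
    have h4 := (ENNReal.ofReal_le_ofReal_iff (add_nonneg (hf' 0)
      (Finset.sum_nonneg fun j _ => Finset.sum_nonneg fun i _ => hf' i))).1 (h2.trans h1)
    refine h4.trans (add_le_add ?_ le_rfl)
    split_ifs
    · exact le_rfl
    · exact hf 0
  rw [← hm]
  refine (hdy _ fun i => mul_nonneg (Num2Aux.nonneg i) (kk_nonneg' _)).trans ?_
  -- i = 0
  have h0 : uu 0 * kk (x - 0) ≤ 2 * A * lg (2 * D) ^ A / D := by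
    have hx0 : (0 : ℝ) < x := by
      have : 1 ≤ x := by omega
      exact_mod_cast this
    have h1 := hwin x 1 le_rfl (by omega)
    rw [Finset.sum_Ico_succ_top (by omega), Finset.Ico_self, Finset.sum_empty, zero_add] at h1
    rw [Num2Aux.zero, one_mul, Nat.sub_zero]
    have e1 : lg x ^ A ≤ lg (2 * D) ^ A := lg_pow_le hA.le hx2
    have e2 : (1 : ℝ) / x ≤ 2 / D := by
      rw [div_le_div_iff₀ hx0 hD0]
      have : (D : ℝ) ≤ 2 * x := by exact_mod_cast hx1.le
      linarith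
    calc kk x ≤ A * lg x ^ A * (((1 : ℕ) : ℝ) ^ (1 / 4 : ℝ) / x) := h1
      _ = A * lg x ^ A * (1 / x) := by rw [Nat.cast_one, Real.one_rpow]
      _ ≤ A * lg (2 * D) ^ A * (2 / D) :=
          mul_le_mul (mul_le_mul_of_nonneg_left e1 hA.le) e2 (by positivity) (by positivity)
      _ = _ := by ring
  -- the blocks
  have hj : ∀ j ∈ Finset.range (Nat.log 2 (2 * D) + 1), ∑ i ∈ Finset.Ico (2 ^ j) (2 * 2 ^ j),
      (if i < m then uu i * kk (x - i) else 0) ≤ 4 * A * K0 * lg (2 * D) ^ A / D := by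
    intro j _
    obtain ⟨S, hS⟩ : ∃ S : ℕ, S = 2 ^ j := ⟨_, rfl⟩
    have hS1 : 1 ≤ S := by rw [hS]; exact Nat.one_le_two_pow
    have hS0 : (0 : ℝ) < S := by exact_mod_cast hS1
    rw [← hS]
    have hpos : 0 ≤ 4 * A * K0 * lg (2 * D) ^ A / D := by positivity
    rcases Nat.lt_or_ge S m with hSm | hSm
    · have hy : 2 * S ≤ x := by omega
      have h1 : ∑ i ∈ Finset.Ico S (2 * S), (if i < m then uu i * kk (x - i) else 0) ≤
          ∑ i ∈ Finset.Ico S (2 * S), (K0 * (S : ℝ) ^ (-(1 / 4) : ℝ)) * kk (x - i) := by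
        refine Finset.sum_le_sum fun i hi => ?_
        rw [Finset.mem_Ico] at hi
        have e1 : uu i ≤ K0 * (S : ℝ) ^ (-(1 / 4) : ℝ) := (Num2Aux.anti hi.1).trans (hu S hS1)
        have e2 := kk_nonneg' (x - i)
        split_ifs
        · exact mul_le_mul_of_nonneg_right e1 e2
        · exact mul_nonneg (by positivity) e2
      have h2 : ∑ i ∈ Finset.Ico S (2 * S), kk (x - i) = ∑ k ∈ Finset.Ico (x - 2 * S + 1) (x - 2 * S + 1 + S), kk k := by
        refine Finset.sum_nbij' (fun i => x - i) (fun k => x - k) ?_ ?_ ?_ ?_ ?_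
        · intro i hi
          rw [Finset.mem_Ico] at hi ⊢
          omega
        · intro k hk
          rw [Finset.mem_Ico] at hk ⊢
          omega
        · intro i hi
          rw [Finset.mem_Ico] at hi
          show x - (x - i) = i
          omega
        · intro k hk
          rw [Finset.mem_Ico] at hk
          show x - (x - k) = k
          omega
        · intro i _
          rfl
      have h3 := hw (x - 2 * S + 1) S hS1 (by omega) (by omega) (by omega)
      refine h1.trans ?_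
      rw [← Finset.mul_sum, h2]
      calc K0 * (S : ℝ) ^ (-(1 / 4) : ℝ) * ∑ k ∈ Finset.Ico (x - 2 * S + 1) (x - 2 * S + 1 + S), kk k
          ≤ K0 * (S : ℝ) ^ (-(1 / 4) : ℝ) * ((4 * A * lg (2 * D) ^ A) * ((S : ℝ) ^ (1 / 4 : ℝ) / D)) :=
            mul_le_mul_of_nonneg_left h3 (by positivity)
        _ = 4 * A * K0 * lg (2 * D) ^ A * ((S : ℝ) ^ (-(1 / 4) : ℝ) * (S : ℝ) ^ (1 / 4 : ℝ)) / D := by ring
        _ = 4 * A * K0 * lg (2 * D) ^ A / D := by
            rw [← Real.rpow_add hS0]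
            norm_num
    · refine le_trans (le_of_eq ?_) hpos
      refine Finset.sum_eq_zero fun i hi => ?_
      rw [Finset.mem_Ico] at hi
      rw [if_neg (by omega)]
  refine (add_le_add h0 (Finset.sum_le_sum hj)).trans ?_
  rw [Finset.sum_const, Finset.card_range, nsmul_eq_mul]
  have hlg : ((Nat.log 2 (2 * D) + 1 : ℕ) : ℝ) = lg (2 * D) := by
    unfold lg
    push_cast
    ring
  rw [hlg, ← mul_div_assoc, ← add_div]
  refine div_le_div_of_nonneg_right ?_ hD0.le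
  have h5 : lg (2 * D) ^ A * lg (2 * D) = lg (2 * D) ^ (A + 1) := by
    rw [Real.rpow_add hL0, Real.rpow_one]
  have h6 : lg (2 * D) ^ A ≤ lg (2 * D) ^ (A + 1) := Real.rpow_le_rpow_of_exponent_le hL (by linarith)
  have h7 : lg (2 * D) ^ (A + 1) ≤ lg (2 * D) ^ K := Real.rpow_le_rpow_of_exponent_le hL hKA
  calc 2 * A * lg (2 * D) ^ A + lg (2 * D) * (4 * A * K0 * lg (2 * D) ^ A) =
      2 * A * lg (2 * D) ^ A + 4 * A * K0 * (lg (2 * D) ^ A * lg (2 * D)) := by ring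
    _ ≤ 2 * A * lg (2 * D) ^ K + 4 * A * K0 * lg (2 * D) ^ K := by
        rw [h5]
        exact add_le_add (mul_le_mul_of_nonneg_left (h6.trans h7) (by positivity))
          (mul_le_mul_of_nonneg_left h7 (by positivity))
    _ = (2 * A + 4 * A * K0) * lg (2 * D) ^ K := by ring
    _ ≤ K * lg (2 * D) ^ K := mul_le_mul_of_nonneg_right hKB (by positivity)

/-- long first pieces -/
lemma long_i : ∃ K : ℝ, 0 < K ∧ ∀ D T u : ℕ, 1 ≤ D → u < T - T / 2 →
    ∑ i ∈ Finset.Ico ((D + 7) / 8) (T / 2 + 1), uu i * kk (T - u - i) ≤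
      K * (D : ℝ) ^ (-(1 / 4) : ℝ) * (1 / UU (T - T / 2 - u)) := by
  obtain ⟨K0, hK0, hu⟩ := uu_pow
  refine ⟨2 * K0 * 8 ^ (1 / 4 : ℝ), by positivity, ?_⟩
  intro D T u hD hT
  have hD0 : (0 : ℝ) < D := by exact_mod_cast hD
  obtain ⟨m, hm⟩ : ∃ m, m = (D + 7) / 8 := ⟨_, rfl⟩
  rw [← hm]
  have hm1 : 1 ≤ m := by omega
  have hm0 : (0 : ℝ) < m := by exact_mod_cast hm1
  have hU := Num2Aux.UU_pos (T - T / 2 - u)
  have h1 : ∑ i ∈ Finset.Ico m (T / 2 + 1), kk (T - u - i) ≤ 2 / UU (T - T / 2 - u) := by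
    rcases Nat.lt_or_ge (T / 2 + 1) m with hc | hc
    · rw [Finset.Ico_eq_empty (by omega), Finset.sum_empty]
      positivity
    · have h2 : ∑ i ∈ Finset.Ico m (T / 2 + 1), kk (T - u - i) =
          ∑ k ∈ Finset.Ico (T - T / 2 - u) (T - u + 1 - m), kk k := by
        refine Finset.sum_nbij' (fun i => T - u - i) (fun k => T - u - k) ?_ ?_ ?_ ?_ ?_
        · intro i hi
          rw [Finset.mem_Ico] at hi ⊢
          omega
        · intro k hk
          rw [Finset.mem_Ico] at hk ⊢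
          omega
        · intro i hi
          rw [Finset.mem_Ico] at hi
          show T - u - (T - u - i) = i
          omega
        · intro k hk
          rw [Finset.mem_Ico] at hk
          show T - u - (T - u - k) = k
          omega
        · intro i _
          rfl
      rw [h2]
      exact tail_kk _ _ (by omega)
  have h3 : ∑ i ∈ Finset.Ico m (T / 2 + 1), uu i * kk (T - u - i) ≤
      uu m * ∑ i ∈ Finset.Ico m (T / 2 + 1), kk (T - u - i) := by
    rw [Finset.mul_sum]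
    refine Finset.sum_le_sum fun i hi => ?_
    rw [Finset.mem_Ico] at hi
    exact mul_le_mul_of_nonneg_right (Num2Aux.anti hi.1) (kk_nonneg' _)
  have h4 : uu m ≤ K0 * 8 ^ (1 / 4 : ℝ) * (D : ℝ) ^ (-(1 / 4) : ℝ) := by
    have h5 : (D : ℝ) / 8 ≤ m := by
      rw [div_le_iff₀ (by norm_num)]
      have : D ≤ m * 8 := by omega
      exact_mod_cast this
    have h6 : (m : ℝ) ^ (-(1 / 4) : ℝ) ≤ ((D : ℝ) / 8) ^ (-(1 / 4) : ℝ) :=
      Real.rpow_le_rpow_of_nonpos (by positivity) h5 (by norm_num)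
    have h7 : ((D : ℝ) / 8) ^ (-(1 / 4) : ℝ) = 8 ^ (1 / 4 : ℝ) * (D : ℝ) ^ (-(1 / 4) : ℝ) := by
      rw [Real.div_rpow hD0.le (by norm_num), Real.rpow_neg (by norm_num : (0 : ℝ) ≤ 8)]
      rw [div_inv_eq_mul, mul_comm]
    calc uu m ≤ K0 * (m : ℝ) ^ (-(1 / 4) : ℝ) := hu m hm1
      _ ≤ K0 * (8 ^ (1 / 4 : ℝ) * (D : ℝ) ^ (-(1 / 4) : ℝ)) := by
          rw [← h7]
          exact mul_le_mul_of_nonneg_left h6 hK0.le
      _ = _ := by ring
  calc ∑ i ∈ Finset.Ico m (T / 2 + 1), uu i * kk (T - u - i) ≤ uu m * (2 / UU (T - T / 2 - u)) :=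
        h3.trans (mul_le_mul_of_nonneg_left h1 (Num2Aux.nonneg m))
    _ ≤ (K0 * 8 ^ (1 / 4 : ℝ) * (D : ℝ) ^ (-(1 / 4) : ℝ)) * (2 / UU (T - T / 2 - u)) :=
        mul_le_mul_of_nonneg_right h4 (by positivity)
    _ = _ := by ring

/-- sum of the tails over a dyadic block of heights of the last bridge -/
lemma tail_block : ∃ K : ℝ, 0 < K ∧ ∀ D h : ℕ, 1 ≤ D → D ≤ 2 * h → h ≤ D →
    (1 / UU h ≤ K * (D : ℝ) ^ (-(3 / 4) : ℝ)) ∧ ∀ v : ℕ, 1 ≤ v →
      ∑ u ∈ Finset.Ico v (2 * v), (if u < h then 1 / UU (h - u) else 0) ≤ K * v * (D : ℝ) ^ (-(3 / 4) : ℝ) := by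
  obtain ⟨c, K, hc, hK, hU⟩ := UU_two
  have h4 : (1 : ℝ) ≤ 4 ^ (3 / 4 : ℝ) := Real.one_le_rpow (by norm_num) (by norm_num)
  refine ⟨32 / c + 4 ^ (3 / 4 : ℝ) / c, by positivity, ?_⟩
  intro D h hD hDh hhD
  have hD0 : (0 : ℝ) < D := by exact_mod_cast hD
  have hDp : 0 < (D : ℝ) ^ (-(3 / 4) : ℝ) := by positivity
  -- one far term
  have hfar : ∀ x : ℕ, 1 ≤ x → D ≤ 4 * x → 1 / UU x ≤ 4 ^ (3 / 4 : ℝ) / c * (D : ℝ) ^ (-(3 / 4) : ℝ) := by
    intro x hx hDx
    have hx0 : (0 : ℝ) < x := by exact_mod_cast hx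
    have h1 := (hU x hx).1
    have h2 : (D : ℝ) / 4 ≤ x := by
      rw [div_le_iff₀ (by norm_num)]
      have : D ≤ x * 4 := by omega
      exact_mod_cast this
    have h3 : ((D : ℝ) / 4) ^ (3 / 4 : ℝ) ≤ (x : ℝ) ^ (3 / 4 : ℝ) := Real.rpow_le_rpow (by positivity) h2 (by norm_num)
    have h5 : (D : ℝ) ^ (-(3 / 4) : ℝ) = ((D : ℝ) ^ (3 / 4 : ℝ))⁻¹ := Real.rpow_neg hD0.le _
    have h6 : ((D : ℝ) / 4) ^ (3 / 4 : ℝ) = (D : ℝ) ^ (3 / 4 : ℝ) / 4 ^ (3 / 4 : ℝ) := Real.div_rpow hD0.le (by norm_num) _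
    have h7 : 0 < (D : ℝ) ^ (3 / 4 : ℝ) := by positivity
    have h8 : c * ((D : ℝ) ^ (3 / 4 : ℝ) / 4 ^ (3 / 4 : ℝ)) ≤ UU x := by
      refine le_trans ?_ h1
      rw [← h6]
      exact mul_le_mul_of_nonneg_left h3 hc.le
    calc 1 / UU x ≤ 1 / (c * ((D : ℝ) ^ (3 / 4 : ℝ) / 4 ^ (3 / 4 : ℝ))) := one_div_le_one_div_of_le (by positivity) h8
      _ = 4 ^ (3 / 4 : ℝ) / c * (D : ℝ) ^ (-(3 / 4) : ℝ) := by
          rw [h5]
          field_simp
  constructor
  · refine (hfar h (by omega) (by omega)).trans ?_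
    refine mul_le_mul_of_nonneg_right ?_ hDp.le
    have : 0 < 32 / c := by positivity
    linarith
  · intro v hv
    have hv0 : (0 : ℝ) < v := by exact_mod_cast hv
    rcases Nat.lt_or_ge h (4 * v) with hc4 | hc4
    · -- all the terms
      have h1 : ∑ u ∈ Finset.Ico v (2 * v), (if u < h then 1 / UU (h - u) else 0) ≤
          ∑ u ∈ Finset.range h, 1 / UU (h - u) := by
        have e0 : ∀ u, 0 ≤ (if u < h then 1 / UU (h - u) else 0) := by
          intro u
          split_ifs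
          · have := Num2Aux.UU_pos (h - u)
            positivity
          · exact le_rfl
        calc ∑ u ∈ Finset.Ico v (2 * v), (if u < h then 1 / UU (h - u) else 0)
            = ∑ u ∈ (Finset.Ico v (2 * v)).filter (· < h), 1 / UU (h - u) := by rw [Finset.sum_filter]
          _ ≤ ∑ u ∈ Finset.range h, 1 / UU (h - u) := by
              refine Finset.sum_le_sum_of_subset_of_nonneg ?_ ?_
              · intro u hu
                rw [Finset.mem_filter] at hu
                exact Finset.mem_range.2 hu.2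
              · intro u _ _
                have := Num2Aux.UU_pos (h - u)
                positivity
      have h2 : ∑ u ∈ Finset.range h, 1 / UU (h - u) = ∑ l ∈ Finset.range h, 1 / UU (l + 1) := by
        rw [← Finset.sum_range_reflect]
        refine Finset.sum_congr rfl fun l hl => ?_
        rw [Finset.mem_range] at hl
        congr 2
        omega
      have h3 : ∑ l ∈ Finset.range h, 1 / UU (l + 1) ≤ (1 / c) * ∑ l ∈ Finset.range h, ((l : ℝ) + 1) ^ (-(3 / 4) : ℝ) := by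
        rw [Finset.mul_sum]
        refine Finset.sum_le_sum fun l _ => ?_
        have hl0 : (0 : ℝ) < (l : ℝ) + 1 := by positivity
        have h5 := (hU (l + 1) (by omega)).1
        push_cast at h5
        rw [Real.rpow_neg hl0.le, one_div_mul_eq_div, ← one_div, div_div, mul_comm (((l : ℝ) + 1) ^ (3 / 4 : ℝ)) c]
        exact one_div_le_one_div_of_le (by positivity) h5
      have h5 := GLow.Lam.sum_quarter h
      have hh0 : (0 : ℝ) < h := by
        have : 1 ≤ h := by omega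
        exact_mod_cast this
      have h6 : (h : ℝ) ^ (1 / 4 : ℝ) ≤ 8 * v * (D : ℝ) ^ (-(3 / 4) : ℝ) := by
        have a1 : (h : ℝ) ^ (1 / 4 : ℝ) ≤ (D : ℝ) ^ (1 / 4 : ℝ) :=
          Real.rpow_le_rpow hh0.le (by exact_mod_cast hhD) (by norm_num)
        have a2 : (D : ℝ) ^ (1 / 4 : ℝ) = D * (D : ℝ) ^ (-(3 / 4) : ℝ) := by
          have e1 : (D : ℝ) * (D : ℝ) ^ (-(3 / 4) : ℝ) = (D : ℝ) ^ (1 : ℝ) * (D : ℝ) ^ (-(3 / 4) : ℝ) := by
            rw [Real.rpow_one]
          rw [e1, ← Real.rpow_add hD0]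
          norm_num
        have a3 : (D : ℝ) ≤ 8 * v := by
          have : D ≤ 8 * v := by omega
          exact_mod_cast this
        rw [a2] at a1
        exact a1.trans (mul_le_mul_of_nonneg_right a3 hDp.le)
      calc ∑ u ∈ Finset.Ico v (2 * v), (if u < h then 1 / UU (h - u) else 0)
          ≤ (1 / c) * (4 * (h : ℝ) ^ (1 / 4 : ℝ)) := by
            refine h1.trans (h2.le.trans (h3.trans ?_))
            exact mul_le_mul_of_nonneg_left h5 (by positivity)
        _ ≤ (1 / c) * (4 * (8 * v * (D : ℝ) ^ (-(3 / 4) : ℝ))) := by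
            refine mul_le_mul_of_nonneg_left ?_ (by positivity)
            linarith
        _ = (32 / c) * v * (D : ℝ) ^ (-(3 / 4) : ℝ) := by ring
        _ ≤ _ := by
            refine mul_le_mul_of_nonneg_right (mul_le_mul_of_nonneg_right ?_ hv0.le) hDp.le
            have : 0 < (4 : ℝ) ^ (3 / 4 : ℝ) / c := by positivity
            linarith
    · calc ∑ u ∈ Finset.Ico v (2 * v), (if u < h then 1 / UU (h - u) else 0)
          ≤ ∑ _u ∈ Finset.Ico v (2 * v), 4 ^ (3 / 4 : ℝ) / c * (D : ℝ) ^ (-(3 / 4) : ℝ) := by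
            refine Finset.sum_le_sum fun u hu => ?_
            rw [Finset.mem_Ico] at hu
            rw [if_pos (by omega)]
            exact hfar (h - u) (by omega) (by omega)
        _ = v * (4 ^ (3 / 4 : ℝ) / c * (D : ℝ) ^ (-(3 / 4) : ℝ)) := by
            rw [Finset.sum_const, Nat.card_Ico, nsmul_eq_mul]
            congr 2
            omega
        _ = (4 ^ (3 / 4 : ℝ) / c) * v * (D : ℝ) ^ (-(3 / 4) : ℝ) := by ring
        _ ≤ _ := by
            refine mul_le_mul_of_nonneg_right (mul_le_mul_of_nonneg_right ?_ hv0.le) hDp.le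
            have : 0 < 32 / c := by positivity
            linarith

lemma quarter_mul {D : ℝ} (hD : 0 < D) : D ^ (-(1 / 4) : ℝ) * D ^ (-(3 / 4) : ℝ) = 1 / D := by
  have e : (-(1 / 4) : ℝ) + -(3 / 4) = -1 := by norm_num
  rw [← Real.rpow_add hD, e, Real.rpow_neg_one, one_div]

/-- block G5 (M) from the window bound -/
theorem stM (hLam : HLam) : StM := by
  intro C hC
  obtain ⟨K1, hK1, h1⟩ := short_i hLam
  obtain ⟨K2, hK2, h2⟩ := long_i
  obtain ⟨K3, hK3, h3⟩ := tail_block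
  obtain ⟨E, hE⟩ : ∃ E : ℝ, E = K1 + C + 1 := ⟨_, rfl⟩
  have hE0 : 1 ≤ E := by rw [hE]; linarith
  obtain ⟨P, hP⟩ : ∃ P : ℝ, P = 2 * C * (K1 + K2 * K3) * 2 ^ E := ⟨_, rfl⟩
  have hP0 : 0 ≤ P := by rw [hP]; positivity
  refine ⟨P + E, by linarith, ?_⟩
  intro D hD B W hW n
  have hD0 : (0 : ℝ) < D := by exact_mod_cast hD
  have hL := lg_one (2 * D)
  have hL0 : 0 < lg (2 * D) := by linarith
  have hl := lg_one D
  have hl0 : 0 < lg D := by linarith
  obtain ⟨q, hq⟩ : ∃ q : ℝ, q = (K1 * lg (2 * D) ^ K1 + K2 * K3) / D := ⟨_, rfl⟩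
  have hq0 : 0 ≤ q := by rw [hq]; positivity
  have hqs : q = K1 * lg (2 * D) ^ K1 / D + K2 * (D : ℝ) ^ (-(1 / 4) : ℝ) * (K3 * (D : ℝ) ^ (-(3 / 4) : ℝ)) := by
    have e := quarter_mul hD0
    calc q = K1 * lg (2 * D) ^ K1 / D + K2 * K3 * (1 / D) := by rw [hq]; ring
      _ = K1 * lg (2 * D) ^ K1 / D + K2 * K3 * ((D : ℝ) ^ (-(1 / 4) : ℝ) * (D : ℝ) ^ (-(3 / 4) : ℝ)) := by rw [e]
      _ = _ := by ring
  obtain ⟨w, hw⟩ : ∃ w : ℕ → ℕ → ℝ≥0∞, w = fun T u =>
    (if u < T - T / 2 then ENNReal.ofReal (∑ i ∈ Finset.range (T / 2 + 1), uu i * kk (T - u - i)) else 0) := ⟨_, rfl⟩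
  have hwb : ∀ T ∈ Finset.Ico D (2 * D), ∀ u, w T u ≤
      ENNReal.ofReal (if u < T - T / 2 then K1 * lg (2 * D) ^ K1 / D +
        K2 * (D : ℝ) ^ (-(1 / 4) : ℝ) * (1 / UU (T - T / 2 - u)) else 0) := by
    intro T hT u
    rw [Finset.mem_Ico] at hT
    rw [hw]
    show (if u < T - T / 2 then ENNReal.ofReal (∑ i ∈ Finset.range (T / 2 + 1), uu i * kk (T - u - i)) else 0) ≤ _
    split_ifs with hu
    · apply ENNReal.ofReal_le_ofReal
      have e1 : ∑ i ∈ Finset.range (T / 2 + 1), uu i * kk (T - u - i) =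
          ∑ i ∈ Finset.range ((D + 7) / 8), uu i * kk (T - u - i) +
          ∑ i ∈ Finset.Ico ((D + 7) / 8) (T / 2 + 1), uu i * kk (T - u - i) := by
        rw [Finset.range_eq_Ico, Finset.range_eq_Ico]
        exact (Finset.sum_Ico_consecutive _ (Nat.zero_le _) (by omega)).symm
      rw [e1]
      exact add_le_add (h1 D (T - u) hD (by omega) (by omega)) (h2 D T u hD hu)
    · exact zero_le
  have hw0 : ∀ T ∈ Finset.Ico D (2 * D), w T 0 ≤ ENNReal.ofReal q := by
    intro T hT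
    have hT' := Finset.mem_Ico.1 hT
    refine (hwb T hT 0).trans (ENNReal.ofReal_le_ofReal ?_)
    rw [if_pos (by omega), hqs, Nat.sub_zero]
    have h4 := (h3 D (T - T / 2) hD (by omega) (by omega)).1
    exact add_le_add le_rfl (mul_le_mul_of_nonneg_left h4 (by positivity))
  have hwj : ∀ T ∈ Finset.Ico D (2 * D), ∀ j < Nat.log 2 (2 * D) + 1,
      ∑ u ∈ Finset.Ico (2 ^ j) (2 * 2 ^ j), w T u ≤ ENNReal.ofReal q * ENNReal.ofReal (2 ^ j) := by
    intro T hT j _
    have hT' := Finset.mem_Ico.1 hT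
    obtain ⟨v, hv⟩ : ∃ v : ℕ, v = 2 ^ j := ⟨_, rfl⟩
    have hv1 : 1 ≤ v := by rw [hv]; exact Nat.one_le_two_pow
    have hvr : ((2 : ℝ) ^ j) = v := by rw [hv]; push_cast; rfl
    rw [← hv, hvr]
    have h4 := (h3 D (T - T / 2) hD (by omega) (by omega)).2 v hv1
    have hn : ∀ u, 0 ≤ (if u < T - T / 2 then K1 * lg (2 * D) ^ K1 / D +
        K2 * (D : ℝ) ^ (-(1 / 4) : ℝ) * (1 / UU (T - T / 2 - u)) else 0) := by
      intro u
      have := Num2Aux.UU_pos (T - T / 2 - u)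
      split_ifs
      · positivity
      · exact le_rfl
    refine (Finset.sum_le_sum fun u _ => hwb T hT u).trans ?_
    rw [← ENNReal.ofReal_sum_of_nonneg fun u _ => hn u, ← ENNReal.ofReal_mul hq0]
    apply ENNReal.ofReal_le_ofReal
    calc ∑ u ∈ Finset.Ico v (2 * v), (if u < T - T / 2 then K1 * lg (2 * D) ^ K1 / D +
          K2 * (D : ℝ) ^ (-(1 / 4) : ℝ) * (1 / UU (T - T / 2 - u)) else 0)
        ≤ ∑ u ∈ Finset.Ico v (2 * v), (K1 * lg (2 * D) ^ K1 / D +
          K2 * (D : ℝ) ^ (-(1 / 4) : ℝ) * (if u < T - T / 2 then 1 / UU (T - T / 2 - u) else 0)) := by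
          refine Finset.sum_le_sum fun u _ => ?_
          split_ifs
          · exact le_rfl
          · rw [mul_zero, add_zero]
            positivity
      _ = v * (K1 * lg (2 * D) ^ K1 / D) + K2 * (D : ℝ) ^ (-(1 / 4) : ℝ) *
          ∑ u ∈ Finset.Ico v (2 * v), (if u < T - T / 2 then 1 / UU (T - T / 2 - u) else 0) := by
          rw [Finset.sum_add_distrib, Finset.sum_const, Nat.card_Ico, nsmul_eq_mul, Finset.mul_sum]
          have e : 2 * v - v = v := by omega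
          rw [e]
      _ ≤ v * (K1 * lg (2 * D) ^ K1 / D) + K2 * (D : ℝ) ^ (-(1 / 4) : ℝ) * (K3 * v * (D : ℝ) ^ (-(3 / 4) : ℝ)) :=
          add_le_add le_rfl (mul_le_mul_of_nonneg_left h4 (by positivity))
      _ = q * v := by
          rw [hqs]
          ring
  have h5 : ∑ T ∈ Finset.Ico D (2 * D), JS T (fun i r u => ENNReal.ofReal (uu i) * (kh r * W (3 * T - n) u)) ≤
      ∑ T ∈ Finset.Ico D (2 * D), ∑ u ∈ Finset.range (2 * D + 1), W (3 * T - n) u * w T u := by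
    refine Finset.sum_le_sum fun T hT => ?_
    rw [Finset.mem_Ico] at hT
    rw [hw]
    exact JS_sort (by omega) hT.2 fun u => W (3 * T - n) u
  refine h5.trans ((mass_w hC hD hW n w (ENNReal.ofReal q) hw0 hwj).trans ?_)
  rw [← mul_assoc, ← ENNReal.ofReal_mul hq0]
  refine mul_le_mul' (ENNReal.ofReal_le_ofReal ?_) le_rfl
  have hL2 : lg (2 * D) ≤ 2 * lg D := lg_two D
  have b1 : K1 * lg (2 * D) ^ K1 + K2 * K3 ≤ (K1 + K2 * K3) * lg (2 * D) ^ K1 := by
    have : 1 ≤ lg (2 * D) ^ K1 := Real.one_le_rpow hL hK1.le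
    nlinarith [mul_pos hK2 hK3]
  have b2 : C * lg (2 * D) ^ C * (lg (2 * D) + 1) ≤ 2 * C * (lg (2 * D) ^ C * lg (2 * D)) := by
    have : 0 < C * lg (2 * D) ^ C := by positivity
    nlinarith
  have b3 : lg (2 * D) ^ K1 * (lg (2 * D) ^ C * lg (2 * D)) = lg (2 * D) ^ E := by
    rw [hE, Real.rpow_add hL0, Real.rpow_add hL0, Real.rpow_one]
    ring
  have b4 : lg (2 * D) ^ E ≤ 2 ^ E * lg D ^ E := by
    rw [← Real.mul_rpow (by norm_num) hl0.le]
    exact Real.rpow_le_rpow hL0.le hL2 (by linarith)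
  calc q * (C * lg (2 * D) ^ C * (lg (2 * D) + 1))
      = (K1 * lg (2 * D) ^ K1 + K2 * K3) * (C * lg (2 * D) ^ C * (lg (2 * D) + 1)) / D := by
        rw [hq]
        ring
    _ ≤ ((K1 + K2 * K3) * lg (2 * D) ^ K1) * (2 * C * (lg (2 * D) ^ C * lg (2 * D))) / D := by
        refine div_le_div_of_nonneg_right ?_ hD0.le
        exact mul_le_mul b1 b2 (by positivity) (by positivity)
    _ = 2 * C * (K1 + K2 * K3) * (lg (2 * D) ^ K1 * (lg (2 * D) ^ C * lg (2 * D))) / D := by ring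
    _ ≤ 2 * C * (K1 + K2 * K3) * (2 ^ E * lg D ^ E) / D := by
        rw [b3]
        refine div_le_div_of_nonneg_right ?_ hD0.le
        exact mul_le_mul_of_nonneg_left b4 (by positivity)
    _ = P * lg D ^ E / D := by
        rw [hP]
        ring
    _ ≤ (P + E) * lg D ^ (P + E) / D := by
        refine div_le_div_of_nonneg_right ?_ hD0.le
        exact mul_le_mul (by linarith) (Real.rpow_le_rpow_of_exponent_le hl (by linarith)) (by positivity) (by linarith)

end M72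

end BAR

end HexObs
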