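import Pool.Agent.GLow.LevStrip

/-!
GLc, block G3: half plane walks and disjoint pairs of half plane walks with prescribed level of the end, in terms of the
pieces of the bridges.
-/

set_option autoImplicit false

namespace HexObs

open Complex Finset ENNReal

namespace BAR

/-- the statement of G2 -/
def StripLev : Prop := ∀ {P : Set (List Bool)} (_ : PrefC P) (_ : LastC P) (m : ℕ) (c : ℤ),
    gf {t | (t ∈ SSt m ∧ lev t t.length = c) ∧ t ∈ P} ≤ 6 * ∑ T ∈ Finset.range (m + 1),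
      ∑ δ ∈ Finset.Icc (-4 : ℤ) 4, ∑' h : {h : List Bool // h ∈ Brd T ∧ h ∈ P},
        wE h.1 * Ghe T (3 * T + δ - c) h.1

/-- a sum over words, split by an integer valued function -/
lemma tsum_split (A : Set (List Bool)) (φ : List Bool → ℤ) (f : List Bool → ℝ≥0∞) :
    ∑' s : {s : List Bool // s ∈ A}, f s.1 = ∑' a : ℤ, ∑' s : {s : List Bool // s ∈ {s | s ∈ A ∧ φ s = a}}, f s.1 := by
  classical
  have h1 : ∀ B : Set (List Bool), ∑' s : {s : List Bool // s ∈ B}, f s.1 = ∑' s : List Bool, B.indicator f s :=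
    fun B => tsum_subtype B f
  rw [h1 A]
  simp only [h1]
  rw [ENNReal.tsum_comm]
  refine tsum_congr fun s => ?_
  rw [tsum_eq_single (φ s)]
  · by_cases hs : s ∈ A
    · rw [Set.indicator_of_mem hs, Set.indicator_of_mem]
      exact ⟨hs, rfl⟩
    · rw [Set.indicator_of_notMem hs, Set.indicator_of_notMem]
      exact fun h => hs h.1
  · intro a ha
    rw [Set.indicator_of_notMem]
    exact fun h => ha h.2.symm

/-- the sum over the pairs with fixed level of the end of the first walk -/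
lemma pair_lev (hst : StripLev) (m : ℕ) (c a : ℤ) :
    ∑' s : {s : List Bool // s ∈ {s | s ∈ SSt m ∧ lev s s.length = a}},
      wE s.1 * gf {t | t ∈ SSt m ∧ (Dj s.1 t ∧ lev t t.length = lev s.1 s.1.length + c)} ≤
    ∑ T' ∈ Finset.range (m + 1), ∑ δ' ∈ Finset.Icc (-4 : ℤ) 4, ∑ T ∈ Finset.range (m + 1), ∑ δ ∈ Finset.Icc (-4 : ℤ) 4,
      36 * JS T fun i r u => JS T' fun i' r' u' =>
        gg i i' * (kh r * WB (Ghe T (3 * T + δ - a)) u) * (kh r' * WB (Ghe T' (3 * T' + δ' - (a + c))) u') := by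
  -- second walk
  have hR : ∀ s : List Bool, lev s s.length = a →
      gf {t | t ∈ SSt m ∧ (Dj s t ∧ lev t t.length = lev s s.length + c)} ≤ 6 * ∑ T' ∈ Finset.range (m + 1),
      ∑ δ' ∈ Finset.Icc (-4 : ℤ) 4, ∑' h' : {h' : List Bool // h' ∈ Brd T' ∧ Dj s h'},
        wE h'.1 * Ghe T' (3 * T' + δ' - (a + c)) h'.1 := by
    intro s hs
    have h := hst (P := {t | Dj s t}) (fun a b h => HangA.Dj_pref_right h)
      (fun a c c' h => HangA.Dj_last_right c c' h) m (a + c)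
    refine le_trans (gf_mono ?_) h
    rintro t ⟨h1, h2, h3⟩
    exact ⟨⟨h1, by rw [h3, hs]⟩, h2⟩
  -- first walk
  have hL : ∀ t : List Bool, gf {s | (s ∈ SSt m ∧ lev s s.length = a) ∧ Dj s t} ≤ 6 * ∑ T ∈ Finset.range (m + 1),
      ∑ δ ∈ Finset.Icc (-4 : ℤ) 4, ∑' h : {h : List Bool // h ∈ Brd T ∧ Dj h t},
        wE h.1 * Ghe T (3 * T + δ - a) h.1 := fun t =>
    hst (P := {s | Dj s t}) (fun a b h => HangA.Dj_pref_left h) (fun a c c' h => HangA.Dj_last_left c c' h) m a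
  have key : ∀ (T' : ℕ) (δ' : ℤ), ∑' s : {s : List Bool // s ∈ {s | s ∈ SSt m ∧ lev s s.length = a}},
      wE s.1 * ∑' h' : {h' : List Bool // h' ∈ Brd T' ∧ Dj s.1 h'}, wE h'.1 * Ghe T' (3 * T' + δ' - (a + c)) h'.1 ≤
      ∑ T ∈ Finset.range (m + 1), ∑ δ ∈ Finset.Icc (-4 : ℤ) 4, 6 * JS T fun i r u => JS T' fun i' r' u' =>
        gg i i' * (kh r * WB (Ghe T (3 * T + δ - a)) u) * (kh r' * WB (Ghe T' (3 * T' + δ' - (a + c))) u') := by
    intro T' δ'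
    rw [← swap2 (Brd T') {s | s ∈ SSt m ∧ lev s s.length = a} Dj (fun x => wE x * Ghe T' (3 * T' + δ' - (a + c)) x) wE]
    have e : ∑ T ∈ Finset.range (m + 1), ∑ δ ∈ Finset.Icc (-4 : ℤ) 4, 6 *
        ∑' h' : {h' : List Bool // h' ∈ Brd T'}, (wE h'.1 * Ghe T' (3 * T' + δ' - (a + c)) h'.1) *
        ∑' h : {h : List Bool // h ∈ Brd T ∧ Dj h h'.1}, wE h.1 * Ghe T (3 * T + δ - a) h.1 =
        ∑' h' : {h' : List Bool // h' ∈ Brd T'}, (wE h'.1 * Ghe T' (3 * T' + δ' - (a + c)) h'.1) *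
          (6 * ∑ T ∈ Finset.range (m + 1), ∑ δ ∈ Finset.Icc (-4 : ℤ) 4,
          ∑' h : {h : List Bool // h ∈ Brd T ∧ Dj h h'.1}, wE h.1 * Ghe T (3 * T + δ - a) h.1) := by
      simp only [← ENNReal.tsum_mul_left, Finset.mul_sum]
      rw [Summable.tsum_finsetSum fun i _ => ENNReal.summable]
      refine Finset.sum_congr rfl fun T _ => ?_
      rw [Summable.tsum_finsetSum fun i _ => ENNReal.summable]
      refine Finset.sum_congr rfl fun δ _ => tsum_congr fun s => tsum_congr fun h' => ?_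
      ring
    calc _ ≤ ∑' h' : {h' : List Bool // h' ∈ Brd T'}, (wE h'.1 * Ghe T' (3 * T' + δ' - (a + c)) h'.1) *
          (6 * ∑ T ∈ Finset.range (m + 1), ∑ δ ∈ Finset.Icc (-4 : ℤ) 4,
          ∑' h : {h : List Bool // h ∈ Brd T ∧ Dj h h'.1}, wE h.1 * Ghe T (3 * T + δ - a) h.1) :=
          ENNReal.tsum_le_tsum fun h' => mul_le_mul' le_rfl (hL h'.1)
      _ = _ := e.symm
      _ ≤ _ := Finset.sum_le_sum fun T _ => Finset.sum_le_sum fun δ _ => mul_le_mul' le_rfl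
          (pair_JS (Ghe_right T _) (Ghe_right T' _) T T')
  have e2 : ∑ T' ∈ Finset.range (m + 1), ∑ δ' ∈ Finset.Icc (-4 : ℤ) 4,
      6 * ∑' s : {s : List Bool // s ∈ {s | s ∈ SSt m ∧ lev s s.length = a}},
      wE s.1 * ∑' h' : {h' : List Bool // h' ∈ Brd T' ∧ Dj s.1 h'}, wE h'.1 * Ghe T' (3 * T' + δ' - (a + c)) h'.1 =
      ∑' s : {s : List Bool // s ∈ {s | s ∈ SSt m ∧ lev s s.length = a}}, wE s.1 * (6 * ∑ T' ∈ Finset.range (m + 1),
      ∑ δ' ∈ Finset.Icc (-4 : ℤ) 4, ∑' h' : {h' : List Bool // h' ∈ Brd T' ∧ Dj s.1 h'},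
        wE h'.1 * Ghe T' (3 * T' + δ' - (a + c)) h'.1) := by
    simp only [← ENNReal.tsum_mul_left, Finset.mul_sum]
    rw [Summable.tsum_finsetSum fun i _ => ENNReal.summable]
    refine Finset.sum_congr rfl fun T' _ => ?_
    rw [Summable.tsum_finsetSum fun i _ => ENNReal.summable]
    refine Finset.sum_congr rfl fun δ' _ => tsum_congr fun s => tsum_congr fun h' => ?_
    ring
  calc _ ≤ ∑' s : {s : List Bool // s ∈ {s | s ∈ SSt m ∧ lev s s.length = a}}, wE s.1 * (6 * ∑ T' ∈ Finset.range (m + 1),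
      ∑ δ' ∈ Finset.Icc (-4 : ℤ) 4, ∑' h' : {h' : List Bool // h' ∈ Brd T' ∧ Dj s.1 h'},
        wE h'.1 * Ghe T' (3 * T' + δ' - (a + c)) h'.1) :=
        ENNReal.tsum_le_tsum fun s => mul_le_mul' le_rfl (hR s.1 s.2.2)
    _ = _ := e2.symm
    _ ≤ ∑ T' ∈ Finset.range (m + 1), ∑ δ' ∈ Finset.Icc (-4 : ℤ) 4, 6 * (∑ T ∈ Finset.range (m + 1),
        ∑ δ ∈ Finset.Icc (-4 : ℤ) 4, 6 * JS T fun i r u => JS T' fun i' r' u' =>
        gg i i' * (kh r * WB (Ghe T (3 * T + δ - a)) u) * (kh r' * WB (Ghe T' (3 * T' + δ' - (a + c))) u')) :=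
        Finset.sum_le_sum fun T' _ => Finset.sum_le_sum fun δ' _ => mul_le_mul' le_rfl (key T' δ')
    _ = _ := by
        have e36 : (36 : ℝ≥0∞) = 6 * 6 := by norm_num
        simp only [Finset.mul_sum, e36, mul_assoc]

theorem HHe_le_of (hst : StripLev) (m : ℕ) (c : ℤ) : HHe m c ≤ 6 * ∑ T ∈ Finset.range (m + 1),
    ∑ δ ∈ Finset.Icc (-4 : ℤ) 4, WB (Ghe T (3 * T + δ - c)) T := by
  have h := hst (P := Set.univ) (fun _ _ _ => Set.mem_univ _) (fun _ _ _ _ => Set.mem_univ _) m c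
  have e : {t : List Bool | (t ∈ SSt m ∧ lev t t.length = c) ∧ t ∈ (Set.univ : Set (List Bool))} =
      {t | t ∈ SSt m ∧ lev t t.length = c} := by
    ext t
    exact ⟨fun h => h.1, fun h => ⟨h, Set.mem_univ _⟩⟩
  rw [e] at h
  refine h.trans (mul_le_mul' le_rfl ?_)
  refine Finset.sum_le_sum fun T _ => Finset.sum_le_sum fun δ _ => ?_
  unfold WB
  have hinj : Function.Injective (fun h : {h : List Bool // h ∈ Brd T ∧ h ∈ (Set.univ : Set (List Bool))} =>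
      (⟨h.1, h.2.1⟩ : {g : List Bool // g ∈ Brd T})) := by
    intro h h' hh
    exact Subtype.ext (congrArg (fun z => z.1) hh)
  exact ENNReal.tsum_comp_le_tsum_of_injective hinj
    (fun g : {g : List Bool // g ∈ Brd T} => wE g.1 * Ghe T (3 * T + δ - c) g.1)

theorem PPe_le_of (hst : StripLev) (m : ℕ) (c : ℤ) :
    PPe m c ≤ 36 * ∑ δ ∈ Finset.Icc (-4 : ℤ) 4, ∑ δ' ∈ Finset.Icc (-4 : ℤ) 4,
    ∑ T ∈ Finset.range (m + 1), ∑ T' ∈ Finset.range (m + 1), ∑' e : ℤ,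
      JS T fun i r u => JS T' fun i' r' u' =>
        gg i i' * (kh r * WB (Ghe T e) u) * (kh r' * WB (Ghe T' (e + 3 * (T' - T) + (δ' - δ - c))) u') := by
  unfold PPe
  rw [g2_left, tsum_split (SSt m) (fun s => lev s s.length)
    (fun s => wE s * gf {t | t ∈ SSt m ∧ (Dj s t ∧ lev t t.length = lev s s.length + c)})]
  refine (ENNReal.tsum_le_tsum fun a => pair_lev hst m c a).trans (le_of_eq ?_)
  rw [Summable.tsum_finsetSum fun i _ => ENNReal.summable]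
  simp_rw [Summable.tsum_finsetSum (fun i _ => ENNReal.summable), ENNReal.tsum_mul_left]
  -- reindex
  have hre : ∀ (T' T : ℕ) (δ' δ : ℤ), (∑' a : ℤ, JS T fun i r u => JS T' fun i' r' u' =>
        gg i i' * (kh r * WB (Ghe T (3 * T + δ - a)) u) * (kh r' * WB (Ghe T' (3 * T' + δ' - (a + c))) u')) =
      ∑' e : ℤ, JS T fun i r u => JS T' fun i' r' u' =>
        gg i i' * (kh r * WB (Ghe T e) u) * (kh r' * WB (Ghe T' (e + 3 * (T' - T) + (δ' - δ - c))) u') := by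
    intro T' T δ' δ
    rw [← (Equiv.subLeft (3 * (T : ℤ) + δ)).tsum_eq (fun a : ℤ => JS T fun i r u => JS T' fun i' r' u' =>
        gg i i' * (kh r * WB (Ghe T (3 * T + δ - a)) u) * (kh r' * WB (Ghe T' (3 * T' + δ' - (a + c))) u'))]
    refine tsum_congr fun e => ?_
    have e1 : 3 * (T : ℤ) + δ - (Equiv.subLeft (3 * (T : ℤ) + δ)) e = e := by
      rw [Equiv.subLeft_apply]
      ring
    have e2 : 3 * (T' : ℤ) + δ' - ((Equiv.subLeft (3 * (T : ℤ) + δ)) e + c) = e + 3 * (T' - T) + (δ' - δ - c) := by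
      rw [Equiv.subLeft_apply]
      ring
    rw [e1, e2]
  simp only [hre]
  simp only [← Finset.mul_sum]
  congr 1
  -- order of the finite sums
  have s1 : ∀ (F : ℕ → ℤ → ℕ → ℤ → ℝ≥0∞) (A : Finset ℕ) (B : Finset ℤ),
      ∑ T' ∈ A, ∑ δ' ∈ B, ∑ T ∈ A, ∑ δ ∈ B, F T' δ' T δ = ∑ δ ∈ B, ∑ δ' ∈ B, ∑ T ∈ A, ∑ T' ∈ A, F T' δ' T δ := by
    intro F A B
    calc ∑ T' ∈ A, ∑ δ' ∈ B, ∑ T ∈ A, ∑ δ ∈ B, F T' δ' T δ
        = ∑ T' ∈ A, ∑ δ' ∈ B, ∑ δ ∈ B, ∑ T ∈ A, F T' δ' T δ :=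
          Finset.sum_congr rfl fun T' _ => Finset.sum_congr rfl fun δ' _ => Finset.sum_comm
      _ = ∑ T' ∈ A, ∑ δ ∈ B, ∑ δ' ∈ B, ∑ T ∈ A, F T' δ' T δ :=
          Finset.sum_congr rfl fun T' _ => Finset.sum_comm
      _ = ∑ δ ∈ B, ∑ T' ∈ A, ∑ δ' ∈ B, ∑ T ∈ A, F T' δ' T δ := Finset.sum_comm
      _ = ∑ δ ∈ B, ∑ δ' ∈ B, ∑ T' ∈ A, ∑ T ∈ A, F T' δ' T δ :=
          Finset.sum_congr rfl fun δ _ => Finset.sum_comm
      _ = ∑ δ ∈ B, ∑ δ' ∈ B, ∑ T ∈ A, ∑ T' ∈ A, F T' δ' T δ :=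
          Finset.sum_congr rfl fun δ _ => Finset.sum_congr rfl fun δ' _ => Finset.sum_comm
  exact s1 _ _ _

theorem stripLev : StripLev := fun hP hL m c => strip_lev hP hL m c

/-- G3a -/
theorem HHe_le (m : ℕ) (c : ℤ) : HHe m c ≤ 6 * ∑ T ∈ Finset.range (m + 1),
    ∑ δ ∈ Finset.Icc (-4 : ℤ) 4, WB (Ghe T (3 * T + δ - c)) T := HHe_le_of stripLev m c

/-- G3b -/
theorem PPe_le (m : ℕ) (c : ℤ) : PPe m c ≤ 36 * ∑ δ ∈ Finset.Icc (-4 : ℤ) 4, ∑ δ' ∈ Finset.Icc (-4 : ℤ) 4,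
    ∑ T ∈ Finset.range (m + 1), ∑ T' ∈ Finset.range (m + 1), ∑' e : ℤ,
      JS T fun i r u => JS T' fun i' r' u' =>
        gg i i' * (kh r * WB (Ghe T e) u) * (kh r' * WB (Ghe T' (e + 3 * (T' - T) + (δ' - δ - c))) u') :=
  PPe_le_of stripLev m c

end BAR

end HexObs
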