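import Pool.Agent.GLow.LevDefs
import Pool.Agent.BAR.Upper

/-!
GLc, block G5 (S): the sum over all levels of the end of one block of heights.
-/

set_option autoImplicit false

namespace HexObs

open Complex Finset ENNReal

namespace BAR

namespace LevSAux

lemma lg_two {m : ℕ} (hm : 1 ≤ m) : lg (2 * m) ≤ 2 * lg m := by
  unfold lg
  have e : Nat.log 2 (2 * m) = Nat.log 2 m + 1 := by
    rw [mul_comm]
    exact Nat.log_mul_base (by norm_num) (by omega)
  rw [e]
  push_cast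
  have : (0 : ℝ) ≤ (Nat.log 2 m : ℝ) := Nat.cast_nonneg _
  linarith

lemma log_two {m : ℕ} (hm : 1 ≤ m) : 1 + Real.log (2 * m) ≤ 3 * lg m := by
  have h1 : (2 * m : ℝ) ≤ 2 ^ (Nat.log 2 m + 2) := by
    have h := Nat.lt_pow_succ_log_self (b := 2) (by norm_num) m
    have h2 : 2 * m ≤ 2 ^ (Nat.log 2 m + 2) := by
      have e : 2 ^ (Nat.log 2 m + 2) = 2 * 2 ^ (Nat.log 2 m + 1) := by ring
      rw [e]
      exact Nat.mul_le_mul le_rfl h.le
    exact_mod_cast h2
  have hm' : (0 : ℝ) < 2 * m := by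
    have : (1 : ℝ) ≤ m := by exact_mod_cast hm
    linarith
  have h2 : Real.log (2 * m) ≤ ((Nat.log 2 m + 2 : ℕ) : ℝ) * Real.log 2 := by
    rw [← Real.log_pow]
    exact Real.log_le_log hm' h1
  have h3 : Real.log 2 ≤ 1 := by
    have := Real.log_two_lt_d9
    linarith
  have h4 : ((Nat.log 2 m + 2 : ℕ) : ℝ) * Real.log 2 ≤ ((Nat.log 2 m + 2 : ℕ) : ℝ) * 1 :=
    mul_le_mul_of_nonneg_left h3 (Nat.cast_nonneg _)
  unfold lg
  push_cast at h2 h4 ⊢
  have : (0 : ℝ) ≤ (Nat.log 2 m : ℝ) := Nat.cast_nonneg _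
  linarith

/-- the total mass of the law -/
lemma mass {C : ℝ} {d : ℕ} {B : ℝ≥0∞} {W : ℤ → ℕ → ℝ≥0∞} (h : LawW C d B W) {u : ℕ} (hu : u ≤ d) :
    ∑' e, W e u ≤ ENNReal.ofReal (C * lg u ^ C * (uu u / UU u)) * B := by
  obtain ⟨F, h1, h2⟩ := h u hu
  exact (ENNReal.tsum_le_tsum fun e => h1 u le_rfl (by omega) e).trans h2

/-- one dyadic block for a weight of the last piece that is bounded by W u_s / U_s -/
lemma block' {W : ℝ} (hW : 0 ≤ W) {B : ℝ≥0∞} {f : ℕ → ℝ} (hf : ∀ n, 0 ≤ f n) {D : ℕ} (hD : 1 ≤ D)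
    {G : ℕ → ℝ≥0∞} (h : ∀ u, u < 2 * D → G u ≤ ENNReal.ofReal (W * (uu u / UU u)) * B) :
    ∑ T ∈ Finset.Ico D (2 * D), JS T (fun i r u => ENNReal.ofReal (f i) * (kh r * G u)) ≤ ENNReal.ofReal W * B *
      ENNReal.ofReal (Dyadic.SS f kk (fun s => uu s / UU s) D) := by
  have hn : ∀ d s k, 0 ≤ f s * kk k * (uu (d - s - k) / UU (d - s - k)) := fun d s k =>
    mul_nonneg (mul_nonneg (hf s) (kk_nonneg' k)) (uu_div_nonneg _)
  unfold Dyadic.SS
  rw [ENNReal.ofReal_sum_of_nonneg fun d _ => Finset.sum_nonneg fun s _ => Finset.sum_nonneg fun k _ => hn d s k,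
    Finset.mul_sum]
  refine Finset.sum_le_sum fun T hT => ?_
  rw [Finset.mem_Ico] at hT
  unfold JS
  rw [if_neg (by omega), ENNReal.ofReal_sum_of_nonneg fun s _ => Finset.sum_nonneg fun k _ => hn T s k, Finset.mul_sum]
  refine Finset.sum_le_sum fun i hi => ?_
  rw [Finset.mem_range] at hi
  rw [ENNReal.ofReal_sum_of_nonneg fun k _ => hn T i k, Finset.mul_sum]
  have e : Finset.Ico (T / 2 + 1 - i) (T + 1 - i) = Finset.Icc (T / 2 + 1 - i) (T - i) := by
    ext x
    simp only [Finset.mem_Ico, Finset.mem_Icc]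
    omega
  rw [e]
  refine Finset.sum_le_sum fun r hr => ?_
  rw [Finset.mem_Icc] at hr
  have hr0 : r ≠ 0 := by omega
  have ek : kh r = ENNReal.ofReal (kk r) := by
    unfold kh
    rw [if_neg hr0, kap_eq]
  show ENNReal.ofReal (f i) * (kh r * G (T - i - r)) ≤ _
  rw [ek]
  have h1 := h (T - i - r) (by omega)
  calc ENNReal.ofReal (f i) * (ENNReal.ofReal (kk r) * G (T - i - r))
      ≤ ENNReal.ofReal (f i) * (ENNReal.ofReal (kk r) * (ENNReal.ofReal (W * (uu (T - i - r) / UU (T - i - r))) *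
        B)) := mul_le_mul' le_rfl (mul_le_mul' le_rfl h1)
    _ = _ := by
        rw [ENNReal.ofReal_mul hW, ENNReal.ofReal_mul (mul_nonneg (hf i) (kk_nonneg' r)), ENNReal.ofReal_mul (hf i)]
        ring

end LevSAux

open LevSAux in
/-- G5 (S): everything -/
theorem sumS {C : ℝ} (hC : 1 ≤ C) : ∃ C' : ℝ, 1 ≤ C' ∧ ∀ D : ℕ, 1 ≤ D → ∀ (B : ℝ≥0∞) (W : ℤ → ℕ → ℝ≥0∞),
    LawW C (2 * D) B W → ∑ T ∈ Finset.Ico D (2 * D), ∑' e : ℤ,
      JS T (fun i r u => ENNReal.ofReal (uu i / UU i) * (kh r * W e u)) ≤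
      ENNReal.ofReal (C' * lg D ^ C' / UU D) * B := by
  have hp : (1 : ℝ) ≤ 2 ^ C := Real.one_le_rpow (by norm_num) (by linarith)
  refine ⟨360 * C * 2 ^ C + C + 2, by nlinarith, ?_⟩
  intro D hD B W hW
  set L : ℝ := lg D with hL
  have hL1 : 1 ≤ L := lg_one _
  have hL0 : 0 < L := by linarith
  have hU : 0 < UU D := Num2Aux.UU_pos D
  set V : ℝ := C * (2 * L) ^ C with hV
  have hV0 : 0 ≤ V := by positivity
  have h1 : ∀ u, u < 2 * D → ∑' e, W e u ≤ ENNReal.ofReal (V * (uu u / UU u)) * B := by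
    intro u hu
    refine (mass hW (by omega : u ≤ 2 * D)).trans (mul_le_mul' (ENNReal.ofReal_le_ofReal ?_) le_rfl)
    refine mul_le_mul_of_nonneg_right ?_ (uu_div_nonneg u)
    refine mul_le_mul_of_nonneg_left ?_ (by linarith)
    refine Real.rpow_le_rpow (le_trans zero_le_one (lg_one u)) ?_ (by linarith)
    exact (lg_mono (by omega)).trans (lg_two hD)
  have h2 : ∀ T, ∑' e : ℤ, JS T (fun i r u => ENNReal.ofReal (uu i / UU i) * (kh r * W e u)) =
      JS T (fun i r u => ENNReal.ofReal (uu i / UU i) * (kh r * ∑' e, W e u)) := by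
    intro T
    rw [JS_tsum]
    congr 1
    funext i r u
    rw [ENNReal.tsum_mul_left, ENNReal.tsum_mul_left]
  rw [Finset.sum_congr rfl fun T _ => h2 T]
  refine (block' hV0 uu_div_nonneg hD (G := fun u => ∑' e, W e u) h1).trans ?_
  have h3 := Dyadic.S1 (C := 2) (u := uu) (U := UU) (lam := kk) Num2Aux.zero Num2Aux.nonneg
    (fun m n h => Num2Aux.anti h) (fun n => rfl) (by norm_num) kk_nonneg' tail_kk hD
  have h4 : (1 + Real.log (2 * D)) ^ 2 ≤ 9 * L ^ 2 := by
    have h5 := log_two hD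
    have h6 : 0 ≤ 1 + Real.log (2 * D) := by
      have h7 : (1 : ℝ) ≤ 2 * D := by
        have : (1 : ℝ) ≤ D := by exact_mod_cast hD
        linarith
      have := Real.log_nonneg h7
      linarith
    nlinarith
  have h5 : Dyadic.SS (fun s => uu s / UU s) kk (fun s => uu s / UU s) D ≤ 360 * L ^ 2 / UU D := by
    refine h3.trans ?_
    apply div_le_div_of_nonneg_right _ hU.le
    linarith
  calc ENNReal.ofReal V * B * ENNReal.ofReal (Dyadic.SS (fun s => uu s / UU s) kk (fun s => uu s / UU s) D)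
      ≤ ENNReal.ofReal V * B * ENNReal.ofReal (360 * L ^ 2 / UU D) :=
        mul_le_mul' le_rfl (ENNReal.ofReal_le_ofReal h5)
    _ = ENNReal.ofReal (V * (360 * L ^ 2 / UU D)) * B := by
        rw [ENNReal.ofReal_mul hV0]
        ring
    _ ≤ _ := by
        refine mul_le_mul' (ENNReal.ofReal_le_ofReal ?_) le_rfl
        have h6 : (2 * L) ^ C = 2 ^ C * L ^ C := Real.mul_rpow (by norm_num) hL0.le
        have h7 : L ^ C * L ^ 2 = L ^ (C + 2) := by
          rw [Real.rpow_add hL0]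
          norm_num
        have h8 : V * (360 * L ^ 2 / UU D) = 360 * C * 2 ^ C * L ^ (C + 2) / UU D := by
          rw [hV, h6, ← h7]
          ring
        rw [h8]
        apply div_le_div_of_nonneg_right _ hU.le
        have h9 : L ^ (C + 2) ≤ L ^ (360 * C * 2 ^ C + C + 2) :=
          Real.rpow_le_rpow_of_exponent_le hL1 (by nlinarith)
        have h10 : 0 ≤ L ^ (C + 2) := Real.rpow_nonneg hL0.le _
        exact mul_le_mul (by linarith) h9 h10 (by positivity)

end BAR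

end HexObs
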