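import Pool.Agent.GLow.LevM72
import Pool.Agent.GLow.LevPairs
import Pool.Agent.GLow.LevFront
import Pool.Agent.GLow.LevS
import Pool.Agent.GLow.Alpha

/-!
GLc: the final bound. Walks whose two ends lie on nearly the same level, of extent at most m rows, have a critical
weight of at most m ^ (h - 7 / 4 + ε) times the weight of the half plane walks, if the latter is at most m ^ (h + ε).
-/

set_option autoImplicit false

namespace HexObs

open Complex Finset ENNReal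

namespace BAR

/-- local bound for the law of the irreducible bridges, the form used in GLc -/
theorem hLam : M72.HLam := by
  obtain ⟨A, hA, h⟩ := GLow.window_kk
  refine ⟨A, hA, fun x S hS hx => (h x S hS hx).trans ?_⟩
  have h1 : (1 : ℝ) ≤ lg x ^ A := Real.one_le_rpow (lg_one x) hA.le
  have h2 : 0 ≤ (S : ℝ) ^ (1 / 4 : ℝ) / x := by positivity
  calc A * ((S : ℝ) ^ (1 / 4 : ℝ) / x) = (A * 1) * ((S : ℝ) ^ (1 / 4 : ℝ) / x) := by rw [mul_one]
    _ ≤ (A * lg x ^ A) * ((S : ℝ) ^ (1 / 4 : ℝ) / x) :=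
        mul_le_mul_of_nonneg_right (mul_le_mul_of_nonneg_left h1 hA.le) h2

theorem stG1 : StG1 := fun m c => TwoL_le m c

theorem stG3a : StG3a := fun m c => HHe_le m c

theorem stG3b : StG3b := fun m c => PPe_le m c

theorem stM : StM := M72.stM hLam

theorem stS : StS := fun _ hC => sumS hC

/-- **GLc in terms of the dyadic sums** -/
theorem TwoL_SM (c0 : ℕ) : ∃ C : ℝ, 1 ≤ C ∧ ∀ m : ℕ, 1 ≤ m → ∀ c : ℤ, |c| ≤ c0 →
    TwoL m c ≤ ENNReal.ofReal (C * lg m ^ C) * (SH m * MH m) :=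
  TwoL_le_SM stG1 stG3a stG3b stM stS c0

/-- **BLOCK GLc** -/
theorem TwoL_bound {h : ℝ} (hh : 1 ≤ h) (H : HUp h) (c0 : ℕ) : ∀ ε : ℝ, 0 < ε → ∃ C : ℝ, 0 < C ∧ ∀ m : ℕ, 1 ≤ m →
    ∀ c : ℤ, |c| ≤ c0 → TwoL m c ≤ ENNReal.ofReal (C * (m : ℝ) ^ (h - 7 / 4 + ε)) * HH (5 * m) :=
  TwoL_upper stG1 stG3a stG3b stM stS hh H c0

end BAR

end HexObs
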