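import Pool.Agent.GLow.LevDefs
import Pool.Agent.BAR.Pairs

/-!
GLc, block G2: half plane words with prescribed level of the end, cut at the last top vertex.
-/

set_option autoImplicit false

namespace HexObs

open Complex Finset ENNReal

namespace BAR

namespace LevS

lemma vx_cut (s r : List Bool) (k : ℕ) :
    vx oo up (s ++ r) (s.length + k) = vx (vx oo up s s.length) (dx up s s.length) r k := by
  have h1 : vx oo up (s ++ r) (s.length + k) =
      vx (vx oo up (s ++ r) s.length) (dx up (s ++ r) s.length) r k := by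
    unfold vx dx
    rw [vs_shift]
    apply vs_congr
    intro k _
    exact tf_append_right k
  have e1 : vx oo up (s ++ r) s.length = vx oo up s s.length := vx_append (by omega)
  have e2 : dx up (s ++ r) s.length = dx up s s.length := dx_append le_rfl
  rw [h1, e1, e2]

/-- levels of the part after the last top vertex -/
lemma lev_hang {T : ℕ} {s : List Bool} {b : Bool} (hg : s ++ [b] ∈ Brd T) (r : List Bool) (k : ℕ) :
    lev (s ++ ((!b) :: (!b) :: r)) (s.length + 2 + k) = 3 * T - 1 - lev r k := by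
  obtain ⟨_, _, h3, h4⟩ := mem_Brd.1 hg
  have hgl : (s ++ [b]).length = s.length + 1 := by simp
  have h5 := dx_append_one (d0 := up) s b
  rw [h3] at h5
  have hds : dx up s s.length = turn (!b) up :=
    ((turn_turn b (dx up s s.length)).symm).trans (congrArg (turn (!b)) h5.symm)
  have hal : (s ++ [!b, !b]).length = s.length + 2 := by simp
  have hd1 : dx up (s ++ [!b]) (s ++ [!b]).length = turn (!b) (turn (!b) up) := by
    rw [dx_append_one, hds]
  have hd2 : dx up (s ++ [!b, !b]) (s ++ [!b, !b]).length = -up := by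
    have e : s ++ [!b, !b] = (s ++ [!b]) ++ [!b] := by simp
    rw [e, dx_append_one, hd1]
    cases b <;> decide
  have hl1 : lev (s ++ [!b, !b]) (s.length + 1) = 3 * T := by
    rw [lev_append (by omega)]
    rw [hgl, lev_append (by omega)] at h4
    exact h4
  have hl2 : lev (s ++ [!b, !b]) (s ++ [!b, !b]).length = 3 * T - 1 := by
    rw [hal, show s.length + 2 = (s.length + 1) + 1 from rfl, lev_succ, hl1]
    have e : dx up (s ++ [!b, !b]) (s.length + 1) = turn (!b) (turn (!b) up) := by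
      have e1 : s ++ [!b, !b] = (s ++ [!b]) ++ [!b] := by simp
      have e2 : (s ++ [!b]).length = s.length + 1 := by simp
      rw [e1, ← e2, dx_append le_rfl, hd1]
    rw [e]
    have e3 : ip (turn (!b) (turn (!b) up)) up = -1 := by cases b <;> decide
    rw [e3]
    ring
  have h6 := vx_cut (s ++ [!b, !b]) r k
  rw [hd2, vx_turned, hal] at h6
  have e4 : (s ++ [!b, !b]) ++ r = s ++ ((!b) :: (!b) :: r) := by simp
  rw [e4] at h6
  unfold lev at hl2 ⊢
  rw [h6, ip_sub_left, ← hal, hl2]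

lemma ip_le_two : ∀ d ∈ dirs, -2 ≤ ip d up ∧ ip d up ≤ 2 := by
  decide

/-- the level of the end of a word with one more letter -/
lemma elev_step (t : List Bool) (c : Bool) : lev (t ++ [c]) (t ++ [c]).length = lev t t.length + ip (dx up t t.length) up := by
  have hl : (t ++ [c]).length = t.length + 1 := by simp
  rw [hl, lev_append le_rfl, lev_succ]

lemma elev_short {e : List Bool} (he : e.length ≤ 1) (r : List Bool) :
    lev r r.length - 2 ≤ lev (r ++ e) (r ++ e).length ∧ lev (r ++ e) (r ++ e).length ≤ lev r r.length + 2 := by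
  match e, he with
  | [], _ =>
    rw [List.append_nil]
    constructor <;> omega
  | [c], _ =>
    rw [elev_step]
    obtain ⟨h1, h2⟩ := ip_le_two _ (dx_mem upd r r.length)
    constructor <;> omega
  | _ :: _ :: _, h => simp at h

/-- the level of the end does not depend on the last letter -/
lemma elev_last (t : List Bool) (c c' : Bool) :
    lev (t ++ [c]) (t ++ [c]).length = lev (t ++ [c']) (t ++ [c']).length := by
  rw [elev_step, elev_step]

lemma elev_hang {T : ℕ} {s : List Bool} {b : Bool} (hg : s ++ [b] ∈ Brd T) (r : List Bool) :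
    lev (s ++ ((!b) :: (!b) :: r)) (s ++ ((!b) :: (!b) :: r)).length = 3 * T - 1 - lev r r.length := by
  have h := lev_hang hg r r.length
  rw [← h]
  congr 1
  simp
  omega

lemma gf_emp : gf (∅ : Set (List Bool)) = 0 := by
  unfold gf
  rw [_root_.tsum_subtype]
  simp

lemma gf_biUnion_le {ι : Type*} [DecidableEq ι] (I : Finset ι) (Q : ι → Set (List Bool)) :
    gf (⋃ i ∈ I, Q i) ≤ ∑ i ∈ I, gf (Q i) := by
  induction I using Finset.induction_on with
  | empty => simp [gf_emp]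
  | insert a s ha ih =>
    rw [Finset.set_biUnion_insert, Finset.sum_insert ha]
    exact (gf_union_le _ _).trans (add_le_add le_rfl ih)

/-- the walks that belong to the bridge g, with the level of the end -/
lemma gf_A_lev {T : ℕ} (hT : 1 ≤ T) (c : ℤ) {g : List Bool} (hg : g ∈ Brd T) :
    gf {t | t ∈ B2bA T [] g ∧ lev t t.length = c} ≤
      wE g * (4 * ∑ δ ∈ Finset.Icc (-4 : ℤ) 4, Ghe T (3 * T + δ - c) g) := by
  rcases List.eq_nil_or_concat g with h | ⟨s, b, h⟩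
  · have : {t | t ∈ B2bA T [] g ∧ lev t t.length = c} ⊆ ∅ := by
      rintro t ⟨⟨s, b, hg', _⟩, _⟩
      rw [h] at hg'
      simp at hg'
    exact (gf_mono this).trans (by rw [gf_emp]; exact zero_le)
  have hgs : g = s ++ [b] := by rw [h, List.concat_eq_append]
  have hg2 : s ++ [b] ∈ Brd T := hgs ▸ hg
  have hg3 : lev g g.length = 3 * T := (mem_Brd.1 hg).2.2.2
  -- the four kinds
  set K0 : Set (List Bool) := {t | (t = s ++ [true] ∨ t = s ++ [false]) ∧ 3 * (T : ℤ) + 0 - c = 0} with hK0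
  set K1 : Set (List Bool) := {t | t = s ++ [!b, b] ∧ 3 * (T : ℤ) + (-1) - c = 0} with hK1
  set X : ℤ → Set (List Bool) := fun δ => {t | ∃ a ∈ ({s ++ [!b, !b]} : Set (List Bool)),
    ∃ q ∈ {q | ∃ r ∈ {r | (r ∈ SSt (T - 1) ∧ lev r r.length = 3 * T + δ - c) ∧ Hang g b r},
      ∃ e ∈ {e : List Bool | e.length ≤ 1}, q = r ++ e}, t = a ++ q} with hX
  have h1 : {t | t ∈ B2bA T [] g ∧ lev t t.length = c} ⊆ K0 ∪ (K1 ∪ ⋃ δ ∈ Finset.Icc (-4 : ℤ) 4, X δ) := by
    rintro t ⟨⟨s', b', hg', ht⟩, hc⟩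
    have h2 : s' = s ∧ b' = b := by
      rw [hgs] at hg'
      have := List.append_inj' hg' rfl
      exact ⟨this.1.symm, by simpa using this.2.symm⟩
    obtain ⟨rfl, rfl⟩ := h2
    rcases ht with ⟨x, rfl⟩ | ⟨r, e, hr, he, hh, ht⟩
    · left
      have e1 := elev_last s' x b'
      rw [← hgs, hg3, hc] at e1
      refine ⟨?_, by omega⟩
      cases x
      · exact Or.inr rfl
      · exact Or.inl rfl
    · rcases ht with rfl | ⟨rfl, rfl⟩
      · right
        right
        have e1 := elev_hang hg2 (r ++ e)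
        rw [hc] at e1
        obtain ⟨e2, e3⟩ := elev_short he r
        rw [Set.mem_iUnion₂]
        refine ⟨lev r r.length + c - 3 * T, Finset.mem_Icc.2 ⟨by omega, by omega⟩, ?_⟩
        refine ⟨_, rfl, r ++ e, ⟨r, ⟨⟨hr, by ring⟩, ?_⟩, e, he, rfl⟩, by simp⟩
        rw [hgs]
        exact hh
      · right
        left
        refine ⟨rfl, ?_⟩
        have e1 := elev_hang hg2 []
        have e2 : lev ([] : List Bool) ([] : List Bool).length = 0 := lev_zero []
        rw [e2] at e1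
        have e3 : s' ++ ((!b') :: (!b') :: []) = (s' ++ [!b']) ++ [!b'] := by simp
        have e4 : s' ++ [!b', b'] = (s' ++ [!b']) ++ [b'] := by simp
        rw [e3] at e1
        rw [e4, elev_last _ b' (!b'), e1] at hc
        omega
  have w1 : ∀ x, wE (s ++ [x]) = wE g := by
    intro x
    apply B2b_wE_length
    rw [hgs]
    simp
  have w2 : ∀ x y, wE (s ++ [x, y]) ≤ wE g := by
    intro x y
    have e1 : s ++ [x, y] = (s ++ [x]) ++ [y] := by simp
    rw [e1, wE_append, w1]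
    exact mul_le_of_le_one_right' (B2b_wE_le_one _)
  have g0 : gf K0 ≤ wE g * (2 * if 3 * (T : ℤ) + 0 - c = 0 then 1 else 0) := by
    split_ifs with hc
    · have : K0 ⊆ {s ++ [true]} ∪ {s ++ [false]} := fun t ht => ht.1
      refine (gf_mono this).trans ((gf_union_le _ _).trans (le_of_eq ?_))
      rw [B2b_gf_singleton, B2b_gf_singleton, w1, w1]
      ring
    · have : K0 ⊆ ∅ := fun t ht => hc ht.2
      exact (gf_mono this).trans (by rw [gf_emp]; exact zero_le)
  have g1 : gf K1 ≤ wE g * (1 * if 3 * (T : ℤ) + (-1) - c = 0 then 1 else 0) := by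
    split_ifs with hc
    · have : K1 ⊆ {s ++ [!b, b]} := fun t ht => ht.1
      refine (gf_mono this).trans ?_
      rw [B2b_gf_singleton, mul_one, mul_one]
      exact w2 _ _
    · have : K1 ⊆ ∅ := fun t ht => hc ht.2
      exact (gf_mono this).trans (by rw [gf_emp]; exact zero_le)
  have gX : ∀ δ : ℤ, gf (X δ) ≤ wE g * (3 * GHe (T - 1) (3 * T + δ - c) g) := by
    intro δ
    have hR : gf {r | (r ∈ SSt (T - 1) ∧ lev r r.length = 3 * T + δ - c) ∧ Hang g b r} ≤
        GHe (T - 1) (3 * T + δ - c) g := by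
      unfold GHe
      cases b
      · exact le_add_self
      · exact le_self_add
    refine (gf_le_mul (fun t ht => ht)).trans ?_
    rw [B2b_gf_singleton]
    apply mul_le_mul' (w2 _ _)
    refine (gf_le_mul (Q := {r | (r ∈ SSt (T - 1) ∧ lev r r.length = 3 * T + δ - c) ∧ Hang g b r})
      (R := {e : List Bool | e.length ≤ 1}) (fun t ht => ht)).trans ?_
    rw [mul_comm]
    exact mul_le_mul' B2b_gf_short hR
  have hsum : 2 * (if 3 * (T : ℤ) + 0 - c = 0 then (1 : ℝ≥0∞) else 0) + (1 * (if 3 * (T : ℤ) + (-1) - c = 0 then 1 else 0) +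
      ∑ δ ∈ Finset.Icc (-4 : ℤ) 4, 3 * GHe (T - 1) (3 * T + δ - c) g) ≤
      4 * ∑ δ ∈ Finset.Icc (-4 : ℤ) 4, Ghe T (3 * T + δ - c) g := by
    have e0 : (if 3 * (T : ℤ) + 0 - c = 0 then (1 : ℝ≥0∞) else 0) ≤
        ∑ δ ∈ Finset.Icc (-4 : ℤ) 4, if 3 * (T : ℤ) + δ - c = 0 then 1 else 0 :=
      Finset.single_le_sum (f := fun δ : ℤ => if 3 * (T : ℤ) + δ - c = 0 then (1 : ℝ≥0∞) else 0)
        (fun _ _ => zero_le) (Finset.mem_Icc.2 ⟨by norm_num, by norm_num⟩)
    have e1 : (if 3 * (T : ℤ) + (-1) - c = 0 then (1 : ℝ≥0∞) else 0) ≤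
        ∑ δ ∈ Finset.Icc (-4 : ℤ) 4, if 3 * (T : ℤ) + δ - c = 0 then 1 else 0 :=
      Finset.single_le_sum (f := fun δ : ℤ => if 3 * (T : ℤ) + δ - c = 0 then (1 : ℝ≥0∞) else 0)
        (fun _ _ => zero_le) (Finset.mem_Icc.2 ⟨by norm_num, by norm_num⟩)
    have e2 : ∀ δ : ℤ, Ghe T (3 * T + δ - c) g =
        (if 3 * (T : ℤ) + δ - c = 0 then 1 else 0) + GHe (T - 1) (3 * T + δ - c) g := by
      intro δ
      unfold Ghe
      rw [if_neg (show ¬ T = 0 by omega)]
    simp only [e2]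
    rw [Finset.sum_add_distrib, mul_add, ← Finset.mul_sum]
    set A := ∑ δ ∈ Finset.Icc (-4 : ℤ) 4, if 3 * (T : ℤ) + δ - c = 0 then (1 : ℝ≥0∞) else 0
    set B := ∑ δ ∈ Finset.Icc (-4 : ℤ) 4, GHe (T - 1) (3 * T + δ - c) g
    calc _ ≤ 2 * A + (1 * A + 3 * B) := by gcongr
      _ = 3 * A + 3 * B := by ring
      _ ≤ 4 * A + 4 * B := by gcongr <;> norm_num
  calc _ ≤ gf (K0 ∪ (K1 ∪ ⋃ δ ∈ Finset.Icc (-4 : ℤ) 4, X δ)) := gf_mono h1
    _ ≤ gf K0 + (gf K1 + ∑ δ ∈ Finset.Icc (-4 : ℤ) 4, gf (X δ)) :=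
        (gf_union_le _ _).trans (add_le_add le_rfl ((gf_union_le _ _).trans (add_le_add le_rfl (gf_biUnion_le _ _))))
    _ ≤ wE g * (2 * if 3 * (T : ℤ) + 0 - c = 0 then 1 else 0) + (wE g * (1 * if 3 * (T : ℤ) + (-1) - c = 0 then 1 else 0) +
        ∑ δ ∈ Finset.Icc (-4 : ℤ) 4, wE g * (3 * GHe (T - 1) (3 * T + δ - c) g)) :=
        add_le_add g0 (add_le_add g1 (Finset.sum_le_sum fun δ _ => gX δ))
    _ = wE g * (2 * (if 3 * (T : ℤ) + 0 - c = 0 then (1 : ℝ≥0∞) else 0) + (1 * (if 3 * (T : ℤ) + (-1) - c = 0 then 1 else 0) +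
      ∑ δ ∈ Finset.Icc (-4 : ℤ) 4, 3 * GHe (T - 1) (3 * T + δ - c) g)) := by
        rw [← Finset.mul_sum]
        ring
    _ ≤ _ := mul_le_mul_right hsum _

/-- strip walks that visit the top, with the level of the end -/
lemma gf_HT_lev {P : Set (List Bool)} (hP : PrefC P) (hL : LastC P) {T : ℕ} (hT : 1 ≤ T) (c : ℤ) :
    gf {t | (t ∈ HT T ∧ lev t t.length = c) ∧ t ∈ P} ≤ ∑' g : {g : List Bool // g ∈ Brd T ∧ g ∈ P},
      wE g.1 * (4 * ∑ δ ∈ Finset.Icc (-4 : ℤ) 4, Ghe T (3 * T + δ - c) g.1) := by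
  have h1 : {t | (t ∈ HT T ∧ lev t t.length = c) ∧ t ∈ P} ⊆ ⋃ g : {g : List Bool // g ∈ Brd T ∧ g ∈ P},
      {t | t ∈ B2bA T [] g.1 ∧ lev t t.length = c} := by
    rintro t ⟨⟨ht, htc⟩, htP⟩
    obtain ⟨s, b, hs, hcase⟩ := HT_split hT ht
    have hsP : s ++ [b] ∈ P := by
      rcases hcase with ⟨c, rfl⟩ | ⟨r, e, _, _, _, h | ⟨_, h⟩⟩
      · exact hL _ _ _ htP
      · have e1 : t = (s ++ [!b]) ++ ((!b) :: (r ++ e)) := by rw [h]; simp
        rw [e1] at htP
        exact hL _ _ _ (hP _ _ htP)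
      · have e1 : t = (s ++ [!b]) ++ [b] := by rw [h]; simp
        rw [e1] at htP
        exact hL _ _ _ (hP _ _ htP)
    rw [Set.mem_iUnion]
    refine ⟨⟨s ++ [b], hs, hsP⟩, ⟨s, b, rfl, ?_⟩, htc⟩
    rcases hcase with h | ⟨r, e, hr, he, hh, h⟩
    · exact Or.inl h
    · exact Or.inr ⟨r, e, hr, he, hh [] (Or.inl rfl), h⟩
  calc _ ≤ gf (⋃ g : {g : List Bool // g ∈ Brd T ∧ g ∈ P}, {t | t ∈ B2bA T [] g.1 ∧ lev t t.length = c}) := gf_mono h1
    _ ≤ ∑' g : {g : List Bool // g ∈ Brd T ∧ g ∈ P}, gf {t | t ∈ B2bA T [] g.1 ∧ lev t t.length = c} :=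
        ENNReal.tsum_iUnion_le_tsum wE _
    _ ≤ _ := ENNReal.tsum_le_tsum (fun g => gf_A_lev hT c g.2.1)

end LevS

open LevS

/-- block G2 -/
theorem strip_lev {P : Set (List Bool)} (hP : PrefC P) (hL : LastC P) (m : ℕ) (c : ℤ) :
    gf {t | (t ∈ SSt m ∧ lev t t.length = c) ∧ t ∈ P} ≤ 6 * ∑ T ∈ Finset.range (m + 1),
      ∑ δ ∈ Finset.Icc (-4 : ℤ) 4, ∑' h : {h : List Bool // h ∈ Brd T ∧ h ∈ P},
        wE h.1 * Ghe T (3 * T + δ - c) h.1 := by
  classical
  set S : ℕ → ℝ≥0∞ := fun T => ∑ δ ∈ Finset.Icc (-4 : ℤ) 4, ∑' h : {h : List Bool // h ∈ Brd T ∧ h ∈ P},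
        wE h.1 * Ghe T (3 * T + δ - c) h.1 with hS
  have hSe : ∀ T, ∑' g : {g : List Bool // g ∈ Brd T ∧ g ∈ P},
      wE g.1 * (4 * ∑ δ ∈ Finset.Icc (-4 : ℤ) 4, Ghe T (3 * T + δ - c) g.1) = 4 * S T := by
    intro T
    simp only [hS]
    rw [← Summable.tsum_finsetSum fun i _ => ENNReal.summable, ← ENNReal.tsum_mul_left]
    refine tsum_congr fun g => ?_
    simp only [Finset.mul_sum]
    exact Finset.sum_congr rfl fun δ _ => by ring
  -- bridges with the right level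
  have hS1 : ∀ (T : ℕ) (δ : ℤ), δ ∈ Finset.Icc (-4 : ℤ) 4 → 3 * (T : ℤ) + δ - c = 0 → gf {g | g ∈ Brd T ∧ g ∈ P} ≤ S T := by
    intro T δ hδ h0
    have h1 : gf {g | g ∈ Brd T ∧ g ∈ P} ≤ ∑' h : {h : List Bool // h ∈ Brd T ∧ h ∈ P},
        wE h.1 * Ghe T (3 * T + δ - c) h.1 := by
      refine ENNReal.tsum_le_tsum fun h => ?_
      have h2 : 1 ≤ Ghe T (3 * T + δ - c) h.1 := by
        unfold Ghe
        rw [if_pos h0]
        exact le_self_add
      calc wE h.1 = wE h.1 * 1 := (mul_one _).symm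
        _ ≤ _ := mul_le_mul_right h2 _
    refine h1.trans ?_
    exact Finset.single_le_sum (f := fun δ : ℤ => ∑' h : {h : List Bool // h ∈ Brd T ∧ h ∈ P},
        wE h.1 * Ghe T (3 * T + δ - c) h.1) (fun _ _ => zero_le) hδ
  have hH : ∀ T, gf {t | (t ∈ HT T ∧ lev t t.length = c) ∧ t ∈ P} ≤ 4 * S T := by
    intro T
    rcases Nat.eq_zero_or_pos T with h0 | h0
    · subst h0
      by_cases hc : c = 0
      · have e : {t | (t ∈ HT 0 ∧ lev t t.length = c) ∧ t ∈ P} ⊆ {g | g ∈ Brd 0 ∧ g ∈ P} := by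
          rintro t ⟨⟨h1, _⟩, h2⟩
          refine ⟨?_, h2⟩
          rw [HT_zero] at h1
          rw [Brd_zero]
          exact h1
        calc _ ≤ gf {g | g ∈ Brd 0 ∧ g ∈ P} := gf_mono e
          _ ≤ S 0 := hS1 0 0 (by decide) (by rw [hc]; norm_num)
          _ = 1 * S 0 := (one_mul _).symm
          _ ≤ 4 * S 0 := mul_le_mul_left (by norm_num) _
      · have e : {t | (t ∈ HT 0 ∧ lev t t.length = c) ∧ t ∈ P} ⊆ ∅ := by
          rintro t ⟨⟨h1, h3⟩, _⟩
          rw [HT_zero] at h1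
          rw [h1] at h3
          exact hc (h3.symm.trans (lev_zero []))
        exact (gf_mono e).trans (by rw [gf_emp]; exact zero_le)
    · exact (gf_HT_lev hP hL h0 c).trans (le_of_eq (hSe T))
  have hB : ∀ (T : ℕ) (x : Bool), gf {t | (∃ g ∈ Brd T ∩ P, t = g ++ [x]) ∧ lev t t.length = c} ≤ S T := by
    intro T x
    by_cases hc : 3 * (T : ℤ) + 2 - c = 0
    · have h1 := gf_le_mul (P := {t | (∃ g ∈ Brd T ∩ P, t = g ++ [x]) ∧ lev t t.length = c})
        (Q := {g | g ∈ Brd T ∧ g ∈ P}) (R := {[x]}) (by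
          rintro t ⟨⟨g, hg, rfl⟩, _⟩
          exact ⟨g, hg, [x], rfl, rfl⟩)
      rw [B2b_gf_singleton] at h1
      calc _ ≤ _ := h1
        _ ≤ gf {g | g ∈ Brd T ∧ g ∈ P} * 1 := mul_le_mul_right (B2b_wE_le_one _) _
        _ = gf {g | g ∈ Brd T ∧ g ∈ P} := mul_one _
        _ ≤ S T := hS1 T 2 (by decide) hc
    · have e : {t | (∃ g ∈ Brd T ∩ P, t = g ++ [x]) ∧ lev t t.length = c} ⊆ ∅ := by
        rintro t ⟨⟨g, hg, rfl⟩, h3⟩
        have h4 := mem_Brd.1 hg.1
        rw [elev_step, h4.2.2.1, h4.2.2.2] at h3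
        have h5 : ip up up = 2 := by decide
        rw [h5] at h3
        exact hc (by omega)
      exact (gf_mono e).trans (by rw [gf_emp]; exact zero_le)
  have hsub : {t | (t ∈ SSt m ∧ lev t t.length = c) ∧ t ∈ P} ⊆
      (⋃ T ∈ Finset.range (m + 1), {t | (t ∈ HT T ∧ lev t t.length = c) ∧ t ∈ P}) ∪
      ((⋃ T ∈ Finset.range (m + 1), {t | (∃ g ∈ Brd T ∩ P, t = g ++ [true]) ∧ lev t t.length = c}) ∪
       (⋃ T ∈ Finset.range (m + 1), {t | (∃ g ∈ Brd T ∩ P, t = g ++ [false]) ∧ lev t t.length = c})) := by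
    rintro t ⟨⟨ht, htc⟩, htP⟩
    rcases SSt_cases ht with ⟨T, hT, h⟩ | ⟨T, hT, g, hg, c', rfl⟩
    · left
      rw [Set.mem_iUnion₂]
      exact ⟨T, Finset.mem_range.2 (by omega), ⟨h, htc⟩, htP⟩
    · right
      have hgP : g ∈ P := hP g [c'] htP
      cases c'
      · right
        rw [Set.mem_iUnion₂]
        exact ⟨T, Finset.mem_range.2 (by omega), ⟨g, ⟨hg, hgP⟩, rfl⟩, htc⟩
      · left
        rw [Set.mem_iUnion₂]
        exact ⟨T, Finset.mem_range.2 (by omega), ⟨g, ⟨hg, hgP⟩, rfl⟩, htc⟩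
  calc _ ≤ _ := gf_mono hsub
    _ ≤ ∑ T ∈ Finset.range (m + 1), 4 * S T + (∑ T ∈ Finset.range (m + 1), S T + ∑ T ∈ Finset.range (m + 1), S T) :=
        (gf_union_le _ _).trans (add_le_add ((gf_biUnion_le _ _).trans (Finset.sum_le_sum fun T _ => hH T))
          ((gf_union_le _ _).trans (add_le_add ((gf_biUnion_le _ _).trans (Finset.sum_le_sum fun T _ => hB T true))
            ((gf_biUnion_le _ _).trans (Finset.sum_le_sum fun T _ => hB T false)))))
    _ = 6 * ∑ T ∈ Finset.range (m + 1), S T := by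
        rw [← Finset.mul_sum]
        ring

end BAR

end HexObs
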