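import Pool.Agent.GLow.LinkW
import Pool.Agent.GLD.WalksMain
import Pool.Agent.BAR.LegC
import Pool.Agent.NUGC.LegAll
import Pool.Agent.NUCR.Target

/-!
GLow: from the lower bound of the cylinder to the exponent gamma; all upper bounds are theorems.
-/

set_option autoImplicit false

namespace HexObs

namespace GLow

open Finset BAR

/-- half plane walks from below -/
theorem hLow_48 (hW : WLow) : HLow (61 / 48) := hLow_of_WLow Pool.Agent.GLD.walks NUGC.hUp hW

/-- **the exponent gamma, both sides** -/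
theorem gamma_of_WLow (hW : WLow) : ∀ ε : ℝ, 0 < ε → ∃ C : ℝ, 0 < C ∧ ∀ n : ℕ, 1 ≤ n →
    C⁻¹ * (n : ℝ) ^ (43 / 32 - ε) ≤ ∑ k ∈ range (n + 1), (aB k : ℝ) / muB ^ k ∧
    ∑ k ∈ range (n + 1), (aB k : ℝ) / muB ^ k ≤ C * (n : ℝ) ^ (43 / 32 + ε) :=
  gamma_sharp NUGC.hUp (hLow_48 hW) (NUI.numUp_of_target NUCR.target) NUCR.nfLow

end GLow

end HexObs
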