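import Pool.Agent.GLow.EndP
import Pool.Agent.GLow.LevMain
import Pool.Agent.GLD.Tail
import Pool.Agent.GLD.HGdL
import Pool.Agent.GLD.HG

/-!
GLow: the link, all parts together. `WLow` (the lower bound of the two-point function of the cylinder with the exponent
`- 5 / 24`, in every window) gives `HLow (61 / 48)`.
-/

set_option autoImplicit false

namespace HexObs

namespace GLow

open Finset BAR

open scoped ENNReal

open Pool.Agent.GLD (Wk GRK WalksH W0)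

/-- the lower bound of the two-point function of the cylinder (`2 k` rows at 0, cut edges at opposite sites) for some
`k` in every window -/
def WLow : Prop := ∀ ε : ℝ, 0 < ε → ∃ (c : ℝ) (m0 : ℕ), 0 < c ∧ ∀ x : ℕ, m0 ≤ x → ∃ M : ℕ,
  (x : ℝ) - (x : ℝ) ^ ε ≤ M ∧ (M : ℝ) ≤ x + (x : ℝ) ^ ε ∧
  ENNReal.ofReal (c * (x : ℝ) ^ (-(5 / 24) - ε : ℝ)) ≤ Wk M

/-- the same bound for every large `k` -/
theorem wLow_of_all (h : ∀ ε : ℝ, 0 < ε → ∃ (c : ℝ) (m0 : ℕ), 0 < c ∧ ∀ k : ℕ, m0 ≤ k → ∀ hk : 1 ≤ k,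
    c * (k : ℝ) ^ (-(5 / 24) - ε : ℝ) ≤ (W0 hk).re) : WLow := by
  intro ε hε
  obtain ⟨c, m0, hc, h1⟩ := h ε hε
  refine ⟨c, max m0 1, hc, fun x hx => ⟨x, ?_, ?_, ?_⟩⟩
  · have : (0 : ℝ) ≤ (x : ℝ) ^ ε := by positivity
    linarith
  · have : (0 : ℝ) ≤ (x : ℝ) ^ ε := by positivity
    linarith
  · have hk : 1 ≤ x := (le_max_right _ _).trans hx
    rw [Pool.Agent.GLD.Wk_eq hk]
    exact ENNReal.ofReal_le_ofReal (h1 x ((le_max_left _ _).trans hx) hk)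

/-- **The link.** -/
theorem hLow_of_WLow {a : ℕ} (hw : WalksH a) (H : HUp (61 / 48)) (hW : WLow) : HLow (61 / 48) := by
  obtain ⟨A, hA, q, hq, c0, hG⟩ := Pool.Agent.GLD.hG
  refine hLow_of_cyl (W := Wk) (G := GRK) hA hq (TwoL_bound (by norm_num) H c0) hG (fun ε hε => ?_) hW
  obtain ⟨C, hC, k0, h⟩ := Pool.Agent.GLD.hGd_lit hw Pool.Agent.GLD.tailH ε hε
  refine ⟨C, k0, hC, fun M hM R hR => ?_⟩
  have h1 := h M hM R hR
  rwa [Real.rpow_neg_one] at h1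

end GLow

end HexObs
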